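import Pool.Agent.Helper33.DefNum.Local

/-!
# D3T (MP_0e4c8c_co, k = 2n - 3): definitions

`d(K_n x K_n, 2n-3) ≥ n² - 7n/3`.  `U` is the set of the undefined cells, `F` the array.

Plan of the proof.  `T3 U F`: the local properties of the undefined cells (as `Tight` in
`Helper33.DefNum.Local`, with three common colours).  It is inherited by subsets of `U`.  A minimal
counterexample to `6 |U| ≤ 7 (number of lines which meet U)` has only lines with 2 or 3 cells
(or none), and by discharging (module Disch) a line with 3 cells with one of the patterns `PatA`,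
`PatB`, `PatC`.  The graph `(a, b, E)` is `Bad` if it cannot be a subgraph of `U`; 16 graphs are bad
(modules O0 .. O15, generated; certificates of unsatisfiability checked by the kernel).  A case tree
(module Tree) finds one of them.
-/

set_option autoImplicit false

namespace Pool.Agent.D3T

open Pool.Agent.Helper33.DefNum

/-- local properties of the undefined cells `U` of the array `F` for `k = 2n - 3` -/
structure T3 {R C K : Type} (U : R → C → Prop) (F : R → C → K) : Prop where
  rinj : ∀ i j j', F i j = F i j' → j = j'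
  cinj : ∀ j i i', F i j = F i' j → i = i'
  uniq : ∀ G : R → C → K, (∀ i j j', G i j = G i j' → j = j') →
    (∀ j i i', G i j = G i' j → i = i') → (∀ i j, ¬ U i j → G i j = F i j) →
    ∀ i j, G i j = F i j
  three : ∀ i j, U i j → ∀ x y z, Rw F i x → Cl F j x → Rw F i y → Cl F j y → Rw F i z →
    Cl F j z → x ≠ F i j → y ≠ F i j → z ≠ F i j → x = y ∨ x = z ∨ y = z
  cover : ∀ i j, U i j → ∀ a, Rw F i a ∨ Cl F j a

theorem T3.transpose {R C K : Type} {U : R → C → Prop} {F : R → C → K} (h : T3 U F) :
    T3 (fun j i => U i j) (fun j i => F i j) where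
  rinj := h.cinj
  cinj := h.rinj
  uniq := fun G h1 h2 h3 j i => h.uniq (fun i j => G j i) h2 h1 (fun i j => h3 j i) i j
  three := fun j i hU x y z h1 h2 h3 h4 h5 h6 => h.three i j hU x y z h2 h1 h4 h3 h6 h5
  cover := fun j i hU a => (h.cover i j hU a).symm

theorem T3.mono {R C K : Type} {U U' : R → C → Prop} {F : R → C → K} (h : T3 U F)
    (hU : ∀ i j, U' i j → U i j) : T3 U' F where
  rinj := h.rinj
  cinj := h.cinj
  uniq := fun G h1 h2 h3 => h.uniq G h1 h2 (fun i j hn => h3 i j (fun h' => hn (hU i j h')))
  three := fun i j hU' => h.three i j (hU i j hU')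
  cover := fun i j hU' => h.cover i j (hU i j hU')

/-- the graph with rows `0 .. a-1`, columns `0 .. b-1` and edges `E` is embedded in `U` by `r`, `c` -/
structure Emb {R C : Type} (a b : ℕ) (E : List (ℕ × ℕ)) (U : R → C → Prop) (r : ℕ → R)
    (c : ℕ → C) : Prop where
  rinj : ∀ i < a, ∀ i' < a, r i = r i' → i = i'
  cinj : ∀ j < b, ∀ j' < b, c j = c j' → j = j'
  mem : ∀ e ∈ E, U (r e.1) (c e.2)

/-- the graph is no subgraph of the undefined cells -/
def Bad (a b : ℕ) (E : List (ℕ × ℕ)) : Prop :=
  ∀ (R C K : Type) (U : R → C → Prop) (F : R → C → K), T3 U F → ∀ (r : ℕ → R) (c : ℕ → C),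
    Emb a b E U r c → False

section graph

variable {R C : Type} [DecidableEq R] [DecidableEq C]

/-- number of the cells of `U` in the row `i` -/
def dr (U : Finset (R × C)) (i : R) : ℕ := (U.filter fun x => x.1 = i).card

/-- number of the cells of `U` in the column `j` -/
def dc (U : Finset (R × C)) (j : C) : ℕ := (U.filter fun x => x.2 = j).card

/-- number of the lines which meet `U` -/
def lns (U : Finset (R × C)) : ℕ := (U.image Prod.fst).card + (U.image Prod.snd).card

/-- two columns with three cells at the row `i` -/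
def PatA (U : Finset (R × C)) (i : R) : Prop :=
  ∃ j₁ j₂, j₁ ≠ j₂ ∧ (i, j₁) ∈ U ∧ (i, j₂) ∈ U ∧ dc U j₁ = 3 ∧ dc U j₂ = 3

/-- a column with three cells and a column with two cells leading to a row with three cells -/
def PatB (U : Finset (R × C)) (i : R) : Prop :=
  ∃ j₁ j₂ i', (i, j₁) ∈ U ∧ dc U j₁ = 3 ∧ (i, j₂) ∈ U ∧ dc U j₂ = 2 ∧ (i', j₂) ∈ U ∧ i' ≠ i ∧
    dr U i' = 3

/-- all columns at the row `i` have two cells and lead to rows with three cells -/
def PatC (U : Finset (R × C)) (i : R) : Prop :=
  ∀ j, (i, j) ∈ U → dc U j = 2 ∧ ∃ i', i' ≠ i ∧ (i', j) ∈ U ∧ dr U i' = 3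

omit [DecidableEq R] [DecidableEq C]

/-- the transposed set of cells -/
def tps (U : Finset (R × C)) : Finset (C × R) := U.map (Equiv.prodComm R C).toEmbedding

theorem mem_tps (U : Finset (R × C)) (i : R) (j : C) : (j, i) ∈ tps U ↔ (i, j) ∈ U := by
  rw [tps, Finset.mem_map_equiv]
  rfl

theorem card_tps (U : Finset (R × C)) : (tps U).card = U.card := Finset.card_map _

end graph

end Pool.Agent.D3T
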