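import Pool.Agent.D3T.Rup
import Pool.Agent.D3T.Defs

/-!
# D3T, module Axm: the axioms of the local problem as clauses (definitions)

The graph has `b.1` rows, `b.2` columns; cells are numbers `x < b.1 * b.2`, in the row `x / b.2` and
the column `x % b.2`.  The value `sem` of a variable: `vE b x y`: the cells `x`, `y` have the same
colour; `vR b i x`: the colour of `x` occurs in the row `i`; `vC b j x`: in the column `j`;
`vM b e x`: in the row and in the column of the cell `e`.  An axiom is coded by a number: the kind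
modulo 16, then the digits of its arguments in base 64.
-/

set_option autoImplicit false

noncomputable section

namespace Pool.Agent.D3T

open Pool.Agent.Helper33.DefNum

/-- variable of the equality of the colours of the cells `x`, `y` -/
def vE (b : ℕ × ℕ) (x y : ℕ) : ℕ := match Nat.ble x y with
  | true => x * (b.1 * b.2) + y
  | false => y * (b.1 * b.2) + x

/-- colour of `x` common to the row and the column of the cell `e` -/
def vM (b : ℕ × ℕ) (e x : ℕ) : ℕ := (b.1 * b.2) * (b.1 * b.2) + (e * (b.1 * b.2) + x)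

/-- colour of `x` in the row `i` -/
def vR (b : ℕ × ℕ) (i x : ℕ) : ℕ := 2 * ((b.1 * b.2) * (b.1 * b.2)) + (i * (b.1 * b.2) + x)

/-- colour of `x` in the column `j` -/
def vC (b : ℕ × ℕ) (j x : ℕ) : ℕ := 2 * ((b.1 * b.2) * (b.1 * b.2)) + ((b.1 + j) * (b.1 * b.2) + x)

/-- mask with one bit -/
def bt (x : ℕ) : ℕ := Nat.shiftLeft 1 x

/-- different cells on a line -/
def same (b : ℕ × ℕ) (x y : ℕ) : Bool :=
  !Nat.beq x y && (Nat.beq (x / b.2) (y / b.2) || Nat.beq (x % b.2) (y % b.2))

/-- mask of the equality of the colours of the cells `x`, `y`; nothing if they are on a line -/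
def bE (b : ℕ × ℕ) (x y : ℕ) : ℕ := match same b x y with
  | true => 0
  | false => bt (vE b x y)

/-- the axiom with the code `n` as masks; `k` is called if the side conditions are fulfilled; `K` is
the list of the cells which are undefined -/
def axm (b : ℕ × ℕ) (K : List ℕ) (n : ℕ) (k : ℕ → ℕ → Bool) : Bool :=
  let t := n / 16
  let x := t % 64
  let y := t / 64 % 64
  let z := t / 4096 % 64
  let w := t / 262144 % 64
  match Nat.blt x (b.1 * b.2) && Nat.blt y (b.1 * b.2) && Nat.blt z (b.1 * b.2) &&
    Nat.blt w (b.1 * b.2) with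
  | false => false
  | true => match n % 16 with
    | 0 => k (bt (vR b (x / b.2) x)) 0
    | 1 => k (bt (vC b (x % b.2) x)) 0
    | 2 => match same b x y with
      | true => k 0 (bt (vE b x y))
      | false => false
    | 3 => k (bt (vE b x z)) (Nat.lor (bt (vE b x y)) (bt (vE b y z)))
    | 4 => match Nat.blt x b.1 with
      | true => k (bt (vR b x z)) (Nat.lor (bt (vE b y z)) (bt (vR b x y)))
      | false => false
    | 5 => match Nat.blt x b.2 with
      | true => k (bt (vC b x z)) (Nat.lor (bt (vE b y z)) (bt (vC b x y)))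
      | false => false
    | 6 => match K.elem x with
      | true => k (Nat.lor (bt (vR b (x / b.2) y)) (bt (vC b (x % b.2) y))) 0
      | false => false
    | 7 => k (bt (vR b (x / b.2) y)) (bt (vM b x y))
    | 8 => k (bt (vC b (x % b.2) y)) (bt (vM b x y))
    | 9 => k (bt (vM b x y)) (Nat.lor (bt (vR b (x / b.2) y)) (bt (vC b (x % b.2) y)))
    | 10 => match K.elem x with
      | true => k (Nat.lor (bE b y z) (Nat.lor (bE b y w) (Nat.lor (bE b z w)
          (Nat.lor (bE b x y) (Nat.lor (bE b x z) (bE b x w))))))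
          (Nat.lor (bt (vM b x y)) (Nat.lor (bt (vM b x z)) (bt (vM b x w))))
      | false => false
    | _ => false

/-- insertion of a list of axioms -/
def axs (b : ℕ × ℕ) (K : List ℕ) (l : List ℕ) : Tr → ℕ → (Tr → ℕ → Bool) → Bool :=
  List.rec (motive := fun _ => Tr → ℕ → (Tr → ℕ → Bool) → Bool) (fun t i k => k t i)
    (fun n _ ih t i k => axm b K n fun P N => ih (Tr.ins 13 t i P N) (Nat.succ i) k) l

section sem

variable {R C L : Type} (b : ℕ × ℕ) (F : R → C → L) (r : ℕ → R) (c : ℕ → C)

/-- colour of the cell `x` -/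
def colr (x : ℕ) : L := F (r (x / b.2)) (c (x % b.2))

/-- values of the variables -/
def sem (n : ℕ) : Prop :=
  if n < (b.1 * b.2) * (b.1 * b.2) then
    colr b F r c (n / (b.1 * b.2)) = colr b F r c (n % (b.1 * b.2))
  else if n < 2 * ((b.1 * b.2) * (b.1 * b.2)) then
    Rw F (r ((n - (b.1 * b.2) * (b.1 * b.2)) / (b.1 * b.2) / b.2))
        (colr b F r c ((n - (b.1 * b.2) * (b.1 * b.2)) % (b.1 * b.2))) ∧
      Cl F (c ((n - (b.1 * b.2) * (b.1 * b.2)) / (b.1 * b.2) % b.2))
        (colr b F r c ((n - (b.1 * b.2) * (b.1 * b.2)) % (b.1 * b.2)))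
  else if (n - 2 * ((b.1 * b.2) * (b.1 * b.2))) / (b.1 * b.2) < b.1 then
    Rw F (r ((n - 2 * ((b.1 * b.2) * (b.1 * b.2))) / (b.1 * b.2)))
      (colr b F r c ((n - 2 * ((b.1 * b.2) * (b.1 * b.2))) % (b.1 * b.2)))
  else Cl F (c ((n - 2 * ((b.1 * b.2) * (b.1 * b.2))) / (b.1 * b.2) - b.1))
      (colr b F r c ((n - 2 * ((b.1 * b.2) * (b.1 * b.2))) % (b.1 * b.2)))

end sem

end Pool.Agent.D3T
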