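import Pool.Agent.D3T.TDefs

/-!
# D3T, module CaseAB: the patterns A and B give the states `sA`, `sB`

`dr U i = 3`: `Finset.card_eq_three` gives the three cells of the row `i`; name their columns such
that the first two are the columns of the pattern.  `r`, `c` are functions on `ℕ`; use
`fun n => if n = 0 then i else i'` and `fun n => if n = 0 then j₁ else if n = 1 then j₂ else j₃`.
-/

set_option autoImplicit false

namespace Pool.Agent.D3T

private theorem third {R C : Type} [DecidableEq R] [DecidableEq C] (U : Finset (R × C)) (i : R)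
    (hi : dr U i = 3) (j₁ j₂ : C) : ∃ j₃, j₃ ≠ j₁ ∧ j₃ ≠ j₂ ∧ (i, j₃) ∈ U := by
  have h1 : (({(i, j₁), (i, j₂)} : Finset (R × C))).card < (U.filter fun x => x.1 = i).card := by
    have h2 : (({(i, j₁), (i, j₂)} : Finset (R × C))).card ≤ 2 := Finset.card_le_two
    have h3 : (U.filter fun x => x.1 = i).card = 3 := hi
    omega
  obtain ⟨x, hx, hn⟩ := Finset.exists_mem_notMem_of_card_lt_card h1
  rw [Finset.mem_filter] at hx
  obtain ⟨a, b⟩ := x
  obtain ⟨hx1, hx2⟩ := hx
  simp only at hx2
  subst hx2
  refine ⟨b, ?_, ?_, hx1⟩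
  · rintro rfl
    exact hn (by simp)
  · rintro rfl
    exact hn (by simp)

theorem fit_A {R C : Type} [DecidableEq R] [DecidableEq C] (U : Finset (R × C)) (i : R)
    (hi : dr U i = 3) (h : PatA U i) : ∃ r c, Fit sA U r c := by
  obtain ⟨j₁, j₂, hne, h1, h2, hc1, hc2⟩ := h
  obtain ⟨j₃, h31, h32, h3⟩ := third U i hi j₁ j₂
  refine ⟨fun _ => i, fun n => if n = 0 then j₁ else if n = 1 then j₂ else j₃, ?_⟩
  refine ⟨⟨?_, ?_, ?_⟩, ?_, ?_, ?_, ?_, ?_, ?_, ?_, ?_, ?_, ?_⟩
  · intro a ha b hb _
    simp only [sA] at ha hb
    omega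
  · intro a ha b hb hab
    simp only [sA] at ha hb
    interval_cases a <;> interval_cases b <;> simp_all
  · intro e he
    simp only [sA, List.mem_cons, List.not_mem_nil, or_false] at he
    rcases he with rfl | rfl | rfl <;> simp_all
  · intro e he
    simp only [sA, List.mem_cons, List.not_mem_nil, or_false] at he
    rcases he with rfl | rfl | rfl <;> simp [sA]
  · intro e he
    simp only [sA, List.mem_cons, List.not_mem_nil, or_false] at he
    rcases he with rfl | rfl | rfl <;> simp [sA]
  · simp [sA]
  · simp [sA]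
  · intro a ha
    simp only [sA] at ha
    interval_cases a
    exact ⟨0, by simp [sA]⟩
  · intro b hb
    simp only [sA] at hb
    interval_cases b
    · exact ⟨0, by simp [sA]⟩
    · exact ⟨0, by simp [sA]⟩
    · exact ⟨0, by simp [sA]⟩
  · intro a _
    exact hi
  · intro b hb
    simp only [sA, List.mem_cons, List.not_mem_nil, or_false] at hb
    rcases hb with rfl | rfl
    · simpa using hc1
    · simpa using hc2
  · intro a ha
    simp [sA] at ha
  · intro b hb
    simp [sA] at hb

theorem fit_B {R C : Type} [DecidableEq R] [DecidableEq C] (U : Finset (R × C)) (i : R)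
    (hi : dr U i = 3) (h : PatB U i) : ∃ r c, Fit sB U r c := by
  obtain ⟨j₁, j₂, i', h1, hc1, h2, hc2, h2', hii, hi'⟩ := h
  obtain ⟨j₃, h31, h32, h3⟩ := third U i hi j₁ j₂
  have hne : j₁ ≠ j₂ := by
    rintro rfl
    omega
  have hii' : i ≠ i' := fun h => hii h.symm
  refine ⟨fun n => if n = 0 then i else i', fun n => if n = 0 then j₁ else if n = 1 then j₂ else j₃,
    ?_⟩
  refine ⟨⟨?_, ?_, ?_⟩, ?_, ?_, ?_, ?_, ?_, ?_, ?_, ?_, ?_, ?_⟩
  · intro a ha b hb hab
    simp only [sB] at ha hb
    interval_cases a <;> interval_cases b <;> simp_all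
  · intro a ha b hb hab
    simp only [sB] at ha hb
    interval_cases a <;> interval_cases b <;> simp_all
  · intro e he
    simp only [sB, List.mem_cons, List.not_mem_nil, or_false] at he
    rcases he with rfl | rfl | rfl | rfl <;> simp_all
  · intro e he
    simp only [sB, List.mem_cons, List.not_mem_nil, or_false] at he
    rcases he with rfl | rfl | rfl | rfl <;> simp [sB]
  · intro e he
    simp only [sB, List.mem_cons, List.not_mem_nil, or_false] at he
    rcases he with rfl | rfl | rfl | rfl <;> simp [sB]
  · simp [sB]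
  · simp [sB]
  · intro a ha
    simp only [sB] at ha
    interval_cases a
    · exact ⟨0, by simp [sB]⟩
    · exact ⟨1, by simp [sB]⟩
  · intro b hb
    simp only [sB] at hb
    interval_cases b
    · exact ⟨0, by simp [sB]⟩
    · exact ⟨0, by simp [sB]⟩
    · exact ⟨0, by simp [sB]⟩
  · intro a ha
    simp only [sB, List.mem_cons, List.not_mem_nil, or_false] at ha
    rcases ha with rfl | rfl
    · simpa using hi
    · simpa using hi'
  · intro b hb
    simp only [sB, List.mem_cons, List.not_mem_nil, or_false] at hb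
    subst hb
    simpa using hc1
  · intro a ha
    simp [sB] at ha
  · intro b hb
    simp only [sB, List.mem_cons, List.not_mem_nil, or_false] at hb
    subst hb
    simpa using hc2

end Pool.Agent.D3T
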