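import Pool.Agent.D3T.TDefs

/-!
# D3T, module CaseC: the pattern C gives one of the states `sC1`, `sC2`, `sC3`

`dr U i = 3`: `Finset.card_eq_three` gives the three cells of the row `i`, in the columns
`j₀`, `j₁`, `j₂`; every one of these columns has a second cell, in the rows `i₀`, `i₁`, `i₂` (three
cells in each of them).  All different: `sC1`.  Exactly two equal: `sC2` (name the columns such that
the first two are those with the same row).  All equal: `sC3`.  `r`, `c` are functions on `ℕ`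
(nested `if n = 0 then .. else ..`).
-/

set_option autoImplicit false

namespace Pool.Agent.D3T

private def cC_f2 {α : Type} (x y : α) : ℕ → α := fun n => if n = 0 then x else y

private def cC_f3 {α : Type} (x y z : α) : ℕ → α :=
  fun n => if n = 0 then x else if n = 1 then y else z

private def cC_f4 {α : Type} (x y z w : α) : ℕ → α :=
  fun n => if n = 0 then x else if n = 1 then y else if n = 2 then z else w

private theorem cC_inj3 {α : Type} {x y z : α} (h1 : x ≠ y) (h2 : x ≠ z) (h3 : y ≠ z) :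
    ∀ i < 3, ∀ j < 3, cC_f3 x y z i = cC_f3 x y z j → i = j := by
  intro i hi j hj h
  interval_cases i <;> interval_cases j <;> simp_all [cC_f3]

private theorem cC_inj2 {α : Type} {x y : α} (h1 : x ≠ y) :
    ∀ i < 2, ∀ j < 2, cC_f2 x y i = cC_f2 x y j → i = j := by
  intro i hi j hj h
  interval_cases i <;> interval_cases j <;> simp_all [cC_f2]

private theorem cC_inj4 {α : Type} {x y z w : α} (h1 : x ≠ y) (h2 : x ≠ z) (h3 : x ≠ w)
    (h4 : y ≠ z) (h5 : y ≠ w) (h6 : z ≠ w) :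
    ∀ i < 4, ∀ j < 4, cC_f4 x y z w i = cC_f4 x y z w j → i = j := by
  intro i hi j hj h
  interval_cases i <;> interval_cases j <;> simp_all [cC_f4]

private theorem cC_one {R C : Type} [DecidableEq R] [DecidableEq C] (U : Finset (R × C))
    {i i0 i1 i2 : R} {j0 j1 j2 : C} (hj01 : j0 ≠ j1) (hj02 : j0 ≠ j2) (hj12 : j1 ≠ j2)
    (h0 : (i, j0) ∈ U) (h1 : (i, j1) ∈ U) (h2 : (i, j2) ∈ U) (hi : dr U i = 3)
    (k0 : (i0, j0) ∈ U) (k1 : (i1, j1) ∈ U) (k2 : (i2, j2) ∈ U) (d0 : dr U i0 = 3)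
    (d1 : dr U i1 = 3) (d2 : dr U i2 = 3) (c0 : dc U j0 = 2) (c1 : dc U j1 = 2)
    (c2 : dc U j2 = 2) (n0 : i0 ≠ i) (n1 : i1 ≠ i) (n2 : i2 ≠ i) (m01 : i0 ≠ i1) (m02 : i0 ≠ i2)
    (m12 : i1 ≠ i2) : Fit sC1 U (cC_f4 i i0 i1 i2) (cC_f3 j0 j1 j2) where
  emb := ⟨cC_inj4 n0.symm n1.symm n2.symm m01 m02 m12, cC_inj3 hj01 hj02 hj12, by
    intro e he
    simp only [sC1, List.mem_cons, List.not_mem_nil, or_false] at he
    rcases he with rfl | rfl | rfl | rfl | rfl | rfl <;> simpa [cC_f3, cC_f4]⟩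
  ia := by decide
  ib := by decide
  nd := by decide
  ne := by decide
  cr := by
    intro i hi
    have : i < 4 := hi
    interval_cases i
    · exact ⟨0, by decide⟩
    · exact ⟨0, by decide⟩
    · exact ⟨1, by decide⟩
    · exact ⟨2, by decide⟩
  cc := by
    intro j hj
    have : j < 3 := hj
    interval_cases j
    · exact ⟨0, by decide⟩
    · exact ⟨0, by decide⟩
    · exact ⟨0, by decide⟩
  r3 := by
    intro i hi
    simp only [sC1, List.mem_cons, List.not_mem_nil, or_false] at hi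
    rcases hi with rfl | rfl | rfl | rfl <;> simpa [cC_f4]
  c3 := by
    intro j hj
    simp [sC1] at hj
  r2 := by
    intro j hj
    simp [sC1] at hj
  c2 := by
    intro i hi
    simp only [sC1, List.mem_cons, List.not_mem_nil, or_false] at hi
    rcases hi with rfl | rfl | rfl <;> simpa [cC_f3]

private theorem cC_two {R C : Type} [DecidableEq R] [DecidableEq C] (U : Finset (R × C))
    {i i0 i2 : R} {j0 j1 j2 : C} (hj01 : j0 ≠ j1) (hj02 : j0 ≠ j2) (hj12 : j1 ≠ j2)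
    (h0 : (i, j0) ∈ U) (h1 : (i, j1) ∈ U) (h2 : (i, j2) ∈ U) (hi : dr U i = 3)
    (k0 : (i0, j0) ∈ U) (k1 : (i0, j1) ∈ U) (k2 : (i2, j2) ∈ U) (d0 : dr U i0 = 3)
    (d2 : dr U i2 = 3) (c0 : dc U j0 = 2) (c1 : dc U j1 = 2)
    (c2 : dc U j2 = 2) (n0 : i0 ≠ i) (n2 : i2 ≠ i) (m02 : i0 ≠ i2) :
    Fit sC2 U (cC_f3 i i0 i2) (cC_f3 j0 j1 j2) where
  emb := ⟨cC_inj3 n0.symm n2.symm m02, cC_inj3 hj01 hj02 hj12, by
    intro e he
    simp only [sC2, List.mem_cons, List.not_mem_nil, or_false] at he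
    rcases he with rfl | rfl | rfl | rfl | rfl | rfl <;> simpa [cC_f3]⟩
  ia := by decide
  ib := by decide
  nd := by decide
  ne := by decide
  cr := by
    intro i hi
    have : i < 3 := hi
    interval_cases i
    · exact ⟨0, by decide⟩
    · exact ⟨0, by decide⟩
    · exact ⟨2, by decide⟩
  cc := by
    intro j hj
    have : j < 3 := hj
    interval_cases j
    · exact ⟨0, by decide⟩
    · exact ⟨0, by decide⟩
    · exact ⟨0, by decide⟩
  r3 := by
    intro i hi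
    simp only [sC2, List.mem_cons, List.not_mem_nil, or_false] at hi
    rcases hi with rfl | rfl | rfl <;> simpa [cC_f3]
  c3 := by
    intro j hj
    simp [sC2] at hj
  r2 := by
    intro j hj
    simp [sC2] at hj
  c2 := by
    intro i hi
    simp only [sC2, List.mem_cons, List.not_mem_nil, or_false] at hi
    rcases hi with rfl | rfl | rfl <;> simpa [cC_f3]

private theorem cC_three {R C : Type} [DecidableEq R] [DecidableEq C] (U : Finset (R × C))
    {i i0 : R} {j0 j1 j2 : C} (hj01 : j0 ≠ j1) (hj02 : j0 ≠ j2) (hj12 : j1 ≠ j2)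
    (h0 : (i, j0) ∈ U) (h1 : (i, j1) ∈ U) (h2 : (i, j2) ∈ U) (hi : dr U i = 3)
    (k0 : (i0, j0) ∈ U) (k1 : (i0, j1) ∈ U) (k2 : (i0, j2) ∈ U) (d0 : dr U i0 = 3)
    (c0 : dc U j0 = 2) (c1 : dc U j1 = 2)
    (c2 : dc U j2 = 2) (n0 : i0 ≠ i) : Fit sC3 U (cC_f2 i i0) (cC_f3 j0 j1 j2) where
  emb := ⟨cC_inj2 n0.symm, cC_inj3 hj01 hj02 hj12, by
    intro e he
    simp only [sC3, List.mem_cons, List.not_mem_nil, or_false] at he
    rcases he with rfl | rfl | rfl | rfl | rfl | rfl <;> simpa [cC_f3, cC_f2]⟩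
  ia := by decide
  ib := by decide
  nd := by decide
  ne := by decide
  cr := by
    intro i hi
    have : i < 2 := hi
    interval_cases i
    · exact ⟨0, by decide⟩
    · exact ⟨0, by decide⟩
  cc := by
    intro j hj
    have : j < 3 := hj
    interval_cases j
    · exact ⟨0, by decide⟩
    · exact ⟨0, by decide⟩
    · exact ⟨0, by decide⟩
  r3 := by
    intro i hi
    simp only [sC3, List.mem_cons, List.not_mem_nil, or_false] at hi
    rcases hi with rfl | rfl <;> simpa [cC_f2]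
  c3 := by
    intro j hj
    simp [sC3] at hj
  r2 := by
    intro j hj
    simp [sC3] at hj
  c2 := by
    intro i hi
    simp only [sC3, List.mem_cons, List.not_mem_nil, or_false] at hi
    rcases hi with rfl | rfl | rfl <;> simpa [cC_f3]

private theorem cC_cells {R C : Type} [DecidableEq R] [DecidableEq C] (U : Finset (R × C)) (i : R)
    (hi : dr U i = 3) : ∃ j0 j1 j2, j0 ≠ j1 ∧ j0 ≠ j2 ∧ j1 ≠ j2 ∧ (i, j0) ∈ U ∧ (i, j1) ∈ U ∧
      (i, j2) ∈ U := by
  unfold dr at hi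
  obtain ⟨x, y, z, hxy, hxz, hyz, h⟩ := Finset.card_eq_three.1 hi
  have hx : x ∈ U.filter (fun x => x.1 = i) := by
    rw [h]
    simp
  have hy : y ∈ U.filter (fun x => x.1 = i) := by
    rw [h]
    simp
  have hz : z ∈ U.filter (fun x => x.1 = i) := by
    rw [h]
    simp
  rw [Finset.mem_filter] at hx hy hz
  obtain ⟨x1, x2⟩ := x
  obtain ⟨y1, y2⟩ := y
  obtain ⟨z1, z2⟩ := z
  obtain ⟨hx, rfl⟩ := hx
  obtain ⟨hy, hy'⟩ := hy
  obtain ⟨hz, hz'⟩ := hz
  simp only at hy' hz'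
  subst hy'
  subst hz'
  exact ⟨x2, y2, z2, fun e => hxy (by rw [e]), fun e => hxz (by rw [e]), fun e => hyz (by rw [e]),
    hx, hy, hz⟩

theorem fit_C {R C : Type} [DecidableEq R] [DecidableEq C] (U : Finset (R × C)) (i : R)
    (hi : dr U i = 3) (h : PatC U i) :
    ∃ r c, Fit sC1 U r c ∨ Fit sC2 U r c ∨ Fit sC3 U r c := by
  obtain ⟨j0, j1, j2, hj01, hj02, hj12, h0, h1, h2⟩ := cC_cells U i hi
  obtain ⟨c0, i0, n0, k0, d0⟩ := h j0 h0
  obtain ⟨c1, i1, n1, k1, d1⟩ := h j1 h1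
  obtain ⟨c2, i2, n2, k2, d2⟩ := h j2 h2
  by_cases m01 : i0 = i1
  · subst m01
    by_cases m02 : i0 = i2
    · subst m02
      exact ⟨_, _, Or.inr (Or.inr (cC_three U hj01 hj02 hj12 h0 h1 h2 hi k0 k1 k2 d0 c0 c1 c2 n0))⟩
    · exact ⟨_, _, Or.inr (Or.inl (cC_two U hj01 hj02 hj12 h0 h1 h2 hi k0 k1 k2 d0 d2 c0 c1 c2
        n0 n2 m02))⟩
  · by_cases m02 : i0 = i2
    · subst m02
      exact ⟨_, _, Or.inr (Or.inl (cC_two U hj02 hj01 hj12.symm h0 h2 h1 hi k0 k2 k1 d0 d1 c0 c2 c1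
        n0 n1 m01))⟩
    · by_cases m12 : i1 = i2
      · subst m12
        exact ⟨_, _, Or.inr (Or.inl (cC_two U hj12 hj01.symm hj02.symm h1 h2 h0 hi k1 k2 k0 d1 d0
          c1 c2 c0 n1 n0 (Ne.symm m01)))⟩
      · exact ⟨_, _, Or.inl (cC_one U hj01 hj02 hj12 h0 h1 h2 hi k0 k1 k2 d0 d1 d2 c0 c1 c2 n0 n1 n2
          m01 m02 m12)⟩

end Pool.Agent.D3T
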