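import Pool.Agent.D3T.Defs

/-!
# D3T, module TDefs: the case tree (definitions)

A state describes a graph `H` found in `U` (rows `0 .. a-1`, columns `0 .. b-1`, edges `E`) and
which of its lines are known to have exactly three (`r3`, `c3`) or exactly two (`r2`, `c2`) cells in
`U`.  Every line which meets `U` has two or three cells.  `tree O f s t` reads the instructions `t`
in depth-first order: `leaf`: a graph of the list `O` is a subgraph of `H`; `row i`: the row `i`
has fewer edges in `H` than it has cells in `U`, add the missing edge in all possible ways (to a new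
column, to an old column); `cls`: all lines of `H` are saturated and `6 |E| ≤ 7 (a + b)`: then `H` is
not a union of components of `U`, so some line with two edges in `H` has three cells in `U`.
-/

set_option autoImplicit false

namespace Pool.Agent.D3T

structure Stt where
  a : ℕ
  b : ℕ
  E : List (ℕ × ℕ)
  r3 : List ℕ
  c3 : List ℕ
  r2 : List ℕ
  c2 : List ℕ

inductive Ins
  | leaf (o : ℕ) (sw : Bool) (ρ κ : List ℕ)
  | row (i : ℕ)
  | col (j : ℕ)
  | cls

namespace Stt

/-- number of edges of `H` at the row `i` -/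
def dR (s : Stt) (i : ℕ) : ℕ := (s.E.filter fun e => e.1 == i).length

/-- number of edges of `H` at the column `j` -/
def dC (s : Stt) (j : ℕ) : ℕ := (s.E.filter fun e => e.2 == j).length

/-- known lower bounds of the numbers of cells of `U` -/
def nR (s : Stt) (i : ℕ) : ℕ := if s.r3.elem i then 3 else 2

def nC (s : Stt) (j : ℕ) : ℕ := if s.c3.elem j then 3 else 2

/-- known upper bounds of the numbers of cells of `U` -/
def mR (s : Stt) (i : ℕ) : ℕ := if s.r2.elem i then 2 else 3

def mC (s : Stt) (j : ℕ) : ℕ := if s.c2.elem j then 2 else 3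

end Stt

/-- the graph `O` is a subgraph of `H` by the maps `ρ` of the rows and `κ` of the columns (`sw`: rows
of `O` go to columns of `H`) -/
def leafOk (O : ℕ × ℕ × List (ℕ × ℕ)) (s : Stt) : Bool → List ℕ → List ℕ → Bool
  | false, ρ, κ => ρ.length == O.1 && κ.length == O.2.1 && ρ.all (fun x => x < s.a) &&
      κ.all (fun x => x < s.b) && decide ρ.Nodup && decide κ.Nodup &&
      O.2.2.all (fun e => e.1 < O.1 && e.2 < O.2.1 && s.E.elem (ρ.getD e.1 0, κ.getD e.2 0))
  | true, ρ, κ => ρ.length == O.1 && κ.length == O.2.1 && ρ.all (fun x => x < s.b) &&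
      κ.all (fun x => x < s.a) && decide ρ.Nodup && decide κ.Nodup &&
      O.2.2.all (fun e => e.1 < O.1 && e.2 < O.2.1 && s.E.elem (κ.getD e.2 0, ρ.getD e.1 0))

/-- the case tree; the result is the rest of the instructions -/
def tree (O : List (ℕ × ℕ × List (ℕ × ℕ))) : ℕ → Stt → List Ins → Option (List Ins)
  | 0, _, _ => none
  | _ + 1, _, [] => none
  | _ + 1, s, .leaf o sw ρ κ :: t => if leafOk (O.getD o (0, 0, [])) s sw ρ κ && decide (o < O.length)
      then some t else none
  | f + 1, s, .row i :: t =>
      if decide (i < s.a) && decide (s.dR i < s.nR i) then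
        (List.range s.b).foldl (fun acc j => acc.bind fun t =>
            if s.E.elem (i, j) || decide (s.mC j ≤ s.dC j) then some t
            else tree O f { s with E := (i, j) :: s.E } t)
          (tree O f { s with b := s.b + 1, E := (i, s.b) :: s.E } t)
      else none
  | f + 1, s, .col j :: t =>
      if decide (j < s.b) && decide (s.dC j < s.nC j) then
        (List.range s.a).foldl (fun acc i => acc.bind fun t =>
            if s.E.elem (i, j) || decide (s.mR i ≤ s.dR i) then some t
            else tree O f { s with E := (i, j) :: s.E } t)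
          (tree O f { s with a := s.a + 1, E := (s.a, j) :: s.E } t)
      else none
  | f + 1, s, .cls :: t =>
      if (List.range s.a).all (fun i => decide (s.nR i ≤ s.dR i)) &&
          (List.range s.b).all (fun j => decide (s.nC j ≤ s.dC j)) &&
          decide (6 * s.E.length ≤ 7 * (s.a + s.b)) then
        (List.range s.b).foldl (fun acc j => acc.bind fun t =>
            if decide (s.mC j ≤ s.dC j) then some t else tree O f { s with c3 := j :: s.c3 } t)
          ((List.range s.a).foldl (fun acc i => acc.bind fun t =>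
            if decide (s.mR i ≤ s.dR i) then some t else tree O f { s with r3 := i :: s.r3 } t)
            (some t))
      else none

/-- the state describes a part of `U` -/
structure Fit {R C : Type} [DecidableEq R] [DecidableEq C] (s : Stt) (U : Finset (R × C))
    (r : ℕ → R) (c : ℕ → C) : Prop where
  emb : Emb s.a s.b s.E (fun i j => (i, j) ∈ U) r c
  ia : ∀ e ∈ s.E, e.1 < s.a
  ib : ∀ e ∈ s.E, e.2 < s.b
  nd : s.E.Nodup
  ne : s.E ≠ []
  cr : ∀ i < s.a, ∃ j, (i, j) ∈ s.E
  cc : ∀ j < s.b, ∃ i, (i, j) ∈ s.E
  r3 : ∀ i ∈ s.r3, dr U (r i) = 3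
  c3 : ∀ j ∈ s.c3, dc U (c j) = 3
  r2 : ∀ i ∈ s.r2, dr U (r i) = 2
  c2 : ∀ j ∈ s.c2, dc U (c j) = 2

/-- states of the three patterns -/
def sA : Stt := ⟨1, 3, [(0, 0), (0, 1), (0, 2)], [0], [0, 1], [], []⟩

def sB : Stt := ⟨2, 3, [(0, 0), (0, 1), (0, 2), (1, 1)], [0, 1], [0], [], [1]⟩

def sC1 : Stt := ⟨4, 3, [(0, 0), (0, 1), (0, 2), (1, 0), (2, 1), (3, 2)], [0, 1, 2, 3], [], [], [0, 1, 2]⟩

def sC2 : Stt := ⟨3, 3, [(0, 0), (0, 1), (0, 2), (1, 0), (1, 1), (2, 2)], [0, 1, 2], [], [], [0, 1, 2]⟩

def sC3 : Stt := ⟨2, 3, [(0, 0), (0, 1), (0, 2), (1, 0), (1, 1), (1, 2)], [0, 1], [], [], [0, 1, 2]⟩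

end Pool.Agent.D3T
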