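import Pool.Agent.D3T.Obs
import Pool.Agent.D3T.TDefs

/-!
# D3T, module Cert: the case trees (generated)
-/

set_option autoImplicit false

namespace Pool.Agent.D3T

theorem tree_A : tree obs 30 sA [
    .col 0,
    .row 1,
    .col 0,
    .row 2,
    .col 1,
    .row 3,
    .col 1,
    .leaf 7 true [0,1,4,5,2] [1,4,2,3,0],
    .leaf 1 true [0,1,5,3] [2,3,0,1],
    .leaf 1 true [0,1,5,4] [1,3,0,2],
    .col 1,
    .row 4,
    .leaf 7 true [0,1,4,5,2] [1,3,2,4,0],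
    .leaf 0 false [0,3,4] [1,2],
    .leaf 4 false [0,1,4,2,3] [2,3,0,1],
    .leaf 4 false [0,2,4,1,3] [2,4,0,1],
    .leaf 1 false [1,0,3,2] [3,2,1,0],
    .leaf 1 false [2,0,3,1] [4,2,1,0],
    .col 1,
    .leaf 4 false [0,1,3,2,4] [2,3,0,1],
    .leaf 1 false [0,1,3,2] [2,3,1,0],
    .leaf 1 true [0,1,3,4] [1,3,0,2],
    .col 1,
    .leaf 4 false [0,2,3,1,4] [2,4,0,1],
    .leaf 1 true [0,1,4,3] [2,3,0,1],
    .leaf 1 false [0,2,3,1] [2,4,1,0],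
    .leaf 3 true [0,1,4,2,3] [2,0,1],
    .leaf 3 true [0,1,3,2,4] [1,0,2],
    .col 1,
    .leaf 1 true [1,0,3,2] [3,1,2,0],
    .leaf 0 false [0,1,2] [0,1],
    .col 1,
    .row 3,
    .col 1,
    .leaf 7 true [0,1,3,4,2] [2,4,1,3,0],
    .leaf 1 false [1,0,2,3] [3,2,0,1],
    .leaf 0 true [0,1,2] [0,2],
    .leaf 1 true [2,0,3,1] [3,1,2,0],
    .col 1,
    .leaf 4 false [0,1,3,2,4] [2,3,0,1],
    .leaf 1 false [0,1,3,2] [2,3,1,0],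
    .leaf 0 true [0,1,2] [0,2],
    .col 1,
    .leaf 1 false [1,0,2,3] [3,2,0,1],
    .leaf 0 false [0,1,2] [0,1],
    .leaf 0 true [0,1,2] [0,2],
    .col 1,
    .row 3,
    .col 1,
    .leaf 7 true [0,1,3,4,2] [1,4,2,3,0],
    .leaf 1 false [0,1,2,3] [2,3,0,1],
    .leaf 1 false [0,2,1,3] [2,3,0,1],
    .col 1,
    .row 4,
    .leaf 7 true [0,1,3,4,2] [1,3,2,4,0],
    .leaf 0 false [0,3,4] [1,2],
    .leaf 2 false [0,1,2,4] [1,2,3,0],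
    .leaf 1 false [0,1,2,3] [2,3,0,1],
    .leaf 1 false [0,2,1,3] [2,3,0,1],
    .leaf 2 false [0,1,2,3] [1,2,3,0],
    .col 1,
    .leaf 1 false [0,1,2,3] [2,3,0,1],
    .leaf 0 false [0,1,2] [0,1],
    .col 1,
    .leaf 1 false [0,2,1,3] [2,3,0,1],
    .leaf 0 false [0,1,2] [0,1],
    .col 0,
    .row 2,
    .col 1,
    .leaf 1 true [1,0,3,2] [3,2,1,0],
    .leaf 0 false [0,1,2] [0,1],
    .leaf 0 false [0,1,2] [0,1],
    .col 1,
    .row 3,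
    .leaf 1 true [0,1,3,2] [2,3,1,0],
    .leaf 5 false [0,1,2,3] [0,1,2],
    .leaf 0 false [0,1,2] [0,1],
    .col 0,
    .row 2,
    .col 1,
    .row 3,
    .col 1,
    .leaf 7 true [0,1,3,4,2] [1,4,2,3,0],
    .leaf 0 true [0,1,2] [0,1],
    .leaf 1 false [2,0,1,3] [3,2,0,1],
    .leaf 1 true [2,0,3,1] [3,2,1,0],
    .col 1,
    .leaf 4 false [0,2,3,1,4] [2,3,0,1],
    .leaf 0 true [0,1,2] [0,1],
    .leaf 1 false [0,2,3,1] [2,3,1,0],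
    .leaf 0 true [0,1,2] [0,1],
    .col 1,
    .leaf 1 false [2,0,1,3] [3,2,0,1],
    .leaf 0 false [0,1,2] [0,1],
    .col 1,
    .row 3,
    .leaf 1 true [0,1,3,2] [1,3,2,0],
    .leaf 5 false [0,2,1,3] [0,1,2],
    .leaf 0 false [0,1,2] [0,1],
    .leaf 0 false [0,1,2] [0,2]] = some [] := by
  rfl

theorem tree_B : tree obs 30 sB [
    .row 1,
    .row 1,
    .col 0,
    .row 2,
    .col 0,
    .row 3,
    .col 2,
    .leaf 8 false [1,0,4,2,3] [3,4,2,1,0],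
    .leaf 1 false [2,0,1,3] [5,1,2,0],
    .leaf 1 false [3,0,1,2] [6,1,2,0],
    .col 3,
    .leaf 9 true [0,3,2,1,5,4] [4,2,3,1,0],
    .leaf 4 true [0,1,3,2,5] [3,1,0,2],
    .leaf 1 false [0,3,1,2] [1,3,2,0],
    .leaf 10 true [0,3,1,4,2] [2,3,1,0],
    .leaf 10 true [0,4,1,3,2] [2,3,1,0],
    .col 2,
    .leaf 8 false [1,0,4,2,3] [3,4,2,1,0],
    .leaf 1 false [2,0,1,3] [5,1,2,0],
    .leaf 1 false [3,0,1,2] [5,1,2,0],
    .col 0,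
    .row 3,
    .col 3,
    .leaf 9 true [0,3,2,1,5,4] [4,3,2,1,0],
    .leaf 1 false [0,2,1,3] [1,3,2,0],
    .leaf 4 true [0,1,3,2,5] [2,1,0,3],
    .leaf 0 false [0,2,3] [0,2],
    .leaf 10 true [0,3,1,4,2] [2,3,1,0],
    .leaf 10 true [0,4,1,3,2] [2,3,1,0],
    .col 0,
    .leaf 10 true [0,3,1,4,2] [3,2,1,0],
    .col 0,
    .leaf 10 true [0,4,1,3,2] [3,2,1,0],
    .col 0,
    .row 2,
    .leaf 3 true [0,1,4,2,3] [2,0,1],
    .col 3,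
    .leaf 1 false [0,1,3,2] [2,3,1,0],
    .leaf 5 true [0,1,2,3] [0,1,2],
    .col 2,
    .leaf 1 false [1,0,3,2] [3,2,1,0],
    .leaf 5 true [0,1,2,3] [0,1,2],
    .col 0,
    .row 2,
    .col 0,
    .leaf 2 true [0,1,2,3] [2,3,1,0],
    .col 0,
    .leaf 1 false [1,0,3,2] [3,0,1,2],
    .col 0,
    .leaf 2 true [0,1,2,3] [2,3,1,0],
    .row 1,
    .col 0,
    .row 2,
    .leaf 3 true [0,1,4,2,3] [2,0,1],
    .col 3,
    .leaf 1 false [0,1,3,2] [2,3,1,0],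
    .leaf 5 true [0,1,2,3] [0,1,2],
    .col 2,
    .leaf 1 false [1,0,3,2] [3,2,1,0],
    .leaf 5 true [0,1,2,3] [0,1,2],
    .leaf 0 true [0,1,2] [0,1],
    .row 1,
    .col 0,
    .row 2,
    .col 0,
    .leaf 2 true [0,1,2,3] [2,3,1,0],
    .col 0,
    .leaf 1 false [1,0,3,2] [3,0,1,2],
    .col 0,
    .leaf 2 true [0,1,2,3] [2,3,1,0],
    .leaf 0 true [0,1,2] [0,1]] = some [] := by
  rfl

theorem tree_C1 : tree obs 30 sC1 [
    .row 1,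
    .row 1,
    .row 2,
    .row 2,
    .row 3,
    .leaf 11 true [2,0,1,7,3,4,5,6] [3,1,2,0],
    .leaf 12 true [1,3,2,0,5,4] [2,3,1,0],
    .leaf 12 true [1,4,2,0,5,3] [2,3,1,0],
    .leaf 12 true [0,5,2,1,3,6] [1,3,2,0],
    .leaf 12 true [0,6,2,1,3,5] [1,3,2,0],
    .leaf 13 true [2,3,0,1,4,5] [3,1,2,0],
    .leaf 13 true [2,4,0,1,3,5] [3,1,2,0],
    .row 2,
    .leaf 13 true [2,3,0,1,4,5] [3,1,2,0],
    .leaf 6 true [0,1,3,4,2] [0,1,2],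
    .row 2,
    .leaf 13 true [2,4,0,1,3,5] [3,1,2,0],
    .leaf 6 true [0,1,3,4,2] [0,1,2]] = some [] := by
  rfl

theorem tree_C2 : tree obs 30 sC2 [
    .row 1,
    .row 2,
    .row 2,
    .col 3,
    .leaf 14 true [3,2,0,1,4] [3,2,1,0],
    .leaf 6 true [2,3,0,1,4] [2,0,1],
    .row 2,
    .leaf 6 true [2,3,0,1,4] [2,0,1]] = some [] := by
  rfl

theorem tree_C3 : tree obs 30 sC3 [
    .leaf 0 true [0,1,2] [0,1]] = some [] := by
  rfl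

end Pool.Agent.D3T
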