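import Pool.Agent.D3T.Rup

/-!
# D3T, module RupS: the checking of certificates is correct

Plan.  All definitions of `Rup.lean` reduce by `rfl` at constructors: for example
`Tr.get (.node l r) i k = ifz (Nat.land i 1) (l.get (Nat.div i 2) k) (r.get (Nat.div i 2) k)`, `prop t (f + 1) h T F = t.get (Nat.land h 8191) (fun p n => ..)`,
`run (h :: l) t i = lits ..`, `ifz 0 a b = a`, `ifz (n + 1) a b = b`, `ifb true a b = a`; state these as private lemmas (`rfl`) and rewrite with them.
* `get_sound`: induction on `t` (for all `i`); `nil`: the clause `(1, 1)` always holds (bit `0`).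
* `ins_all`: induction on `d` (for all `t`, `i`), cases on `t`.
* `prop_sound`: induction on `f`.  `get_sound` gives a clause `Hd v p n`.  `p ^^^ (p &&& F)` has the bits of `p` which are not in `F`
  (`Nat.testBit_xor`, `Nat.testBit_and`; `Nat.land a b` is `a &&& b`, `Nat.xor a b` is `a ^^^ b`, `Nat.lor a b` is `a ||| b` by `rfl`).  If both reduced masks are `0`: contradiction.  If the positive one is `0` and the negative one
  is `n' + 1` with `(n' + 1) &&& n' = 0`: at most one bit (private lemma `(m + 1) &&& m = 0 → (m+1).testBit i → (m+1).testBit j → i = j`: for instance by strong induction on `m` through `Nat.div2`/`testBit_succ`, or: let `k` be the lowest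
  bit; or from Mathlib `Nat.and_sub_one_testBit_log2`/`Nat.isPowerOfTwo` lemmas if there are any), so this variable is false; it is added to `F`.
  The positive case is the same with `T`.
* `lits_sound`: the continuation is called with some masks: `lits f h P N k = true → ∃ h' P' N', k h' P' N' = true`: induction on `f`.
* `run_sound`: induction on `l`: the step gives `rest P N` with `prop t 1000 rest N P = true`; if the clause `(P, N)` did not hold then `N` is true and `P` is false: `prop_sound`.  So it holds; if `P ||| N = 0` contradiction, else `ins_all`.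
-/

set_option autoImplicit false

namespace Pool.Agent.D3T

variable {v : ℕ → Prop}

private theorem rs_ifz {n : ℕ} {a b : Bool} (h : ifz n a b = true) :
    (n = 0 ∧ a = true) ∨ (n ≠ 0 ∧ b = true) := by
  cases n with
  | zero => exact Or.inl ⟨rfl, h⟩
  | succ n => exact Or.inr ⟨Nat.succ_ne_zero n, h⟩

private theorem rs_ifb {c a b : Bool} (h : ifb c a b = true) :
    (c = true ∧ a = true) ∨ (c = false ∧ b = true) := by
  cases c with
  | true => exact Or.inl ⟨rfl, h⟩
  | false => exact Or.inr ⟨rfl, h⟩

private theorem rs_get_node (l r : Tr) (i : ℕ) (k : ℕ → ℕ → Bool) :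
    Tr.get (.node l r) i k = ifz (Nat.land i 1) (l.get (Nat.div i 2) k) (r.get (Nat.div i 2) k) :=
  rfl

private theorem rs_ins_succ (d : ℕ) (t : Tr) (i p n : ℕ) :
    Tr.ins (d + 1) t i p n = ifz (Nat.land i 1) (.node (Tr.ins d t.lft (Nat.div i 2) p n) t.rgt)
      (.node t.lft (Tr.ins d t.rgt (Nat.div i 2) p n)) := rfl

private theorem rs_lft {t : Tr} (ht : t.All v) : t.lft.All v := by
  cases t with
  | nil => exact trivial
  | leaf p n => exact trivial
  | node l r => exact ht.1

private theorem rs_rgt {t : Tr} (ht : t.All v) : t.rgt.All v := by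
  cases t with
  | nil => exact trivial
  | leaf p n => exact trivial
  | node l r => exact ht.2

private theorem rs_bit {m i j : ℕ} (h : (m + 1) &&& m = 0) (hi : (m + 1).testBit i = true)
    (hj : (m + 1).testBit j = true) : i = j := by
  obtain ⟨k, hk⟩ := (Nat.and_sub_one_eq_zero_iff_isPowerOfTwo (Nat.succ_ne_zero m)).1 h
  have hk' : m + 1 = 2 ^ k := hk
  rw [hk'] at hi hj
  rw [Nat.testBit_two_pow] at hi hj
  simp only [decide_eq_true_eq] at hi hj
  omega

private theorem rs_red {p F i : ℕ} (h : (Nat.xor p (Nat.land p F)).testBit i = true) :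
    p.testBit i = true ∧ F.testBit i = false := by
  have h1 : (p ^^^ (p &&& F)).testBit i = true := h
  rw [Nat.testBit_xor, Nat.testBit_and] at h1
  cases hp : p.testBit i <;> cases hF : F.testBit i <;> simp_all

private theorem rs_red' {p F i : ℕ} (hp : p.testBit i = true) (hF : F.testBit i = false) :
    (Nat.xor p (Nat.land p F)).testBit i = true := by
  have h1 : (p ^^^ (p &&& F)).testBit i = true := by
    rw [Nat.testBit_xor, Nat.testBit_and, hp, hF]
    rfl
  exact h1

private theorem rs_prop_succ (t : Tr) (f h T F : ℕ) :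
    prop t (f + 1) h T F = t.get (Nat.land h 8191) fun p n =>
      Nat.rec (motive := fun _ => Bool)
        (Nat.rec (motive := fun _ => Bool) true
          (fun n' _ => ifz (Nat.land (Nat.succ n') n')
            (prop t f (Nat.shiftRight h 13) T (Nat.lor F (Nat.succ n'))) false)
          (Nat.xor n (Nat.land n T)))
        (fun p' _ => ifz (Nat.lor (Nat.land (Nat.succ p') p') (Nat.xor n (Nat.land n T)))
          (prop t f (Nat.shiftRight h 13) (Nat.lor T (Nat.succ p')) F) false)
        (Nat.xor p (Nat.land p F)) := rfl

private theorem rs_lor {a b : ℕ} (h : Nat.lor a b = 0) : a = 0 ∧ b = 0 := by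
  have h1 : a ||| b = 0 := h
  exact Nat.or_eq_zero_iff.1 h1

private theorem rs_lits (f : ℕ) : ∀ (h P N : ℕ) (k : ℕ → ℕ → ℕ → Bool), lits f h P N k = true →
    ∃ h' P' N', k h' P' N' = true := by
  induction f with
  | zero =>
    intro h P N k hk
    exact ⟨h, P, N, hk⟩
  | succ f ih =>
    intro h P N k hk
    have e : lits (f + 1) h P N k = ifz (Nat.land h 1)
      (lits f (Nat.shiftRight h 13)
        (Nat.lor P (Nat.shiftLeft 1 (Nat.land (Nat.shiftRight h 1) 4095))) N k)
      (lits f (Nat.shiftRight h 13) P
        (Nat.lor N (Nat.shiftLeft 1 (Nat.land (Nat.shiftRight h 1) 4095))) k) := rfl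
    rw [e] at hk
    rcases rs_ifz hk with ⟨_, h1⟩ | ⟨_, h1⟩
    · exact ih _ _ _ _ h1
    · exact ih _ _ _ _ h1

theorem get_sound {t : Tr} (ht : t.All v) (i : ℕ) (k : ℕ → ℕ → Bool) (h : t.get i k = true) :
    ∃ p n, Hd v p n ∧ k p n = true := by
  induction t generalizing i with
  | nil =>
    refine ⟨1, 1, ?_, h⟩
    by_cases h0 : v 0
    · exact Or.inl ⟨0, rfl, h0⟩
    · exact Or.inr ⟨0, rfl, h0⟩
  | leaf p n => exact ⟨p, n, ht, h⟩
  | node l r ihl ihr =>
    rw [rs_get_node] at h
    rcases rs_ifz h with ⟨_, h1⟩ | ⟨_, h1⟩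
    · exact ihl ht.1 _ h1
    · exact ihr ht.2 _ h1

theorem ins_all (d : ℕ) {t : Tr} (ht : t.All v) (i : ℕ) {p n : ℕ} (h : Hd v p n) :
    (Tr.ins d t i p n).All v := by
  induction d generalizing t i with
  | zero => exact h
  | succ d ih =>
    rw [rs_ins_succ]
    cases Nat.land i 1 with
    | zero => exact ⟨ih (rs_lft ht) _, rs_rgt ht⟩
    | succ m => exact ⟨rs_lft ht, ih (rs_rgt ht) _⟩

theorem prop_sound {t : Tr} (ht : t.All v) (f h T F : ℕ) (hT : ∀ i, T.testBit i = true → v i)
    (hF : ∀ i, F.testBit i = true → ¬ v i) (hp : prop t f h T F = true) : False := by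
  induction f generalizing h T F with
  | zero =>
    have e : prop t 0 h T F = false := rfl
    rw [e] at hp
    exact Bool.false_ne_true hp
  | succ f ih =>
    rw [rs_prop_succ] at hp
    obtain ⟨p, n, hHd, hk⟩ := get_sound ht _ _ hp
    have hpos : ∀ i, p.testBit i = true → v i →
        (Nat.xor p (Nat.land p F)).testBit i = true := by
      intro i h1 h2
      refine rs_red' h1 ?_
      cases h3 : F.testBit i with
      | false => rfl
      | true => exact absurd h2 (hF i h3)
    have hneg : ∀ i, n.testBit i = true → ¬ v i →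
        (Nat.xor n (Nat.land n T)).testBit i = true := by
      intro i h1 h2
      refine rs_red' h1 ?_
      cases h3 : T.testBit i with
      | false => rfl
      | true => exact absurd (hT i h3) h2
    generalize Nat.xor p (Nat.land p F) = p1 at hk hpos
    generalize Nat.xor n (Nat.land n T) = n1 at hk hneg
    cases p1 with
    | zero =>
      have hnp : ¬ ∃ i, p.testBit i = true ∧ v i := by
        rintro ⟨i, h1, h2⟩
        have h3 := hpos i h1 h2
        rw [Nat.zero_testBit] at h3
        exact Bool.false_ne_true h3
      cases n1 with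
      | zero =>
        rcases hHd with h1 | ⟨i, h1, h2⟩
        · exact hnp h1
        · have h3 := hneg i h1 h2
          rw [Nat.zero_testBit] at h3
          exact Bool.false_ne_true h3
      | succ n' =>
        rcases rs_ifz hk with ⟨h1, h2⟩ | ⟨_, h2⟩
        · refine ih _ T _ hT ?_ h2
          intro i hi
          have hi' : (F ||| (n' + 1)).testBit i = true := hi
          rw [Nat.testBit_or, Bool.or_eq_true] at hi'
          rcases hi' with h3 | h3
          · exact hF i h3
          · rcases hHd with h4 | ⟨j, h4, h5⟩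
            · exact absurd h4 hnp
            · have h6 := rs_bit h1 h3 (hneg j h4 h5)
              rw [h6]
              exact h5
        · exact Bool.false_ne_true h2
    | succ p' =>
      rcases rs_ifz hk with ⟨h1, h2⟩ | ⟨_, h2⟩
      · obtain ⟨h3, h4⟩ := rs_lor h1
        refine ih _ _ F ?_ hF h2
        intro i hi
        have hi' : (T ||| (p' + 1)).testBit i = true := hi
        rw [Nat.testBit_or, Bool.or_eq_true] at hi'
        rcases hi' with h5 | h5
        · exact hT i h5
        · rcases hHd with ⟨j, h6, h7⟩ | ⟨j, h6, h7⟩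
          · have h8 := rs_bit h3 h5 (hpos j h6 h7)
            rw [h8]
            exact h7
          · have h8 := hneg j h6 h7
            rw [h4, Nat.zero_testBit] at h8
            exact absurd h8 Bool.false_ne_true
      · exact Bool.false_ne_true h2

theorem run_sound {t : Tr} (ht : t.All v) (l : List ℕ) (i : ℕ) (h : run l t i = true) : False := by
  induction l generalizing t i with
  | nil =>
    have e : run [] t i = false := rfl
    rw [e] at h
    exact Bool.false_ne_true h
  | cons a l ih =>
    have e : run (a :: l) t i = lits (Nat.land a 8191) (Nat.shiftRight a 13) 0 0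
        fun rest P N => ifb (prop t 1000 rest N P)
          (ifz (Nat.lor P N) true (run l (Tr.ins 13 t i P N) (Nat.succ i))) false := rfl
    rw [e] at h
    obtain ⟨rest, P, N, hk⟩ := rs_lits _ _ _ _ _ h
    rcases rs_ifb hk with ⟨h1, h2⟩ | ⟨_, h2⟩
    · have hHd : Hd v P N := by
        by_contra hn
        refine prop_sound ht 1000 rest N P ?_ ?_ h1
        · intro j hj
          by_contra hv
          exact hn (Or.inr ⟨j, hj, hv⟩)
        · intro j hj hv
          exact hn (Or.inl ⟨j, hj, hv⟩)
      rcases rs_ifz h2 with ⟨h3, _⟩ | ⟨_, h3⟩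
      · obtain ⟨h4, h5⟩ := rs_lor h3
        rw [h4, h5] at hHd
        rcases hHd with ⟨j, h6, _⟩ | ⟨j, h6, _⟩
        · rw [Nat.zero_testBit] at h6
          exact Bool.false_ne_true h6
        · rw [Nat.zero_testBit] at h6
          exact Bool.false_ne_true h6
      · exact ih (ins_all 13 ht i hHd) _ h3
    · exact Bool.false_ne_true h2

theorem insT_sound {t : Tr} (ht : t.All v) (l : List (ℕ × ℕ)) (hl : ∀ c ∈ l, Hd v c.1 c.2) (i : ℕ)
    (k : Tr → ℕ → Bool) (h : insT l t i k = true) : ∃ t' i', t'.All v ∧ k t' i' = true := by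
  induction l generalizing t i with
  | nil => exact ⟨t, i, ht, h⟩
  | cons c l ih =>
    have e : insT (c :: l) t i k = insT l (Tr.ins 13 t i c.1 c.2) (Nat.succ i) k := rfl
    rw [e] at h
    exact ih (ins_all 13 ht i (hl c (List.mem_cons_self ..)))
      (fun c' hc' => hl c' (List.mem_cons_of_mem _ hc')) _ h

end Pool.Agent.D3T
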