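import Pool.Agent.D3T.SemA
import Pool.Agent.D3T.RupS

/-!
# D3T, module SemB: the axioms hold

Every clause of `axm` holds for the values `sem` of the variables; so the insertion of a list of axioms keeps the
property that all clauses of the tree hold.
-/

set_option autoImplicit false

namespace Pool.Agent.D3T

open Pool.Agent.Helper33.DefNum

private theorem smb_hd {v : ℕ → Prop} {P N : ℕ}
    (h : (∀ i, P.testBit i = true → ¬ v i) → (∀ i, N.testBit i = true → v i) → False) : Hd v P N := by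
  by_contra hn
  apply h
  · intro i hi hv
    exact hn (Or.inl ⟨i, hi, hv⟩)
  · intro i hi
    by_contra hv
    exact hn (Or.inr ⟨i, hi, hv⟩)

section

variable {R C L : Type} {b : ℕ × ℕ} {F : R → C → L} {r : ℕ → R} {c : ℕ → C} {U : R → C → Prop}
  {E : List (ℕ × ℕ)} {K : List ℕ}

private theorem smb_lt {x : ℕ} (hx : x < b.1 * b.2) : x / b.2 < b.1 ∧ x % b.2 < b.2 := by
  have h0 : 0 < b.2 := by
    rcases Nat.eq_zero_or_pos b.2 with h | h
    · rw [h, Nat.mul_zero] at hx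
      exact absurd hx (Nat.not_lt_zero x)
    · exact h
  exact ⟨(Nat.div_lt_iff_lt_mul h0).2 hx, Nat.mod_lt x h0⟩

private theorem smb_k10 (hT : T3 U F) (hs : Emb b.1 b.2 E U r c)
    (hK : ∀ x ∈ K, x < b.1 * b.2 ∧ U (r (x / b.2)) (c (x % b.2))) {x y z w : ℕ}
    (hx : x < b.1 * b.2) (hy : y < b.1 * b.2) (hz : z < b.1 * b.2) (hw : w < b.1 * b.2)
    (h : x ∈ K) : Hd (sem b F r c) (Nat.lor (bE b y z) (Nat.lor (bE b y w) (Nat.lor (bE b z w)
          (Nat.lor (bE b x y) (Nat.lor (bE b x z) (bE b x w))))))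
          (Nat.lor (bt (vM b x y)) (Nat.lor (bt (vM b x z)) (bt (vM b x w)))) := by
  apply smb_hd
  intro hP hN
  have hU := (hK x h).2
  have hne : ∀ p q, p < b.1 * b.2 → q < b.1 * b.2 →
      (∀ i, (bE b p q).testBit i = true → ¬ sem b F r c i) → colr b F r c p ≠ colr b F r c q := by
    intro p q hp hq hno heq
    obtain ⟨i, hi, hi'⟩ := bE_bit hT hs hp hq heq
    exact hno i hi hi'
  have n1 := hne y z hy hz (fun i hi => hP i ((lor_bit _ _ _).2 (Or.inl hi)))
  have n2 := hne y w hy hw (fun i hi => hP i ((lor_bit _ _ _).2 (Or.inr ((lor_bit _ _ _).2 (Or.inl hi)))))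
  have n3 := hne z w hz hw (fun i hi => hP i ((lor_bit _ _ _).2 (Or.inr ((lor_bit _ _ _).2
    (Or.inr ((lor_bit _ _ _).2 (Or.inl hi)))))))
  have n4 := hne x y hx hy (fun i hi => hP i ((lor_bit _ _ _).2 (Or.inr ((lor_bit _ _ _).2
    (Or.inr ((lor_bit _ _ _).2 (Or.inr ((lor_bit _ _ _).2 (Or.inl hi)))))))))
  have n5 := hne x z hx hz (fun i hi => hP i ((lor_bit _ _ _).2 (Or.inr ((lor_bit _ _ _).2
    (Or.inr ((lor_bit _ _ _).2 (Or.inr ((lor_bit _ _ _).2 (Or.inr ((lor_bit _ _ _).2 (Or.inl hi)))))))))))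
  have n6 := hne x w hx hw (fun i hi => hP i ((lor_bit _ _ _).2 (Or.inr ((lor_bit _ _ _).2
    (Or.inr ((lor_bit _ _ _).2 (Or.inr ((lor_bit _ _ _).2 (Or.inr ((lor_bit _ _ _).2 (Or.inr hi)))))))))))
  have m1 := (sem_M hx hy).1 (hN (vM b x y) ((lor_bit _ _ _).2 (Or.inl ((bt_bit _ _).2 rfl))))
  have m2 := (sem_M hx hz).1 (hN (vM b x z) ((lor_bit _ _ _).2 (Or.inr ((lor_bit _ _ _).2
    (Or.inl ((bt_bit _ _).2 rfl))))))
  have m3 := (sem_M hx hw).1 (hN (vM b x w) ((lor_bit _ _ _).2 (Or.inr ((lor_bit _ _ _).2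
    (Or.inr ((bt_bit _ _).2 rfl))))))
  rcases hT.three _ _ hU _ _ _ m1.1 m1.2 m2.1 m2.2 m3.1 m3.2 (fun e => n4 e.symm) (fun e => n5 e.symm)
    (fun e => n6 e.symm) with e | e | e
  · exact n1 e
  · exact n2 e
  · exact n3 e

theorem axm_sound (hT : T3 U F) (hs : Emb b.1 b.2 E U r c)
    (hK : ∀ x ∈ K, x < b.1 * b.2 ∧ U (r (x / b.2)) (c (x % b.2))) (n : ℕ) (k : ℕ → ℕ → Bool)
    (h : axm b K n k = true) : ∃ P N, Hd (sem b F r c) P N ∧ k P N = true := by
  unfold axm at h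
  dsimp only at h
  generalize n / 16 % 64 = x at h
  generalize n / 16 / 64 % 64 = y at h
  generalize n / 16 / 4096 % 64 = z at h
  generalize n / 16 / 262144 % 64 = w at h
  generalize n % 16 = m at h
  have bb : ∀ p : ℕ, (bt p).testBit p = true := fun p => (bt_bit p p).2 rfl
  cases hb : (Nat.blt x (b.1 * b.2) && Nat.blt y (b.1 * b.2) && Nat.blt z (b.1 * b.2) &&
    Nat.blt w (b.1 * b.2)) with
  | false =>
    rw [hb] at h
    exact absurd h Bool.false_ne_true
  | true =>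
    rw [hb] at h
    rw [Bool.and_eq_true, Bool.and_eq_true, Bool.and_eq_true] at hb
    obtain ⟨⟨⟨hx, hy⟩, hz⟩, hw⟩ := hb
    replace hx : x < b.1 * b.2 := Nat.blt_eq.mp hx
    replace hy : y < b.1 * b.2 := Nat.blt_eq.mp hy
    replace hz : z < b.1 * b.2 := Nat.blt_eq.mp hz
    replace hw : w < b.1 * b.2 := Nat.blt_eq.mp hw
    obtain ⟨hx1, hx2⟩ := smb_lt hx
    dsimp only at h
    split at h
    · exact ⟨_, _, Or.inl ⟨_, bb _, (sem_R hx1 hx).2 ⟨c (x % b.2), rfl⟩⟩, h⟩
    · exact ⟨_, _, Or.inl ⟨_, bb _, (sem_C hx2 hx).2 ⟨r (x / b.2), rfl⟩⟩, h⟩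
    · cases hc : same b x y with
      | false =>
        rw [hc] at h
        exact absurd h Bool.false_ne_true
      | true =>
        rw [hc] at h
        exact ⟨_, _, Or.inr ⟨_, bb _, fun e => same_ne hT hs hx hy hc ((sem_E hx hy).1 e)⟩, h⟩
    · refine ⟨_, _, smb_hd (fun hP hN => ?_), h⟩
      have e1 := (sem_E hx hy).1 (hN _ ((lor_bit _ _ _).2 (Or.inl (bb _))))
      have e2 := (sem_E hy hz).1 (hN _ ((lor_bit _ _ _).2 (Or.inr (bb _))))
      exact hP _ (bb _) ((sem_E hx hz).2 (e1.trans e2))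
    · cases hc : Nat.blt x b.1 with
      | false =>
        rw [hc] at h
        exact absurd h Bool.false_ne_true
      | true =>
        rw [hc] at h
        have hc' : x < b.1 := Nat.blt_eq.mp hc
        refine ⟨_, _, smb_hd (fun hP hN => ?_), h⟩
        have e1 := (sem_E hy hz).1 (hN _ ((lor_bit _ _ _).2 (Or.inl (bb _))))
        have e2 := (sem_R hc' hy).1 (hN _ ((lor_bit _ _ _).2 (Or.inr (bb _))))
        rw [e1] at e2
        exact hP _ (bb _) ((sem_R hc' hz).2 e2)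
    · cases hc : Nat.blt x b.2 with
      | false =>
        rw [hc] at h
        exact absurd h Bool.false_ne_true
      | true =>
        rw [hc] at h
        have hc' : x < b.2 := Nat.blt_eq.mp hc
        refine ⟨_, _, smb_hd (fun hP hN => ?_), h⟩
        have e1 := (sem_E hy hz).1 (hN _ ((lor_bit _ _ _).2 (Or.inl (bb _))))
        have e2 := (sem_C hc' hy).1 (hN _ ((lor_bit _ _ _).2 (Or.inr (bb _))))
        rw [e1] at e2
        exact hP _ (bb _) ((sem_C hc' hz).2 e2)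
    · cases hc : K.elem x with
      | false =>
        rw [hc] at h
        exact absurd h Bool.false_ne_true
      | true =>
        rw [hc] at h
        have hc' : x ∈ K := List.elem_iff.1 hc
        refine ⟨_, _, smb_hd (fun hP hN => ?_), h⟩
        rcases hT.cover _ _ (hK x hc').2 (colr b F r c y) with e | e
        · exact hP _ ((lor_bit _ _ _).2 (Or.inl (bb _))) ((sem_R hx1 hy).2 e)
        · exact hP _ ((lor_bit _ _ _).2 (Or.inr (bb _))) ((sem_C hx2 hy).2 e)
    · refine ⟨_, _, smb_hd (fun hP hN => ?_), h⟩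
      exact hP _ (bb _) ((sem_R hx1 hy).2 ((sem_M hx hy).1 (hN _ (bb _))).1)
    · refine ⟨_, _, smb_hd (fun hP hN => ?_), h⟩
      exact hP _ (bb _) ((sem_C hx2 hy).2 ((sem_M hx hy).1 (hN _ (bb _))).2)
    · refine ⟨_, _, smb_hd (fun hP hN => ?_), h⟩
      have e1 := (sem_R hx1 hy).1 (hN _ ((lor_bit _ _ _).2 (Or.inl (bb _))))
      have e2 := (sem_C hx2 hy).1 (hN _ ((lor_bit _ _ _).2 (Or.inr (bb _))))
      exact hP _ (bb _) ((sem_M hx hy).2 ⟨e1, e2⟩)
    · cases hc : K.elem x with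
      | false =>
        rw [hc] at h
        exact absurd h Bool.false_ne_true
      | true =>
        rw [hc] at h
        exact ⟨_, _, smb_k10 hT hs hK hx hy hz hw (List.elem_iff.1 hc), h⟩
    · exact absurd h Bool.false_ne_true

theorem axs_sound (hT : T3 U F) (hs : Emb b.1 b.2 E U r c)
    (hK : ∀ x ∈ K, x < b.1 * b.2 ∧ U (r (x / b.2)) (c (x % b.2))) (l : List ℕ) (t : Tr)
    (ht : t.All (sem b F r c)) (i : ℕ) (k : Tr → ℕ → Bool) (h : axs b K l t i k = true) :
    ∃ t' i', t'.All (sem b F r c) ∧ k t' i' = true := by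
  induction l generalizing t i with
  | nil => exact ⟨t, i, ht, h⟩
  | cons n l ih =>
    have h1 : axm b K n (fun P N => axs b K l (Tr.ins 13 t i P N) (i + 1) k) = true := h
    obtain ⟨P, N, h2, h3⟩ := axm_sound hT hs hK n _ h1
    exact ih _ (ins_all 13 ht i h2) (i + 1) h3

end

end Pool.Agent.D3T
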