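import Pool.Agent.D3T.TrdB
import Pool.Agent.D3T.SemB

/-!
# D3T, module Chk: bad graphs by certificates
-/

set_option autoImplicit false

noncomputable section

namespace Pool.Agent.D3T

open Pool.Agent.Helper33.DefNum

/-- `E`: edges, `K`: the same as cells, `A`: axioms, `T`: trades, `S`: steps -/
def chk (b : ℕ × ℕ) (E : List (ℕ × ℕ)) (K A : List ℕ) (T : List (List (ℕ × ℕ × ℕ)))
    (S : List ℕ) : Bool :=
  K.all (fun x => Nat.blt x (b.1 * b.2) && E.elem (x / b.2, x % b.2)) && T.all (okW b K) &&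
    axs b K A .nil 1 fun t i => insT (T.map fun W => (tP b W, tN b W)) t i fun t i => run S t i

theorem bad_of_chk (b : ℕ × ℕ) (E : List (ℕ × ℕ)) (K A : List ℕ) (T : List (List (ℕ × ℕ × ℕ)))
    (S : List ℕ) (h : chk b E K A T S = true) : Bad b.1 b.2 E := by
  intro R C L U F hT r c hs
  rw [chk, Bool.and_eq_true, Bool.and_eq_true] at h
  obtain ⟨⟨h1, h2⟩, h3⟩ := h
  have hK : ∀ x ∈ K, x < b.1 * b.2 ∧ U (r (x / b.2)) (c (x % b.2)) := by
    intro x hx
    have := List.all_eq_true.1 h1 x hx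
    rw [Bool.and_eq_true] at this
    obtain ⟨a1, a2⟩ := this
    refine ⟨by simpa [Nat.blt] using a1, ?_⟩
    exact hs.mem (x / b.2, x % b.2) (by simpa using a2)
  obtain ⟨t, i, ht, h4⟩ := axs_sound hT hs hK A .nil trivial 1 _ h3
  obtain ⟨t', i', ht', h5⟩ := insT_sound ht _ (by
    intro q hq
    obtain ⟨W, hW, rfl⟩ := List.mem_map.1 hq
    exact trd_sound hT hs hK W (List.all_eq_true.1 h2 W hW)) i _ h4
  exact run_sound ht' S i' h5

end Pool.Agent.D3T
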