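import Pool.Agent.D3T.Disch

/-!
# D3T, module Deg: the lines of a minimal counterexample

A row with exactly one cell `x` of `U`: the set `U.erase x` has one cell less and at least one line
less (the row does not meet it; `lns` is a number of lines), so
`6 * (U.erase x).card = 6 * U.card - 6 > 7 * lns U - 6 ≥ 7 * lns (U.erase x)`, in contradiction to
`hmin`.  A row with four cells: the star with four edges is `Bad` (hypothesis `hS`; the three columns
`c 0 .. c 3` are those of four different cells of the row; `r` is constant).  Columns: transposed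
(`tps`, module Disch).
-/

set_option autoImplicit false

namespace Pool.Agent.D3T

theorem tps_tps {R C : Type} [DecidableEq R] [DecidableEq C] (U : Finset (R × C)) :
    tps (tps U) = U := by
  ext ⟨i, j⟩
  rw [mem_tps, mem_tps]

/-- the hypotheses are symmetric -/
theorem t3_tps {R C K : Type} [DecidableEq R] [DecidableEq C] (U : Finset (R × C))
    (F : R → C → K) (hT : T3 (fun i j => (i, j) ∈ U) F) :
    T3 (fun j i => (j, i) ∈ tps U) (fun j i => F i j) :=
  hT.transpose.mono fun j i h => (mem_tps U i j).1 h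

theorem min_tps {R C : Type} [DecidableEq R] [DecidableEq C] (U : Finset (R × C))
    (hmin : ∀ U' ⊂ U, 6 * U'.card ≤ 7 * lns U') :
    ∀ U' ⊂ tps U, 6 * U'.card ≤ 7 * lns U' := by
  intro U' hU'
  obtain ⟨h1, h2⟩ := Finset.ssubset_iff_subset_ne.1 hU'
  have h3 : tps U' ⊂ U := by
    refine Finset.ssubset_iff_subset_ne.2 ⟨?_, ?_⟩
    · rintro ⟨i, j⟩ hx
      exact (mem_tps U i j).1 (h1 ((mem_tps U' j i).1 hx))
    · intro h4
      refine h2 ?_
      rw [← h4, tps_tps]
  have h5 := hmin _ h3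
  rw [card_tps, lns_tps] at h5
  exact h5

private theorem Deg_one {R C : Type} [DecidableEq R] [DecidableEq C] (U : Finset (R × C))
    (hmin : ∀ U' ⊂ U, 6 * U'.card ≤ 7 * lns U') (hbad : 7 * lns U < 6 * U.card) (i : R)
    (h : dr U i = 1) : False := by
  obtain ⟨x, hx⟩ := Finset.card_eq_one.1 h
  have hxm : x ∈ U.filter fun x => x.1 = i := by
    rw [hx]
    exact Finset.mem_singleton_self x
  obtain ⟨hxU, hxi⟩ := Finset.mem_filter.1 hxm
  have h1 := hmin _ (Finset.erase_ssubset hxU)
  rw [Finset.card_erase_of_mem hxU] at h1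
  have h2 : (U.erase x).image Prod.fst ⊆ (U.image Prod.fst).erase i := by
    intro k hk
    obtain ⟨y, hy, hyk⟩ := Finset.mem_image.1 hk
    obtain ⟨hyx, hyU⟩ := Finset.mem_erase.1 hy
    refine Finset.mem_erase.2 ⟨?_, Finset.mem_image.2 ⟨y, hyU, hyk⟩⟩
    intro hki
    have h3 : y ∈ U.filter fun x => x.1 = i := Finset.mem_filter.2 ⟨hyU, hyk.trans hki⟩
    rw [hx] at h3
    exact hyx (Finset.mem_singleton.1 h3)
  have h3 := Finset.card_le_card h2
  have hi : i ∈ U.image Prod.fst := Finset.mem_image.2 ⟨x, hxU, hxi⟩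
  rw [Finset.card_erase_of_mem hi] at h3
  have h4 : ((U.erase x).image Prod.snd).card ≤ (U.image Prod.snd).card :=
    Finset.card_le_card (Finset.image_subset_image (Finset.erase_subset x U))
  have h5 : 0 < (U.image Prod.fst).card := Finset.card_pos.2 ⟨i, hi⟩
  unfold lns at h1 hbad
  omega

private theorem Deg_four {R C K : Type} [DecidableEq R] [DecidableEq C] (U : Finset (R × C))
    (F : R → C → K) (hS : Bad 1 4 [(0, 0), (0, 1), (0, 2), (0, 3)])
    (hT : T3 (fun i j => (i, j) ∈ U) F) (i : R) (h : 4 ≤ dr U i) : False := by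
  obtain ⟨S, hSs, hSc⟩ := Finset.exists_subset_card_eq h
  have e : S ≃ Fin 4 := S.equivFinOfCardEq hSc
  have hm : ∀ k : Fin 4, (i, (e.symm k).1.2) ∈ U := by
    intro k
    obtain ⟨h1, h2⟩ := Finset.mem_filter.1 (hSs (e.symm k).2)
    rw [← h2]
    exact h1
  have hinj : ∀ k l : Fin 4, (e.symm k).1.2 = (e.symm l).1.2 → k = l := by
    intro k l hkl
    have h1 := (Finset.mem_filter.1 (hSs (e.symm k).2)).2
    have h2 := (Finset.mem_filter.1 (hSs (e.symm l).2)).2
    have h3 : (e.symm k).1 = (e.symm l).1 := Prod.ext (h1.trans h2.symm) hkl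
    exact e.symm.injective (Subtype.ext h3)
  refine hS R C K _ F hT (fun _ => i) (fun k => (e.symm (Fin.ofNat 4 k)).1.2) ⟨?_, ?_, ?_⟩
  · intro a ha b hb _
    omega
  · intro a ha b hb hab
    have h1 := congrArg Fin.val (hinj _ _ hab)
    have h2 : a % 4 = b % 4 := h1
    omega
  · intro x _
    exact hm _

theorem row_deg {R C K : Type} [DecidableEq R] [DecidableEq C] (U : Finset (R × C))
    (F : R → C → K) (hS : Bad 1 4 [(0, 0), (0, 1), (0, 2), (0, 3)])
    (hT : T3 (fun i j => (i, j) ∈ U) F)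
    (hmin : ∀ U' ⊂ U, 6 * U'.card ≤ 7 * lns U') (hbad : 7 * lns U < 6 * U.card) (i : R) :
    dr U i = 0 ∨ dr U i = 2 ∨ dr U i = 3 := by
  by_cases h1 : dr U i = 1
  · exact (Deg_one U hmin hbad i h1).elim
  · by_cases h4 : 4 ≤ dr U i
    · exact (Deg_four U F hS hT i h4).elim
    · omega

theorem col_deg {R C K : Type} [DecidableEq R] [DecidableEq C] (U : Finset (R × C))
    (F : R → C → K) (hS : Bad 1 4 [(0, 0), (0, 1), (0, 2), (0, 3)])
    (hT : T3 (fun i j => (i, j) ∈ U) F)
    (hmin : ∀ U' ⊂ U, 6 * U'.card ≤ 7 * lns U') (hbad : 7 * lns U < 6 * U.card) (j : C) :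
    dc U j = 0 ∨ dc U j = 2 ∨ dc U j = 3 := by
  have h := row_deg (tps U) (fun j i => F i j) hS (t3_tps U F hT) (min_tps U hmin)
    (by rw [lns_tps, card_tps]; exact hbad) j
  rw [dr_tps] at h
  exact h

end Pool.Agent.D3T
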