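import Pool.Agent.D3T.Defs

/-!
# D3T, module Disch: discharging

If no row with three cells has a pattern, then the rows with three cells get charge at least `4`
from the columns with two cells (`row_disch`); by transposition and counting `6 |U| ≤ 7 lns U`.
-/

set_option autoImplicit false

namespace Pool.Agent.D3T

section

variable {R C : Type} [DecidableEq R] [DecidableEq C]

theorem dr_tps (U : Finset (R × C)) (j : C) : dr (tps U) j = dc U j := by
  unfold dr dc tps
  rw [Finset.filter_map, Finset.card_map]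
  rfl

theorem dc_tps (U : Finset (R × C)) (i : R) : dc (tps U) i = dr U i := by
  unfold dr dc tps
  rw [Finset.filter_map, Finset.card_map]
  rfl

private theorem disch_fst (U : Finset (R × C)) : (tps U).image Prod.fst = U.image Prod.snd := by
  unfold tps
  rw [Finset.map_eq_image, Finset.image_image]
  rfl

private theorem disch_snd (U : Finset (R × C)) : (tps U).image Prod.snd = U.image Prod.fst := by
  unfold tps
  rw [Finset.map_eq_image, Finset.image_image]
  rfl

theorem lns_tps (U : Finset (R × C)) : lns (tps U) = lns U := by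
  unfold lns
  rw [disch_fst, disch_snd, Nat.add_comm]

/-- number of rows with `d` cells -/
def nrow (U : Finset (R × C)) (d : ℕ) : ℕ := ((U.image Prod.fst).filter fun i => dr U i = d).card

/-- number of columns with `d` cells -/
def ncol (U : Finset (R × C)) (d : ℕ) : ℕ := ((U.image Prod.snd).filter fun j => dc U j = d).card

theorem nrow_tps (U : Finset (R × C)) (d : ℕ) : nrow (tps U) d = ncol U d := by
  unfold nrow ncol
  rw [disch_fst]
  congr 1
  refine Finset.filter_congr fun j _ => ?_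
  rw [dr_tps]

theorem ncol_tps (U : Finset (R × C)) (d : ℕ) : ncol (tps U) d = nrow U d := by
  unfold nrow ncol
  rw [disch_snd]
  congr 1
  refine Finset.filter_congr fun j _ => ?_
  rw [dc_tps]

theorem card_rows (U : Finset (R × C)) (hdr : ∀ i, dr U i = 0 ∨ dr U i = 2 ∨ dr U i = 3) :
    U.card = 2 * nrow U 2 + 3 * nrow U 3 ∧ (U.image Prod.fst).card = nrow U 2 + nrow U 3 := by
  have h0 : ∀ i ∈ U.image Prod.fst, dr U i = 2 ∨ dr U i = 3 := by
    intro i hi
    rcases hdr i with h | h | h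
    · exfalso
      obtain ⟨x, hx, hxi⟩ := Finset.mem_image.1 hi
      have h1 := Finset.card_eq_zero.1 h
      have h2 : x ∈ U.filter fun x => x.1 = i := Finset.mem_filter.2 ⟨hx, hxi⟩
      rw [h1] at h2
      exact Finset.notMem_empty _ h2
    · exact Or.inl h
    · exact Or.inr h
  have h2 : (∑ i ∈ U.image Prod.fst, if dr U i = 2 then 2 else 0) = 2 * nrow U 2 := by
    rw [← Finset.sum_filter, Finset.sum_const, smul_eq_mul, Nat.mul_comm]
    rfl
  have h3 : (∑ i ∈ U.image Prod.fst, if dr U i = 3 then 3 else 0) = 3 * nrow U 3 := by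
    rw [← Finset.sum_filter, Finset.sum_const, smul_eq_mul, Nat.mul_comm]
    rfl
  have h2' : (∑ i ∈ U.image Prod.fst, if dr U i = 2 then 1 else 0) = nrow U 2 := by
    rw [← Finset.sum_filter, Finset.sum_const, smul_eq_mul, Nat.mul_one]
    rfl
  have h3' : (∑ i ∈ U.image Prod.fst, if dr U i = 3 then 1 else 0) = nrow U 3 := by
    rw [← Finset.sum_filter, Finset.sum_const, smul_eq_mul, Nat.mul_one]
    rfl
  constructor
  · rw [Finset.card_eq_sum_card_image Prod.fst U, ← h2, ← h3, ← Finset.sum_add_distrib]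
    refine Finset.sum_congr rfl fun i hi => ?_
    have h5 : (U.filter fun x => x.1 = i).card = dr U i := rfl
    rw [h5]
    rcases h0 i hi with h | h
    · rw [h]
      rfl
    · rw [h]
      rfl
  · rw [Finset.card_eq_sum_ones, ← h2', ← h3', ← Finset.sum_add_distrib]
    refine Finset.sum_congr rfl fun i hi => ?_
    rcases h0 i hi with h | h
    · rw [h]
      rfl
    · rw [h]
      rfl

/-- number of the cells of the column `j` in rows with three cells -/
private def disch_t (U : Finset (R × C)) (j : C) : ℕ :=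
  (U.filter fun x => x.2 = j ∧ dr U x.1 = 3).card

/-- charge of a cell -/
private def disch_v (U : Finset (R × C)) (x : R × C) : ℕ :=
  if dc U x.2 = 2 then 2 / disch_t U x.2 else 0

private theorem disch_cell (U : Finset (R × C)) (hdc : ∀ j, dc U j = 0 ∨ dc U j = 2 ∨ dc U j = 3)
    (x : R × C) (hx : x ∈ U) (hr : dr U x.1 = 3) :
    (disch_v U x = 0 ∧ dc U x.2 = 3) ∨ (dc U x.2 = 2 ∧ disch_v U x = 2) ∨
      (dc U x.2 = 2 ∧ disch_v U x = 1 ∧ ∃ i', i' ≠ x.1 ∧ (i', x.2) ∈ U ∧ dr U i' = 3) := by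
  rcases hdc x.2 with h | h | h
  · exfalso
    have h1 := Finset.card_eq_zero.1 h
    have h2 : x ∈ U.filter fun y => y.2 = x.2 := Finset.mem_filter.2 ⟨hx, rfl⟩
    rw [h1] at h2
    exact Finset.notMem_empty _ h2
  · right
    have hx' : x ∈ U.filter fun y => y.2 = x.2 ∧ dr U y.1 = 3 := Finset.mem_filter.2 ⟨hx, rfl, hr⟩
    have h1 : 1 ≤ disch_t U x.2 := Finset.card_pos.2 ⟨x, hx'⟩
    have h2 : disch_t U x.2 ≤ 2 := by
      rw [← h]
      refine Finset.card_le_card ?_
      intro y hy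
      obtain ⟨a, b⟩ := Finset.mem_filter.1 hy
      exact Finset.mem_filter.2 ⟨a, b.1⟩
    have h3 : disch_v U x = 2 / disch_t U x.2 := if_pos h
    by_cases h4 : disch_t U x.2 = 1
    · left
      refine ⟨h, ?_⟩
      rw [h3, h4]
    · right
      have h5 : disch_t U x.2 = 2 := by omega
      refine ⟨h, by rw [h3, h5], ?_⟩
      obtain ⟨y, hy, hne⟩ := Finset.exists_mem_ne (show 1 < (U.filter fun y => y.2 = x.2 ∧ dr U y.1 = 3).card
        from by
          have : (U.filter fun y => y.2 = x.2 ∧ dr U y.1 = 3).card = 2 := h5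
          omega) x
      obtain ⟨a, b, c⟩ := Finset.mem_filter.1 hy
      refine ⟨y.1, ?_, ?_, c⟩
      · intro h6
        exact hne (Prod.ext h6 b)
      · rw [← b]
        exact a
  · left
    refine ⟨?_, h⟩
    have h1 : dc U x.2 ≠ 2 := by omega
    exact if_neg h1

private theorem disch_row (U : Finset (R × C)) (hdc : ∀ j, dc U j = 0 ∨ dc U j = 2 ∨ dc U j = 3)
    (i : R) (hi : dr U i = 3) (h : ¬ PatA U i ∧ ¬ PatB U i ∧ ¬ PatC U i) :
    4 ≤ ∑ x ∈ U.filter (fun x => x.1 = i), disch_v U x := by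
  obtain ⟨hA, hB, hC⟩ := h
  obtain ⟨x, y, z, hxy, hxz, hyz, hs⟩ := Finset.card_eq_three.1 hi
  have hsum : ∑ x ∈ U.filter (fun x => x.1 = i), disch_v U x =
      disch_v U x + (disch_v U y + disch_v U z) := by
    rw [hs, Finset.sum_insert, Finset.sum_insert, Finset.sum_singleton]
    · rw [Finset.mem_singleton]
      exact hyz
    · rw [Finset.mem_insert, Finset.mem_singleton]
      rintro (h | h)
      · exact hxy h
      · exact hxz h
  have hmem : ∀ w, (w = x ∨ w = y ∨ w = z) → w ∈ U ∧ w.1 = i := by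
    intro w hw
    have h1 : w ∈ U.filter (fun x => x.1 = i) := by
      rw [hs, Finset.mem_insert, Finset.mem_insert, Finset.mem_singleton]
      exact hw
    exact Finset.mem_filter.1 h1
  have hin : ∀ j, (i, j) ∈ U → j = x.2 ∨ j = y.2 ∨ j = z.2 := by
    intro j hj
    have h1 : (i, j) ∈ U.filter (fun x => x.1 = i) := Finset.mem_filter.2 ⟨hj, rfl⟩
    rw [hs, Finset.mem_insert, Finset.mem_insert, Finset.mem_singleton] at h1
    rcases h1 with h | h | h
    · left
      rw [← h]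
    · right
      left
      rw [← h]
    · right
      right
      rw [← h]
  obtain ⟨hxU, hxi⟩ := hmem x (Or.inl rfl)
  obtain ⟨hyU, hyi⟩ := hmem y (Or.inr (Or.inl rfl))
  obtain ⟨hzU, hzi⟩ := hmem z (Or.inr (Or.inr rfl))
  have hx2 : (i, x.2) ∈ U := by
    rw [← hxi]
    exact hxU
  have hy2 : (i, y.2) ∈ U := by
    rw [← hyi]
    exact hyU
  have hz2 : (i, z.2) ∈ U := by
    rw [← hzi]
    exact hzU
  have nxy : x.2 ≠ y.2 := fun h => hxy (Prod.ext (hxi.trans hyi.symm) h)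
  have nxz : x.2 ≠ z.2 := fun h => hxz (Prod.ext (hxi.trans hzi.symm) h)
  have nyz : y.2 ≠ z.2 := fun h => hyz (Prod.ext (hyi.trans hzi.symm) h)
  have key : ∀ w : R × C, w.1 = i → w ∈ U → (disch_v U w = 0 ∧ dc U w.2 = 3) ∨
      (dc U w.2 = 2 ∧ disch_v U w = 2) ∨
      (dc U w.2 = 2 ∧ disch_v U w = 1 ∧ ∃ i', i' ≠ i ∧ (i', w.2) ∈ U ∧ dr U i' = 3) := by
    intro w hw hwU
    have h1 := disch_cell U hdc w hwU (by rw [hw]; exact hi)
    rw [hw] at h1
    exact h1
  have hAA : ∀ u v : R × C, u.2 ≠ v.2 → (i, u.2) ∈ U → (i, v.2) ∈ U → dc U u.2 = 3 →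
      dc U v.2 = 3 → False :=
    fun u v huv hu hv a b => hA ⟨u.2, v.2, huv, hu, hv, a, b⟩
  have hBB : ∀ u v : R × C, (i, u.2) ∈ U → (i, v.2) ∈ U → dc U u.2 = 3 →
      dc U v.2 = 2 → (∃ i', i' ≠ i ∧ (i', v.2) ∈ U ∧ dr U i' = 3) → False := by
    rintro u v hu hv a b ⟨i', h1, h2, h3⟩
    exact hB ⟨u.2, v.2, i', hu, a, hv, b, h2, h1, h3⟩
  rw [hsum]
  rcases key x hxi hxU with ⟨vx, cx⟩ | ⟨cx, vx⟩ | ⟨cx, vx, ex⟩
  · rcases key y hyi hyU with ⟨vy, cy⟩ | ⟨cy, vy⟩ | ⟨cy, vy, ey⟩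
    · exact (hAA x y nxy hx2 hy2 cx cy).elim
    · rcases key z hzi hzU with ⟨vz, cz⟩ | ⟨cz, vz⟩ | ⟨cz, vz, ez⟩
      · exact (hAA x z nxz hx2 hz2 cx cz).elim
      · omega
      · exact (hBB x z hx2 hz2 cx cz ez).elim
    · exact (hBB x y hx2 hy2 cx cy ey).elim
  · rcases key y hyi hyU with ⟨vy, cy⟩ | ⟨cy, vy⟩ | ⟨cy, vy, ey⟩
    · rcases key z hzi hzU with ⟨vz, cz⟩ | ⟨cz, vz⟩ | ⟨cz, vz, ez⟩
      · exact (hAA y z nyz hy2 hz2 cy cz).elim
      · omega
      · exact (hBB y z hy2 hz2 cy cz ez).elim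
    · omega
    · rcases key z hzi hzU with ⟨vz, cz⟩ | ⟨cz, vz⟩ | ⟨cz, vz, ez⟩
      · exact (hBB z y hz2 hy2 cz cy ey).elim
      · omega
      · omega
  · rcases key y hyi hyU with ⟨vy, cy⟩ | ⟨cy, vy⟩ | ⟨cy, vy, ey⟩
    · exact (hBB y x hy2 hx2 cy cx ex).elim
    · rcases key z hzi hzU with ⟨vz, cz⟩ | ⟨cz, vz⟩ | ⟨cz, vz, ez⟩
      · exact (hBB z x hz2 hx2 cz cx ex).elim
      · omega
      · omega
    · rcases key z hzi hzU with ⟨vz, cz⟩ | ⟨cz, vz⟩ | ⟨cz, vz, ez⟩
      · exact (hBB z x hz2 hx2 cz cx ex).elim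
      · omega
      · exfalso
        apply hC
        intro j hj
        rcases hin j hj with h | h | h
        · rw [h]
          exact ⟨cx, ex⟩
        · rw [h]
          exact ⟨cy, ey⟩
        · rw [h]
          exact ⟨cz, ez⟩

theorem row_disch (U : Finset (R × C)) (hdr : ∀ i, dr U i = 0 ∨ dr U i = 2 ∨ dr U i = 3)
    (hdc : ∀ j, dc U j = 0 ∨ dc U j = 2 ∨ dc U j = 3)
    (h : ∀ i, dr U i = 3 → ¬ PatA U i ∧ ¬ PatB U i ∧ ¬ PatC U i) :
    2 * nrow U 3 ≤ ncol U 2 := by
  classical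
  have hrow : ∀ i, dr U i = 3 → 4 ≤ ∑ x ∈ U.filter (fun x => x.1 = i), disch_v U x :=
    fun i hi => disch_row U hdc i hi (h i hi)
  have hA : 4 * nrow U 3 ≤ ∑ x ∈ U.filter (fun x => dr U x.1 = 3), disch_v U x := by
    have hm : ∀ x ∈ U.filter (fun x => dr U x.1 = 3),
        x.1 ∈ (U.image Prod.fst).filter fun i => dr U i = 3 := by
      intro x hx
      obtain ⟨h1, h2⟩ := Finset.mem_filter.1 hx
      exact Finset.mem_filter.2 ⟨Finset.mem_image_of_mem _ h1, h2⟩
    rw [← Finset.sum_fiberwise_of_maps_to hm]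
    have h1 : ∀ i ∈ (U.image Prod.fst).filter (fun i => dr U i = 3),
        4 ≤ ∑ x ∈ (U.filter (fun x => dr U x.1 = 3)).filter (fun x => x.1 = i), disch_v U x := by
      intro i hi
      obtain ⟨-, h2⟩ := Finset.mem_filter.1 hi
      have h3 : (U.filter (fun x => dr U x.1 = 3)).filter (fun x => x.1 = i) =
          U.filter (fun x => x.1 = i) := by
        ext x
        simp only [Finset.mem_filter]
        constructor
        · rintro ⟨⟨a, -⟩, b⟩
          exact ⟨a, b⟩
        · rintro ⟨a, b⟩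
          exact ⟨⟨a, by rw [b]; exact h2⟩, b⟩
      rw [h3]
      exact hrow i h2
    have h2 := Finset.card_nsmul_le_sum _ _ 4 h1
    rw [smul_eq_mul, Nat.mul_comm] at h2
    exact h2
  have hB : ∑ x ∈ U.filter (fun x => dr U x.1 = 3), disch_v U x ≤ 2 * ncol U 2 := by
    have hm : ∀ x ∈ U.filter (fun x => dr U x.1 = 3), x.2 ∈ U.image Prod.snd := by
      intro x hx
      exact Finset.mem_image_of_mem _ (Finset.mem_filter.1 hx).1
    rw [← Finset.sum_fiberwise_of_maps_to hm]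
    have h1 : ∀ j ∈ U.image Prod.snd,
        ∑ x ∈ (U.filter (fun x => dr U x.1 = 3)).filter (fun x => x.2 = j), disch_v U x ≤
          if dc U j = 2 then 2 else 0 := by
      intro j _
      have h3 : ∀ x ∈ (U.filter (fun x => dr U x.1 = 3)).filter (fun x => x.2 = j),
          disch_v U x = if dc U j = 2 then 2 / disch_t U j else 0 := by
        intro x hx
        have h4 : x.2 = j := (Finset.mem_filter.1 hx).2
        unfold disch_v
        rw [h4]
      rw [Finset.sum_congr rfl h3, Finset.sum_const, smul_eq_mul]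
      have h5 : ((U.filter (fun x => dr U x.1 = 3)).filter (fun x => x.2 = j)).card = disch_t U j := by
        unfold disch_t
        congr 1
        ext x
        simp only [Finset.mem_filter]
        constructor
        · rintro ⟨⟨a, b⟩, c⟩
          exact ⟨a, c, b⟩
        · rintro ⟨a, c, b⟩
          exact ⟨⟨a, b⟩, c⟩
      rw [h5]
      by_cases h6 : dc U j = 2
      · rw [if_pos h6, if_pos h6]
        exact Nat.mul_div_le 2 _
      · rw [if_neg h6, if_neg h6, Nat.mul_zero]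
    refine (Finset.sum_le_sum h1).trans ?_
    rw [← Finset.sum_filter, Finset.sum_const, smul_eq_mul, Nat.mul_comm]
    exact le_rfl
  omega

theorem pat_or (U : Finset (R × C)) (hdr : ∀ i, dr U i = 0 ∨ dr U i = 2 ∨ dr U i = 3)
    (hdc : ∀ j, dc U j = 0 ∨ dc U j = 2 ∨ dc U j = 3) (hbad : 7 * lns U < 6 * U.card) :
    (∃ i, dr U i = 3 ∧ (PatA U i ∨ PatB U i ∨ PatC U i)) ∨
      ∃ j, dr (tps U) j = 3 ∧ (PatA (tps U) j ∨ PatB (tps U) j ∨ PatC (tps U) j) := by
  by_contra hno
  have hno1 : ∀ i, dr U i = 3 → ¬ PatA U i ∧ ¬ PatB U i ∧ ¬ PatC U i := by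
    intro i hi
    refine ⟨fun h => hno (Or.inl ⟨i, hi, Or.inl h⟩), fun h => hno (Or.inl ⟨i, hi, Or.inr (Or.inl h)⟩),
      fun h => hno (Or.inl ⟨i, hi, Or.inr (Or.inr h)⟩)⟩
  have hno2 : ∀ j, dr (tps U) j = 3 →
      ¬ PatA (tps U) j ∧ ¬ PatB (tps U) j ∧ ¬ PatC (tps U) j := by
    intro j hj
    refine ⟨fun h => hno (Or.inr ⟨j, hj, Or.inl h⟩), fun h => hno (Or.inr ⟨j, hj, Or.inr (Or.inl h)⟩),
      fun h => hno (Or.inr ⟨j, hj, Or.inr (Or.inr h)⟩)⟩
  have hdr' : ∀ j, dr (tps U) j = 0 ∨ dr (tps U) j = 2 ∨ dr (tps U) j = 3 := by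
    intro j
    rw [dr_tps]
    exact hdc j
  have hdc' : ∀ i, dc (tps U) i = 0 ∨ dc (tps U) i = 2 ∨ dc (tps U) i = 3 := by
    intro i
    rw [dc_tps]
    exact hdr i
  have h1 := row_disch U hdr hdc hno1
  have h2 := row_disch (tps U) hdr' hdc' hno2
  obtain ⟨h3, h4⟩ := card_rows U hdr
  obtain ⟨h5, h6⟩ := card_rows (tps U) hdr'
  rw [nrow_tps, ncol_tps] at h2
  rw [nrow_tps, nrow_tps, card_tps] at h5
  rw [nrow_tps, nrow_tps, disch_fst] at h6
  unfold lns at hbad
  omega

end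

end Pool.Agent.D3T
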