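import Pool.Agent.Helper33.DefNum.Array
import Pool.Agent.D3T.Defs

/-!
# D3T, module Red: defining sets and the local properties

`t3_of_forces`: the undefined cells of a forcing set for `k = 2n - 3` have the local properties: two
lines with `2n` colours together have exactly three colours in common.  `lower_of_card`: the bound on
the number of undefined cells gives the lower bound.
-/

set_option autoImplicit false

namespace Pool.Agent.D3T

open Pool.Agent.Helper33.DefNum Finset

theorem t3_of_forces {n k : ℕ} (hk : k + 3 = 2 * n) (S : Finset (Fin n × Fin n))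
    (F : Fin n → Fin n → Fin k) (hF : Forces S F) : T3 (fun i j => (i, j) ∈ Sᶜ) F := by
  have uniq : ∀ G : Fin n → Fin n → Fin k, (∀ i j j', G i j = G i j' → j = j') →
    (∀ j i i', G i j = G i' j → i = i') → (∀ i j, ¬ (i, j) ∈ Sᶜ → G i j = F i j) →
    ∀ i j, G i j = F i j := by
    intro G h1 h2 h3 i j
    have := hF.2 G ⟨fun i => fun a b => h1 i a b, fun j => fun a b => h2 j a b⟩ (by
      intro x hx
      exact h3 x.1 x.2 (fun h => (Finset.mem_compl.1 h) hx))
    rw [this]
  have hr : ∀ i j j', F i j = F i j' → j = j' := fun i j j' e => hF.1.1 i e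
  have hc : ∀ j i i', F i j = F i' j → i = i' := fun j i i' e => hF.1.2 j e
  have cover : ∀ i j, (i, j) ∈ Sᶜ → ∀ a, Rw F i a ∨ Cl F j a := by
    intro i j hij a
    by_contra hcon
    push Not at hcon
    obtain ⟨c1, c2⟩ := hcon
    have c1' : ∀ b, F i b ≠ a := fun b h => c1 ⟨b, h⟩
    have c2' : ∀ b, F b j ≠ a := fun b h => c2 ⟨b, h⟩
    have := uniq (fun x y => if x = i ∧ y = j then a else F x y) (by intro x y y'; grind)
      (by intro y x x'; grind) (by intro x y; grind) i j
    rw [if_pos ⟨rfl, rfl⟩] at this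
    exact c1' j this.symm
  refine ⟨hr, hc, uniq, ?_, cover⟩
  intro i j hij a b c ha1 ha2 hb1 hb2 hc1 hc2 hna hnb hnc
  by_contra habc
  push Not at habc
  obtain ⟨hab, hac, hbc⟩ := habc
  set A : Finset (Fin k) := Finset.univ.image (F i) with hA
  set B : Finset (Fin k) := Finset.univ.image (fun i' => F i' j) with hB
  have hAc : A.card = n := by
    rw [hA, Finset.card_image_of_injective _ (hF.1.1 i), Finset.card_univ, Fintype.card_fin]
  have hBc : B.card = n := by
    rw [hB, Finset.card_image_of_injective _ (hF.1.2 j), Finset.card_univ, Fintype.card_fin]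
  have hAmem : ∀ a, a ∈ A ↔ Rw F i a := by
    intro a; rw [hA]; simp [Rw]
  have hBmem : ∀ a, a ∈ B ↔ Cl F j a := by
    intro a; rw [hB]; simp [Cl]
  have hAB : A ∪ B = Finset.univ := by
    ext x
    simp only [Finset.mem_union, hAmem, hBmem, Finset.mem_univ, iff_true]
    exact cover i j hij x
  have h1 := Finset.card_union_add_card_inter A B
  rw [hAB, Finset.card_univ, Fintype.card_fin, hAc, hBc] at h1
  have h2 : ({F i j, a, b, c} : Finset (Fin k)) ⊆ A ∩ B := by
    intro x hx
    simp only [Finset.mem_insert, Finset.mem_singleton] at hx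
    rw [Finset.mem_inter, hAmem, hBmem]
    rcases hx with rfl | rfl | rfl | rfl
    · exact ⟨⟨j, rfl⟩, ⟨i, rfl⟩⟩
    · exact ⟨ha1, ha2⟩
    · exact ⟨hb1, hb2⟩
    · exact ⟨hc1, hc2⟩
  have h3 := Finset.card_le_card h2
  rw [Finset.card_insert_of_notMem, Finset.card_insert_of_notMem, Finset.card_insert_of_notMem,
    Finset.card_singleton] at h3
  · omega
  · simpa using hbc
  · simp only [Finset.mem_insert, Finset.mem_singleton, not_or]
    exact ⟨hab, hac⟩
  · simp only [Finset.mem_insert, Finset.mem_singleton, not_or]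
    exact ⟨hna.symm, hnb.symm, hnc.symm⟩

private theorem red_lns_le {n : ℕ} (U : Finset (Fin n × Fin n)) : lns U ≤ 2 * n := by
  have h1 := Finset.card_le_univ (U.image Prod.fst)
  have h2 := Finset.card_le_univ (U.image Prod.snd)
  rw [Fintype.card_fin] at h1 h2
  unfold lns
  omega

theorem lower_of_card
    (h : ∀ (n k : ℕ) (U : Finset (Fin n × Fin n)) (F : Fin n → Fin n → Fin k),
      T3 (fun i j => (i, j) ∈ U) F → 6 * U.card ≤ 7 * lns U) {n : ℕ} (hn : 3 ≤ n) :
    3 * n ^ 2 ≤ 3 * definingNumber (grid n) (2 * n - 3) + 7 * n := by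
  obtain ⟨S, F, hF, hS⟩ := exists_forces (n := n) (k := 2 * n - 3) (by omega)
  rw [← hS]
  have h1 := h n (2 * n - 3) Sᶜ F (t3_of_forces (by omega) S F hF)
  have h3 := red_lns_le (Sᶜ : Finset (Fin n × Fin n))
  rw [Finset.card_compl, Fintype.card_prod, Fintype.card_fin] at h1
  have h2 : S.card ≤ n * n := by
    have := Finset.card_le_univ S
    simpa [Fintype.card_prod] using this
  rw [sq]
  omega

end Pool.Agent.D3T
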