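import Pool.Agent.D3T.TDefs

/-!
# D3T, module TrB: extensions in the case tree

Plan.  `dR_le`: the map `e ↦ (r e.1, c e.2)` is injective on the list `s.E` (`hs.emb`, `hs.ia`, `hs.ib`), the edges at `i` go to cells of `U` in the
row `r i`; `s.dR i` is the number of edges at `i` (`List.toFinset_card_of_nodup`, `Finset.card_le_card_of_injOn`).  `nR_le`: `i < s.a` is incident to an edge (`hs.cr`), so `dr U (r i) ≠ 0`, thus `2` or `3`; `hs.r3`.
`dr_le_mR`: `hs.r2`.  `ext_row`: as `s.dR i < dr U (r i)` some cell `(r i, y) ∈ U` is not the image of an edge at `i`.  If `y = c j` for some `j < s.b`: `(i, j) ∉ s.E`, and the column `c j` contains the images of the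
`s.dC j` edges at `j` and the cell `(r i, c j)`, so `s.dC j < dc U (c j) ≤ s.mC j`; `Fit` for `(i, j) :: s.E` with the same `r`, `c`.  Otherwise put `c' = Function.update c s.b y` (agrees with `c` below `s.b`;
members of `s.c3`, `s.c2` need not be below `s.b`, but see the extra hypotheses `h3`, `h2`).  `ext_col`: the same (or copy) with the roles exchanged.
-/

set_option autoImplicit false

namespace Pool.Agent.D3T

section

variable {R C : Type} [DecidableEq R] [DecidableEq C] {U : Finset (R × C)} {s : Stt} {r : ℕ → R}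
  {c : ℕ → C}

private theorem trb_inj (hs : Fit s U r c) {e e' : ℕ × ℕ} (he : e ∈ s.E) (he' : e' ∈ s.E)
    (h : (r e.1, c e.2) = (r e'.1, c e'.2)) : e = e' := by
  have h1 := hs.emb.rinj e.1 (hs.ia e he) e'.1 (hs.ia e' he') (congrArg Prod.fst h)
  have h2 := hs.emb.cinj e.2 (hs.ib e he) e'.2 (hs.ib e' he') (congrArg Prod.snd h)
  exact Prod.ext h1 h2

/-- images of the edges at the row `i` -/
private def trb_ir (s : Stt) (r : ℕ → R) (c : ℕ → C) (i : ℕ) : Finset (R × C) :=
  (s.E.filter fun e => e.1 == i).toFinset.image fun e => (r e.1, c e.2)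

private def trb_ic (s : Stt) (r : ℕ → R) (c : ℕ → C) (j : ℕ) : Finset (R × C) :=
  (s.E.filter fun e => e.2 == j).toFinset.image fun e => (r e.1, c e.2)

private theorem trb_cr (hs : Fit s U r c) (i : ℕ) : (trb_ir s r c i).card = s.dR i := by
  unfold trb_ir Stt.dR
  rw [Finset.card_image_of_injOn, List.toFinset_card_of_nodup (hs.nd.filter _)]
  intro e he e' he' h
  rw [Finset.mem_coe, List.mem_toFinset, List.mem_filter] at he he'
  exact trb_inj hs he.1 he'.1 h

private theorem trb_cc (hs : Fit s U r c) (j : ℕ) : (trb_ic s r c j).card = s.dC j := by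
  unfold trb_ic Stt.dC
  rw [Finset.card_image_of_injOn, List.toFinset_card_of_nodup (hs.nd.filter _)]
  intro e he e' he' h
  rw [Finset.mem_coe, List.mem_toFinset, List.mem_filter] at he he'
  exact trb_inj hs he.1 he'.1 h

private theorem trb_mr {i : ℕ} {x : R × C} :
    x ∈ trb_ir s r c i ↔ ∃ e ∈ s.E, e.1 = i ∧ (r e.1, c e.2) = x := by
  unfold trb_ir
  simp only [Finset.mem_image, List.mem_toFinset, List.mem_filter, beq_iff_eq]
  constructor
  · rintro ⟨e, ⟨h1, h2⟩, h3⟩
    exact ⟨e, h1, h2, h3⟩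
  · rintro ⟨e, h1, h2, h3⟩
    exact ⟨e, ⟨h1, h2⟩, h3⟩

private theorem trb_mc {j : ℕ} {x : R × C} :
    x ∈ trb_ic s r c j ↔ ∃ e ∈ s.E, e.2 = j ∧ (r e.1, c e.2) = x := by
  unfold trb_ic
  simp only [Finset.mem_image, List.mem_toFinset, List.mem_filter, beq_iff_eq]
  constructor
  · rintro ⟨e, ⟨h1, h2⟩, h3⟩
    exact ⟨e, h1, h2, h3⟩
  · rintro ⟨e, h1, h2, h3⟩
    exact ⟨e, ⟨h1, h2⟩, h3⟩

theorem dR_le (hs : Fit s U r c) {i : ℕ} (hi : i < s.a) : s.dR i ≤ dr U (r i) := by
  rw [← trb_cr hs i]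
  refine Finset.card_le_card fun x hx => ?_
  obtain ⟨e, h1, h2, h3⟩ := trb_mr.1 hx
  rw [Finset.mem_filter]
  subst h2
  rw [← h3]
  exact ⟨hs.emb.mem e h1, rfl⟩

theorem dC_le (hs : Fit s U r c) {j : ℕ} (hj : j < s.b) : s.dC j ≤ dc U (c j) := by
  rw [← trb_cc hs j]
  refine Finset.card_le_card fun x hx => ?_
  obtain ⟨e, h1, h2, h3⟩ := trb_mc.1 hx
  rw [Finset.mem_filter]
  subst h2
  rw [← h3]
  exact ⟨hs.emb.mem e h1, rfl⟩

theorem nR_le (hs : Fit s U r c) (hdr : ∀ i, dr U i = 0 ∨ dr U i = 2 ∨ dr U i = 3) {i : ℕ}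
    (hi : i < s.a) : s.nR i ≤ dr U (r i) := by
  unfold Stt.nR
  by_cases h : s.r3.elem i = true
  · rw [if_pos h, hs.r3 i (by simpa using h)]
  · rw [if_neg h]
    obtain ⟨j, hj⟩ := hs.cr i hi
    have h1 : (r i, c j) ∈ U := hs.emb.mem (i, j) hj
    have h2 : 0 < dr U (r i) := Finset.card_pos.2 ⟨(r i, c j), Finset.mem_filter.2 ⟨h1, rfl⟩⟩
    have := hdr (r i)
    omega

theorem nC_le (hs : Fit s U r c) (hdc : ∀ j, dc U j = 0 ∨ dc U j = 2 ∨ dc U j = 3) {j : ℕ}
    (hj : j < s.b) : s.nC j ≤ dc U (c j) := by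
  unfold Stt.nC
  by_cases h : s.c3.elem j = true
  · rw [if_pos h, hs.c3 j (by simpa using h)]
  · rw [if_neg h]
    obtain ⟨i, hi⟩ := hs.cc j hj
    have h1 : (r i, c j) ∈ U := hs.emb.mem (i, j) hi
    have h2 : 0 < dc U (c j) := Finset.card_pos.2 ⟨(r i, c j), Finset.mem_filter.2 ⟨h1, rfl⟩⟩
    have := hdc (c j)
    omega

theorem dr_le_mR (hs : Fit s U r c) (hdr : ∀ i, dr U i = 0 ∨ dr U i = 2 ∨ dr U i = 3) (i : ℕ) :
    dr U (r i) ≤ s.mR i := by
  unfold Stt.mR
  by_cases h : s.r2.elem i = true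
  · rw [if_pos h, hs.r2 i (by simpa using h)]
  · rw [if_neg h]
    have := hdr (r i)
    omega

theorem dc_le_mC (hs : Fit s U r c) (hdc : ∀ j, dc U j = 0 ∨ dc U j = 2 ∨ dc U j = 3) (j : ℕ) :
    dc U (c j) ≤ s.mC j := by
  unfold Stt.mC
  by_cases h : s.c2.elem j = true
  · rw [if_pos h, hs.c2 j (by simpa using h)]
  · rw [if_neg h]
    have := hdc (c j)
    omega

private theorem trb_old (hs : Fit s U r c) {i j : ℕ} (hi : i < s.a) (hj : j < s.b)
    (hn : (i, j) ∉ s.E) (hU : (r i, c j) ∈ U) : Fit { s with E := (i, j) :: s.E } U r c where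
  emb := ⟨hs.emb.rinj, hs.emb.cinj, fun e he => by
    rcases List.mem_cons.1 he with rfl | he
    · exact hU
    · exact hs.emb.mem e he⟩
  ia := fun e he => by
    rcases List.mem_cons.1 he with rfl | he
    · exact hi
    · exact hs.ia e he
  ib := fun e he => by
    rcases List.mem_cons.1 he with rfl | he
    · exact hj
    · exact hs.ib e he
  nd := List.nodup_cons.2 ⟨hn, hs.nd⟩
  ne := List.cons_ne_nil _ _
  cr := fun i' hi' => by
    obtain ⟨j', h⟩ := hs.cr i' hi'
    exact ⟨j', List.mem_cons_of_mem _ h⟩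
  cc := fun j' hj' => by
    obtain ⟨i', h⟩ := hs.cc j' hj'
    exact ⟨i', List.mem_cons_of_mem _ h⟩
  r3 := hs.r3
  c3 := hs.c3
  r2 := hs.r2
  c2 := hs.c2

theorem ext_row (hs : Fit s U r c) (hdc : ∀ j, dc U j = 0 ∨ dc U j = 2 ∨ dc U j = 3)
    (h3 : ∀ j ∈ s.c3, j < s.b) (h2 : ∀ j ∈ s.c2, j < s.b) {i : ℕ} (hi : i < s.a)
    (h : s.dR i < dr U (r i)) :
    (∃ c' : ℕ → C, Fit { s with b := s.b + 1, E := (i, s.b) :: s.E } U r c') ∨
      ∃ j < s.b, (i, j) ∉ s.E ∧ s.dC j < s.mC j ∧ Fit { s with E := (i, j) :: s.E } U r c := by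
  rw [← trb_cr hs i] at h
  obtain ⟨x, hx, hx'⟩ := Finset.exists_mem_notMem_of_card_lt_card h
  obtain ⟨hxU, hx1⟩ := Finset.mem_filter.1 hx
  obtain ⟨x1, y⟩ := x
  simp only at hx1
  subst hx1
  by_cases hy : ∃ j < s.b, c j = y
  · right
    obtain ⟨j, hj, rfl⟩ := hy
    have hn : (i, j) ∉ s.E := fun hm => hx' (trb_mr.2 ⟨(i, j), hm, rfl, rfl⟩)
    have hF := trb_old hs hi hj hn hxU
    refine ⟨j, hj, hn, ?_, hF⟩
    have e1 := dC_le hF (j := j) hj
    have e2 := dc_le_mC hs hdc j
    have e3 : Stt.dC { s with E := (i, j) :: s.E } j = s.dC j + 1 := by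
      simp [Stt.dC, List.filter_cons]
    omega
  · left
    have hc : ∀ j < s.b, Function.update c s.b y j = c j := fun j hj =>
      Function.update_of_ne (by omega) _ _
    have hb : Function.update c s.b y s.b = y := Function.update_self _ _ _
    refine ⟨Function.update c s.b y, ⟨⟨hs.emb.rinj, ?_, ?_⟩, ?_, ?_, ?_, ?_, ?_, ?_, hs.r3, ?_, hs.r2,
      ?_⟩⟩
    · intro j hj j' hj' e
      simp only at hj hj'
      rcases Nat.lt_or_ge j s.b with k | k <;> rcases Nat.lt_or_ge j' s.b with k' | k'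
      · rw [hc j k, hc j' k'] at e
        exact hs.emb.cinj j k j' k' e
      · have : j' = s.b := by omega
        subst this
        rw [hc j k, hb] at e
        exact absurd ⟨j, k, e⟩ hy
      · have : j = s.b := by omega
        subst this
        rw [hc j' k', hb] at e
        exact absurd ⟨j', k', e.symm⟩ hy
      · omega
    · intro e he
      rcases List.mem_cons.1 he with rfl | he
      · simp only [hb]
        exact hxU
      · simp only [hc e.2 (hs.ib e he)]
        exact hs.emb.mem e he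
    · intro e he
      rcases List.mem_cons.1 he with rfl | he
      · exact hi
      · exact hs.ia e he
    · intro e he
      rcases List.mem_cons.1 he with rfl | he
      · exact Nat.lt_succ_self _
      · exact (hs.ib e he).trans (Nat.lt_succ_self _)
    · exact List.nodup_cons.2 ⟨fun hm => lt_irrefl _ (hs.ib _ hm), hs.nd⟩
    · exact List.cons_ne_nil _ _
    · intro i' hi'
      obtain ⟨j', k⟩ := hs.cr i' hi'
      exact ⟨j', List.mem_cons_of_mem _ k⟩
    · intro j' hj'
      simp only at hj'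
      rcases Nat.lt_or_ge j' s.b with k | k
      · obtain ⟨i', k'⟩ := hs.cc j' k
        exact ⟨i', List.mem_cons_of_mem _ k'⟩
      · have : j' = s.b := by omega
        subst this
        exact ⟨i, List.mem_cons_self⟩
    · intro j hj
      rw [hc j (h3 j hj)]
      exact hs.c3 j hj
    · intro j hj
      rw [hc j (h2 j hj)]
      exact hs.c2 j hj

theorem ext_col (hs : Fit s U r c) (hdr : ∀ i, dr U i = 0 ∨ dr U i = 2 ∨ dr U i = 3)
    (h3 : ∀ i ∈ s.r3, i < s.a) (h2 : ∀ i ∈ s.r2, i < s.a) {j : ℕ} (hj : j < s.b)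
    (h : s.dC j < dc U (c j)) :
    (∃ r' : ℕ → R, Fit { s with a := s.a + 1, E := (s.a, j) :: s.E } U r' c) ∨
      ∃ i < s.a, (i, j) ∉ s.E ∧ s.dR i < s.mR i ∧ Fit { s with E := (i, j) :: s.E } U r c := by
  rw [← trb_cc hs j] at h
  obtain ⟨x, hx, hx'⟩ := Finset.exists_mem_notMem_of_card_lt_card h
  obtain ⟨hxU, hx1⟩ := Finset.mem_filter.1 hx
  obtain ⟨y, x1⟩ := x
  simp only at hx1
  subst hx1
  by_cases hy : ∃ i < s.a, r i = y
  · right
    obtain ⟨i, hi, rfl⟩ := hy
    have hn : (i, j) ∉ s.E := fun hm => hx' (trb_mc.2 ⟨(i, j), hm, rfl, rfl⟩)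
    have hF := trb_old hs hi hj hn hxU
    refine ⟨i, hi, hn, ?_, hF⟩
    have e1 := dR_le hF (i := i) hi
    have e2 := dr_le_mR hs hdr i
    have e3 : Stt.dR { s with E := (i, j) :: s.E } i = s.dR i + 1 := by
      simp [Stt.dR, List.filter_cons]
    omega
  · left
    have hc : ∀ i < s.a, Function.update r s.a y i = r i := fun i hi =>
      Function.update_of_ne (by omega) _ _
    have hb : Function.update r s.a y s.a = y := Function.update_self _ _ _
    refine ⟨Function.update r s.a y, ⟨⟨?_, hs.emb.cinj, ?_⟩, ?_, ?_, ?_, ?_, ?_, ?_, ?_, hs.c3, ?_,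
      hs.c2⟩⟩
    · intro i hi i' hi' e
      simp only at hi hi'
      rcases Nat.lt_or_ge i s.a with k | k <;> rcases Nat.lt_or_ge i' s.a with k' | k'
      · rw [hc i k, hc i' k'] at e
        exact hs.emb.rinj i k i' k' e
      · have : i' = s.a := by omega
        subst this
        rw [hc i k, hb] at e
        exact absurd ⟨i, k, e⟩ hy
      · have : i = s.a := by omega
        subst this
        rw [hc i' k', hb] at e
        exact absurd ⟨i', k', e.symm⟩ hy
      · omega
    · intro e he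
      rcases List.mem_cons.1 he with rfl | he
      · simp only [hb]
        exact hxU
      · simp only [hc e.1 (hs.ia e he)]
        exact hs.emb.mem e he
    · intro e he
      rcases List.mem_cons.1 he with rfl | he
      · exact Nat.lt_succ_self _
      · exact (hs.ia e he).trans (Nat.lt_succ_self _)
    · intro e he
      rcases List.mem_cons.1 he with rfl | he
      · exact hj
      · exact hs.ib e he
    · exact List.nodup_cons.2 ⟨fun hm => lt_irrefl _ (hs.ia _ hm), hs.nd⟩
    · exact List.cons_ne_nil _ _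
    · intro i' hi'
      simp only at hi'
      rcases Nat.lt_or_ge i' s.a with k | k
      · obtain ⟨j', k'⟩ := hs.cr i' k
        exact ⟨j', List.mem_cons_of_mem _ k'⟩
      · have : i' = s.a := by omega
        subst this
        exact ⟨j, List.mem_cons_self⟩
    · intro j' hj'
      obtain ⟨i', k⟩ := hs.cc j' hj'
      exact ⟨i', List.mem_cons_of_mem _ k⟩
    · intro i hi
      rw [hc i (h3 i hi)]
      exact hs.r3 i hi
    · intro i hi
      rw [hc i (h2 i hi)]
      exact hs.r2 i hi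

end

end Pool.Agent.D3T
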