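import Pool.Agent.D3T.TDefs

/-!
# D3T, module TrC: closed states

A state all of whose lines are saturated is a union of components of `U`; removing it contradicts the minimality.
-/

set_option autoImplicit false

namespace Pool.Agent.D3T

/-- the cells of a line are the images of the edges at the line -/
private theorem trc_line {X : Type} [DecidableEq X] {E : List (ℕ × ℕ)} {g : ℕ × ℕ → X} {W : Finset X}
    {P : ℕ × ℕ → Bool} (hE : E.Nodup) (hg : ∀ e ∈ E, ∀ e' ∈ E, g e = g e' → e = e')
    (hW : ∀ e ∈ E, P e = true → g e ∈ W) (hc : W.card = (E.filter P).length) :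
    W ⊆ E.toFinset.image g := by
  have h1 : (E.filter P).toFinset.image g ⊆ W := by
    intro x hx
    obtain ⟨e, he, rfl⟩ := Finset.mem_image.1 hx
    rw [List.mem_toFinset, List.mem_filter] at he
    exact hW e he.1 he.2
  have h2 : ((E.filter P).toFinset.image g).card = (E.filter P).length := by
    rw [Finset.card_image_of_injOn, List.toFinset_card_of_nodup (hE.filter P)]
    intro e he e' he' h
    rw [Finset.mem_coe, List.mem_toFinset, List.mem_filter] at he he'
    exact hg e he.1 e' he'.1 h
  have h3 : (E.filter P).toFinset.image g = W :=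
    Finset.eq_of_subset_of_card_le h1 (by rw [h2, hc])
  rw [← h3]
  apply Finset.image_subset_image
  intro e he
  rw [List.mem_toFinset, List.mem_filter] at he
  rw [List.mem_toFinset]
  exact he.1

/-- the lines which are left -/
private theorem trc_cnt {X Y : Type} [DecidableEq X] [DecidableEq Y] {U U' : Finset X} {p : X → Y}
    {r : ℕ → Y} {a : ℕ} (hU : U' ⊆ U) (hr : ∀ i < a, ∀ i' < a, r i = r i' → i = i')
    (hi : ∀ i < a, ∃ x ∈ U, p x = r i) (hn : ∀ x ∈ U', ∀ i < a, p x ≠ r i) :
    (U'.image p).card + a ≤ (U.image p).card := by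
  have h1 : ((Finset.range a).image r).card = a := by
    rw [Finset.card_image_of_injOn, Finset.card_range]
    intro i hi' j hj h
    rw [Finset.mem_coe, Finset.mem_range] at hi' hj
    exact hr i hi' j hj h
  have h2 : Disjoint (U'.image p) ((Finset.range a).image r) := by
    rw [Finset.disjoint_left]
    intro y hy hy'
    obtain ⟨x, hx, rfl⟩ := Finset.mem_image.1 hy
    obtain ⟨i, hi', h⟩ := Finset.mem_image.1 hy'
    exact hn x hx i (Finset.mem_range.1 hi') h.symm
  have h3 : U'.image p ∪ (Finset.range a).image r ⊆ U.image p := by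
    apply Finset.union_subset (Finset.image_subset_image hU)
    intro y hy
    obtain ⟨i, hi', rfl⟩ := Finset.mem_image.1 hy
    obtain ⟨x, hx, h⟩ := hi i (Finset.mem_range.1 hi')
    exact Finset.mem_image.2 ⟨x, hx, h⟩
  have h4 := Finset.card_le_card h3
  rw [Finset.card_union_of_disjoint h2, h1] at h4
  exact h4

theorem closed_sound {R C : Type} [DecidableEq R] [DecidableEq C] {U : Finset (R × C)} {s : Stt}
    {r : ℕ → R} {c : ℕ → C} (hs : Fit s U r c) (hmin : ∀ U' ⊂ U, 6 * U'.card ≤ 7 * lns U')
    (hbad : 7 * lns U < 6 * U.card) (hr : ∀ i < s.a, dr U (r i) = s.dR i)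
    (hc : ∀ j < s.b, dc U (c j) = s.dC j) (h : 6 * s.E.length ≤ 7 * (s.a + s.b)) : False := by
  obtain ⟨g, hg⟩ : ∃ g : ℕ × ℕ → R × C, ∀ e, g e = (r e.1, c e.2) := ⟨_, fun e => rfl⟩
  have hinj : ∀ e ∈ s.E, ∀ e' ∈ s.E, g e = g e' → e = e' := by
    intro e he e' he' h
    rw [hg, hg] at h
    have h1 := (Prod.mk.inj h).1
    have h2 := (Prod.mk.inj h).2
    exact Prod.ext (hs.emb.rinj _ (hs.ia e he) _ (hs.ia e' he') h1)
      (hs.emb.cinj _ (hs.ib e he) _ (hs.ib e' he') h2)
  have hmem : ∀ e ∈ s.E, g e ∈ U := by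
    intro e he
    rw [hg]
    exact hs.emb.mem e he
  have hrow : ∀ i < s.a, ∀ x ∈ U, x.1 = r i → x ∈ s.E.toFinset.image g := by
    intro i hi x hx hxi
    have h1 : (U.filter fun x => x.1 = r i) ⊆ s.E.toFinset.image g := by
      apply trc_line (P := fun e => e.1 == i) hs.nd hinj
      · intro e he hP
        rw [Finset.mem_filter]
        refine ⟨hmem e he, ?_⟩
        rw [hg, eq_of_beq hP]
      · exact hr i hi
    exact h1 (Finset.mem_filter.2 ⟨hx, hxi⟩)
  have hcol : ∀ j < s.b, ∀ x ∈ U, x.2 = c j → x ∈ s.E.toFinset.image g := by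
    intro j hj x hx hxj
    have h1 : (U.filter fun x => x.2 = c j) ⊆ s.E.toFinset.image g := by
      apply trc_line (P := fun e => e.2 == j) hs.nd hinj
      · intro e he hP
        rw [Finset.mem_filter]
        refine ⟨hmem e he, ?_⟩
        rw [hg, eq_of_beq hP]
      · exact hc j hj
    exact h1 (Finset.mem_filter.2 ⟨hx, hxj⟩)
  have hHU : s.E.toFinset.image g ⊆ U := by
    intro x hx
    obtain ⟨e, he, rfl⟩ := Finset.mem_image.1 hx
    exact hmem e (List.mem_toFinset.1 he)
  have hHc : (s.E.toFinset.image g).card = s.E.length := by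
    rw [Finset.card_image_of_injOn, List.toFinset_card_of_nodup hs.nd]
    intro e he e' he' h
    rw [Finset.mem_coe, List.mem_toFinset] at he he'
    exact hinj e he e' he' h
  have hlen : 0 < s.E.length := List.length_pos_iff.2 hs.ne
  have hsub : U \ s.E.toFinset.image g ⊆ U := Finset.sdiff_subset
  have hcard : (U \ s.E.toFinset.image g).card + s.E.length = U.card := by
    rw [← hHc]
    exact Finset.card_sdiff_add_card_eq_card hHU
  have hss : U \ s.E.toFinset.image g ⊂ U := by
    refine Finset.ssubset_iff_subset_ne.2 ⟨hsub, fun h' => ?_⟩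
    rw [h'] at hcard
    omega
  have h1 := hmin _ hss
  have hrows : ((U \ s.E.toFinset.image g).image Prod.fst).card + s.a ≤ (U.image Prod.fst).card := by
    apply trc_cnt hsub hs.emb.rinj
    · intro i hi
      obtain ⟨j, hj⟩ := hs.cr i hi
      exact ⟨g (i, j), hmem _ hj, by rw [hg]⟩
    · intro x hx i hi h'
      rw [Finset.mem_sdiff] at hx
      exact hx.2 (hrow i hi x hx.1 h')
  have hcols : ((U \ s.E.toFinset.image g).image Prod.snd).card + s.b ≤ (U.image Prod.snd).card := by
    apply trc_cnt hsub hs.emb.cinj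
    · intro j hj
      obtain ⟨i, hi⟩ := hs.cc j hj
      exact ⟨g (i, j), hmem _ hi, by rw [hg]⟩
    · intro x hx j hj h'
      rw [Finset.mem_sdiff] at hx
      exact hx.2 (hcol j hj x hx.1 h')
  unfold lns at h1 hbad
  omega

end Pool.Agent.D3T
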