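import Pool.Agent.D3T.TrA
import Pool.Agent.D3T.TrB
import Pool.Agent.D3T.TrC

/-!
# D3T, module TrD: the case tree is correct

Induction on `f`, for all `s`, `t`, `t'`, `r`, `c`.  A successful fold of `Option.bind`s has succeeded
at its start and at every element of the list (`trd_fold`).  Leaves: `leaf_sound`.  Rows and columns:
`ext_row`, `ext_col` give an extension which fits, and the fold has visited it.  Closed states: by
`closed_sound` some line has more cells in `U` than edges in the state, thus exactly three cells, and
the fold has visited the state which knows this.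
-/

set_option autoImplicit false

namespace Pool.Agent.D3T

private theorem trd_fold {α β : Type} (g : β → α → Option α) (l : List β) :
    ∀ (o : Option α) (t' : α), l.foldl (fun acc x => acc.bind (g x)) o = some t' →
      (∃ t₀, o = some t₀) ∧ ∀ x ∈ l, ∃ t₁ t₂, g x t₁ = some t₂ := by
  induction l with
  | nil =>
    intro o t' h
    exact ⟨⟨t', h⟩, fun x hx => absurd hx List.not_mem_nil⟩
  | cons y l ih =>
    intro o t' h
    rw [List.foldl_cons] at h
    obtain ⟨⟨t₀, h0⟩, h1⟩ := ih _ _ h
    obtain ⟨t₁, ht₁, ht₂⟩ := Option.bind_eq_some_iff.mp h0
    refine ⟨⟨t₁, ht₁⟩, ?_⟩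
    intro x hx
    rcases List.mem_cons.mp hx with rfl | hx
    · exact ⟨t₁, t₀, ht₂⟩
    · exact h1 x hx

private theorem trd_two_le_nR (s : Stt) (i : ℕ) : 2 ≤ s.nR i := by
  unfold Stt.nR
  split <;> omega

private theorem trd_two_le_nC (s : Stt) (j : ℕ) : 2 ≤ s.nC j := by
  unfold Stt.nC
  split <;> omega

theorem tree_sound {R C K : Type} [DecidableEq R] [DecidableEq C]
    (O : List (ℕ × ℕ × List (ℕ × ℕ))) (hO : ∀ o ∈ O, Bad o.1 o.2.1 o.2.2) (U : Finset (R × C))
    (F : R → C → K) (hT : T3 (fun i j => (i, j) ∈ U) F)
    (hmin : ∀ U' ⊂ U, 6 * U'.card ≤ 7 * lns U') (hbad : 7 * lns U < 6 * U.card)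
    (hdr : ∀ i, dr U i = 0 ∨ dr U i = 2 ∨ dr U i = 3)
    (hdc : ∀ j, dc U j = 0 ∨ dc U j = 2 ∨ dc U j = 3) (f : ℕ) :
    ∀ (s : Stt) (t t' : List Ins) (r : ℕ → R) (c : ℕ → C), Fit s U r c →
      ((∀ i ∈ s.r3, i < s.a) ∧ (∀ i ∈ s.r2, i < s.a) ∧ (∀ j ∈ s.c3, j < s.b) ∧
        ∀ j ∈ s.c2, j < s.b) → tree O f s t = some t' → False := by
  induction f with
  | zero =>
    intro s t t' r c _ _ h
    rw [tree] at h
    exact absurd h (by simp)
  | succ f ih =>
    intro s t t' r c hs w h
    obtain ⟨w1, w2, w3, w4⟩ := w
    cases t with
    | nil =>
      rw [tree] at h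
      exact absurd h (by simp)
    | cons x t =>
      cases x with
      | leaf o sw ρ κ =>
        rw [tree] at h
        split at h
        · rename_i hc
          rw [Bool.and_eq_true, decide_eq_true_eq] at hc
          obtain ⟨h1, h2⟩ := hc
          have hb : Bad (O.getD o (0, 0, [])).1 (O.getD o (0, 0, [])).2.1
              (O.getD o (0, 0, [])).2.2 := by
            apply hO
            rw [List.getD_eq_getElem _ _ h2]
            exact List.getElem_mem h2
          exact leaf_sound _ hb _ F hT s r c hs.emb sw ρ κ h1
        · exact absurd h (by simp)
      | row i =>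
        rw [tree] at h
        split at h
        · rename_i hc
          rw [Bool.and_eq_true, decide_eq_true_eq, decide_eq_true_eq] at hc
          obtain ⟨h1, h2⟩ := hc
          have hlt : s.dR i < dr U (r i) := lt_of_lt_of_le h2 (nR_le hs hdr h1)
          obtain ⟨⟨t₀, h0⟩, hx⟩ := trd_fold (fun j t =>
            if s.E.elem (i, j) || decide (s.mC j ≤ s.dC j) then some t
            else tree O f { s with E := (i, j) :: s.E } t) _ _ _ h
          rcases ext_row hs hdc w3 w4 h1 hlt with ⟨c', hc'⟩ | ⟨j, hj, hnE, hd, hf⟩
          · exact ih _ _ _ _ _ hc' ⟨w1, w2, fun j hj => Nat.lt_succ_of_lt (w3 j hj),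
              fun j hj => Nat.lt_succ_of_lt (w4 j hj)⟩ h0
          · obtain ⟨t₁, t₂, h12⟩ := hx j (List.mem_range.mpr hj)
            have hcf : ¬ (s.E.elem (i, j) || decide (s.mC j ≤ s.dC j)) = true := by
              rw [Bool.or_eq_true, decide_eq_true_eq, List.elem_eq_mem, decide_eq_true_eq]
              rintro (h' | h')
              · exact hnE h'
              · exact absurd hd (not_lt.mpr h')
            rw [if_neg hcf] at h12
            exact ih _ _ _ _ _ hf ⟨w1, w2, w3, w4⟩ h12
        · exact absurd h (by simp)
      | col j =>
        rw [tree] at h
        split at h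
        · rename_i hc
          rw [Bool.and_eq_true, decide_eq_true_eq, decide_eq_true_eq] at hc
          obtain ⟨h1, h2⟩ := hc
          have hlt : s.dC j < dc U (c j) := lt_of_lt_of_le h2 (nC_le hs hdc h1)
          obtain ⟨⟨t₀, h0⟩, hx⟩ := trd_fold (fun i t =>
            if s.E.elem (i, j) || decide (s.mR i ≤ s.dR i) then some t
            else tree O f { s with E := (i, j) :: s.E } t) _ _ _ h
          rcases ext_col hs hdr w1 w2 h1 hlt with ⟨r', hr'⟩ | ⟨i, hi, hnE, hd, hf⟩
          · exact ih _ _ _ _ _ hr' ⟨fun i hi => Nat.lt_succ_of_lt (w1 i hi),
              fun i hi => Nat.lt_succ_of_lt (w2 i hi), w3, w4⟩ h0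
          · obtain ⟨t₁, t₂, h12⟩ := hx i (List.mem_range.mpr hi)
            have hcf : ¬ (s.E.elem (i, j) || decide (s.mR i ≤ s.dR i)) = true := by
              rw [Bool.or_eq_true, decide_eq_true_eq, List.elem_eq_mem, decide_eq_true_eq]
              rintro (h' | h')
              · exact hnE h'
              · exact absurd hd (not_lt.mpr h')
            rw [if_neg hcf] at h12
            exact ih _ _ _ _ _ hf ⟨w1, w2, w3, w4⟩ h12
        · exact absurd h (by simp)
      | cls =>
        rw [tree] at h
        split at h
        · rename_i hc
          rw [Bool.and_eq_true, Bool.and_eq_true, decide_eq_true_eq, List.all_eq_true,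
            List.all_eq_true] at hc
          obtain ⟨⟨hR, hC⟩, hE⟩ := hc
          obtain ⟨⟨t₀, h0⟩, hx⟩ := trd_fold (fun j t =>
            if decide (s.mC j ≤ s.dC j) then some t else tree O f { s with c3 := j :: s.c3 } t)
            _ _ _ h
          obtain ⟨-, hy⟩ := trd_fold (fun i t =>
            if decide (s.mR i ≤ s.dR i) then some t else tree O f { s with r3 := i :: s.r3 } t)
            _ _ _ h0
          by_cases hr : ∀ i < s.a, dr U (r i) = s.dR i
          · by_cases hcc : ∀ j < s.b, dc U (c j) = s.dC j
            · exact closed_sound hs hmin hbad hr hcc hE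
            · push Not at hcc
              obtain ⟨j, hj, hne⟩ := hcc
              have a1 : s.nC j ≤ s.dC j := by
                have := hC j (List.mem_range.mpr hj)
                rwa [decide_eq_true_eq] at this
              have a2 := trd_two_le_nC s j
              have a3 := dC_le hs hj
              have a4 := dc_le_mC hs hdc j
              have a5 := hdc (c j)
              have a6 : dc U (c j) = 3 := by omega
              obtain ⟨t₁, t₂, h12⟩ := hx j (List.mem_range.mpr hj)
              have hcf : ¬ (decide (s.mC j ≤ s.dC j)) = true := by
                rw [decide_eq_true_eq]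
                omega
              rw [if_neg hcf] at h12
              refine ih { s with c3 := j :: s.c3 } _ _ r c ?_ ⟨w1, w2, ?_, w4⟩ h12
              · exact {
                  emb := hs.emb
                  ia := hs.ia
                  ib := hs.ib
                  nd := hs.nd
                  ne := hs.ne
                  cr := hs.cr
                  cc := hs.cc
                  r3 := hs.r3
                  c3 := by
                    intro j' hj'
                    rcases List.mem_cons.mp hj' with rfl | hj'
                    · exact a6
                    · exact hs.c3 j' hj'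
                  r2 := hs.r2
                  c2 := hs.c2 }
              · intro j' hj'
                rcases List.mem_cons.mp hj' with rfl | hj'
                · exact hj
                · exact w3 j' hj'
          · push Not at hr
            obtain ⟨i, hi, hne⟩ := hr
            have a1 : s.nR i ≤ s.dR i := by
              have := hR i (List.mem_range.mpr hi)
              rwa [decide_eq_true_eq] at this
            have a2 := trd_two_le_nR s i
            have a3 := dR_le hs hi
            have a4 := dr_le_mR hs hdr i
            have a5 := hdr (r i)
            have a6 : dr U (r i) = 3 := by omega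
            obtain ⟨t₁, t₂, h12⟩ := hy i (List.mem_range.mpr hi)
            have hcf : ¬ (decide (s.mR i ≤ s.dR i)) = true := by
              rw [decide_eq_true_eq]
              omega
            rw [if_neg hcf] at h12
            refine ih { s with r3 := i :: s.r3 } _ _ r c ?_ ⟨?_, w2, w3, w4⟩ h12
            · exact {
                emb := hs.emb
                ia := hs.ia
                ib := hs.ib
                nd := hs.nd
                ne := hs.ne
                cr := hs.cr
                cc := hs.cc
                r3 := by
                  intro i' hi'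
                  rcases List.mem_cons.mp hi' with rfl | hi'
                  · exact a6
                  · exact hs.r3 i' hi'
                c3 := hs.c3
                r2 := hs.r2
                c2 := hs.c2 }
            · intro i' hi'
              rcases List.mem_cons.mp hi' with rfl | hi'
              · exact hi
              · exact w1 i' hi'
        · exact absurd h (by simp)

end Pool.Agent.D3T
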