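import Pool.Agent.D3T.Cert
import Pool.Agent.D3T.TrD
import Pool.Agent.D3T.CaseAB
import Pool.Agent.D3T.CaseC
import Pool.Agent.D3T.Deg
import Pool.Agent.D3T.Red
import Pool.Agent.Helper33.DefNum.Main

/-!
# D3T, module Main: `d(K_n x K_n, 2n - 3)`
-/

set_option autoImplicit false

namespace Pool.Agent.D3T

open Pool.Agent.Helper33.DefNum

theorem no_pat {R C K : Type} [DecidableEq R] [DecidableEq C] (U : Finset (R × C))
    (F : R → C → K) (hT : T3 (fun i j => (i, j) ∈ U) F)
    (hmin : ∀ U' ⊂ U, 6 * U'.card ≤ 7 * lns U') (hbad : 7 * lns U < 6 * U.card)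
    (hdr : ∀ i, dr U i = 0 ∨ dr U i = 2 ∨ dr U i = 3)
    (hdc : ∀ j, dc U j = 0 ∨ dc U j = 2 ∨ dc U j = 3) (i : R) (hi : dr U i = 3) :
    ¬ (PatA U i ∨ PatB U i ∨ PatC U i) := by
  rintro (h | h | h)
  · obtain ⟨r, c, hf⟩ := fit_A U i hi h
    exact tree_sound obs obs_bad U F hT hmin hbad hdr hdc 30 sA _ _ r c hf (by decide) tree_A
  · obtain ⟨r, c, hf⟩ := fit_B U i hi h
    exact tree_sound obs obs_bad U F hT hmin hbad hdr hdc 30 sB _ _ r c hf (by decide) tree_B
  · obtain ⟨r, c, hf | hf | hf⟩ := fit_C U i hi h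
    · exact tree_sound obs obs_bad U F hT hmin hbad hdr hdc 30 sC1 _ _ r c hf (by decide) tree_C1
    · exact tree_sound obs obs_bad U F hT hmin hbad hdr hdc 30 sC2 _ _ r c hf (by decide) tree_C2
    · exact tree_sound obs obs_bad U F hT hmin hbad hdr hdc 30 sC3 _ _ r c hf (by decide) tree_C3

theorem card_le_lns {R C K : Type} [DecidableEq R] [DecidableEq C] (F : R → C → K) :
    ∀ U : Finset (R × C), T3 (fun i j => (i, j) ∈ U) F → 6 * U.card ≤ 7 * lns U := by
  intro U
  induction U using Finset.strongInduction with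
  | H U ih =>
    intro hT
    by_contra hcon
    have hbad : 7 * lns U < 6 * U.card := not_le.1 hcon
    have hmin : ∀ U' ⊂ U, 6 * U'.card ≤ 7 * lns U' := fun U' hU' =>
      ih U' hU' (hT.mono fun i j hij => hU'.1 hij)
    have hdr := row_deg U F o16_bad hT hmin hbad
    have hdc := col_deg U F o16_bad hT hmin hbad
    rcases pat_or U hdr hdc hbad with ⟨i, hi, h⟩ | ⟨j, hj, h⟩
    · exact no_pat U F hT hmin hbad hdr hdc i hi h
    · refine no_pat (tps U) (fun j i => F i j) (t3_tps U F hT) (min_tps U hmin) ?_ ?_ ?_ j hj h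
      · rw [lns_tps, card_tps]; exact hbad
      · intro j; rw [dr_tps]; exact hdc j
      · intro i; rw [dc_tps]; exact hdr i

theorem lower3 {n : ℕ} (hn : 3 ≤ n) :
    3 * n ^ 2 ≤ 3 * definingNumber (grid n) (2 * n - 3) + 7 * n :=
  lower_of_card (fun _ _ U F h => card_le_lns F U h) hn

theorem upper3 {n : ℕ} (hn : 18 ≤ n) :
    3 * definingNumber (grid n) (2 * n - 3) + 7 * n ≤ 3 * n ^ 2 + 84 := by
  have h := border_latin (s := 3) (n := n) (by norm_num) (by omega)
  norm_num at h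
  omega

theorem exact3 {t : ℕ} (ht : 1 ≤ t) :
    definingNumber (grid (6 * t)) (12 * t - 3) = 36 * t ^ 2 - 14 * t := by
  have h1 := lower3 (n := 6 * t) (by omega)
  have h2 := product_latin (s := 3) (m := 2 * t) (by norm_num) (by omega)
  have e1 : 3 * (2 * t) = 6 * t := by ring
  have e2 : 2 * (6 * t) = 12 * t := by ring
  rw [e1] at h2
  rw [e2] at h1 h2
  have e3 : (6 * t) ^ 2 = 36 * t ^ 2 := by ring
  rw [e3] at h1 h2
  norm_num at h2
  omega

end Pool.Agent.D3T
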