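import Pool.Agent.D3T.O1

/-!
# D3T: a bad graph (generated)

The graph with the rows

    ####

is no subgraph of the undefined cells.  The certificate (axioms, trades, steps) is checked by the kernel.
The import of another certificate only bounds the number of certificates checked in parallel.
-/

set_option autoImplicit false
set_option maxRecDepth 100000

noncomputable section

namespace Pool.Agent.D3T

private def o16_A : List ℕ :=
[0, 16, 32, 48, 1033, 2057, 3081, 25, 2073, 3097, 41, 1065, 3113, 57, 1081, 2105, 12715018,
12714010, 12648490, 8454202]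

private def o16_T : List (List (ℕ × ℕ × ℕ)) :=
[[(0, 2, 0), (1, 3, 0), (2, 4, 0), (3, 1, 0)], [(0, 3, 0), (2, 1, 0)], [(0, 3, 0), (2, 4, 0), (3,
2, 0), (1, 1, 0)], [(1, 3, 0), (2, 2, 0)], [(0, 4, 0), (3, 2, 0), (1, 3, 0), (2, 1, 0)], [(1, 4,
0), (3, 3, 0), (2, 2, 0)], [(0, 3, 0), (2, 2, 0), (1, 1, 0)], [(0, 4, 0), (3, 3, 0), (2, 1, 0)],
[(2, 4, 0), (3, 3, 0)], [(0, 2, 0), (1, 4, 0), (3, 3, 0), (2, 1, 0)], [(0, 2, 0), (1, 3, 0), (2, 1,
0)], [(0, 2, 0), (1, 4, 0), (3, 1, 0)], [(0, 4, 0), (3, 1, 0)], [(0, 4, 0), (3, 3, 0), (2, 2, 0),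
(1, 1, 0)], [(0, 3, 0), (2, 2, 0), (1, 4, 0), (3, 1, 0)], [(0, 2, 0), (1, 1, 0)], [(0, 3, 0), (2,
4, 0), (3, 1, 0)], [(0, 4, 0), (3, 2, 0), (1, 1, 0)], [(1, 4, 0), (3, 2, 0)], [(1, 3, 0), (2, 4,
0), (3, 2, 0)]]

private def o16_S : List ℕ :=
[27023252199342082, 67555100566437890, 72059250083856386, 31527401716760578,
57291945607550865210689482848155713507680071626811227241965035438082,
20375706625600440091714303494774577460375594967846123419904049191725478323403132218364297217,
40534049001144321, 469467033347367423747099703018452052858778978132145097761720747797807106,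
19353333942209543870354459425493341464668214636360986064205416747319148814483993879424712705,
45038198585671681, 81090635171700737, 36029350197993473, 19794699567105, 22519101205528577,
552281253224673058492175732332590503125752073728376072639133241385254913, 22543679651841,
76590884237664257, 24193081663489, 18145834958849, 171165377035517953, 63050948498882561,
23093771190273, 90106081502011393, 23643728683009, 15947214340097, 1254639834382235025409,
126132679699267585, 58548998541590529, 54044299469668353, 49540150153576449, 85606330635173888]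

theorem o16_bad : Bad 1 4 [(0, 0), (0, 1), (0, 2), (0, 3)] :=
  bad_of_chk (1, 4) _ [0, 1, 2, 3] o16_A o16_T o16_S (by decide +kernel)

end Pool.Agent.D3T
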