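import Pool.Agent.D3T.O0
import Pool.Agent.D3T.O1
import Pool.Agent.D3T.O2
import Pool.Agent.D3T.O3
import Pool.Agent.D3T.O4
import Pool.Agent.D3T.O5
import Pool.Agent.D3T.O6
import Pool.Agent.D3T.O8
import Pool.Agent.D3T.O9
import Pool.Agent.D3T.O10
import Pool.Agent.D3T.O11
import Pool.Agent.D3T.O12
import Pool.Agent.D3T.O13
import Pool.Agent.D3T.O14
import Pool.Agent.D3T.O15
import Pool.Agent.D3T.O16

/-!
# D3T, module Obs: the list of the bad graphs (generated)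
-/

set_option autoImplicit false

namespace Pool.Agent.D3T

def obs : List (ℕ × ℕ × List (ℕ × ℕ)) := [
  (3, 2, [(0, 0), (0, 1), (1, 0), (1, 1), (2, 0), (2, 1)]),
  (4, 4, [(0, 0), (0, 2), (0, 3), (1, 1), (1, 2), (1, 3), (2, 1), (3, 3)]),
  (4, 4, [(0, 0), (0, 1), (0, 3), (1, 2), (1, 3), (2, 2), (2, 3), (3, 2)]),
  (5, 3, [(0, 0), (0, 1), (0, 2), (1, 1), (1, 2), (2, 0), (3, 1), (4, 2)]),
  (5, 4, [(0, 0), (0, 2), (0, 3), (1, 1), (1, 2), (2, 1), (2, 3), (3, 2), (4, 3)]),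
  (4, 3, [(0, 0), (0, 1), (0, 2), (1, 0), (1, 1), (2, 0), (2, 2), (3, 1), (3, 2)]),
  (5, 3, [(0, 0), (0, 1), (1, 0), (1, 2), (2, 1), (2, 2), (3, 1), (3, 2), (4, 0)]),
  (5, 5, [(0, 0), (0, 2), (0, 4), (1, 1), (1, 3), (1, 4), (2, 2), (3, 3), (4, 4)]),
  (5, 5, [(0, 0), (0, 1), (0, 3), (1, 2), (1, 3), (1, 4), (2, 2), (3, 4), (4, 4)]),
  (6, 5, [(0, 1), (0, 2), (0, 4), (1, 0), (1, 3), (2, 2), (2, 4), (3, 3), (3, 4), (4, 1), (5, 3)]),
  (5, 4, [(0, 0), (0, 1), (0, 3), (1, 1), (1, 2), (2, 2), (2, 3), (3, 2), (4, 3)]),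
  (8, 4, [(0, 0), (0, 3), (1, 1), (1, 3), (2, 2), (2, 3), (3, 0), (4, 1), (5, 1), (6, 2), (7, 2)]),
  (6, 4, [(0, 0), (0, 3), (1, 1), (1, 2), (2, 1), (2, 3), (3, 2), (3, 3), (4, 0), (5, 2)]),
  (6, 4, [(0, 0), (0, 3), (1, 1), (1, 2), (2, 1), (2, 3), (3, 2), (3, 3), (4, 1), (5, 2)]),
  (5, 4, [(0, 0), (0, 2), (1, 1), (1, 3), (2, 2), (2, 3), (3, 2), (3, 3), (4, 1)])]

theorem obs_bad : ∀ o ∈ obs, Bad o.1 o.2.1 o.2.2 := by
  intro o ho
  rw [obs] at ho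
  rcases List.mem_cons.1 ho with rfl | ho
  · exact o0_bad
  rcases List.mem_cons.1 ho with rfl | ho
  · exact o1_bad
  rcases List.mem_cons.1 ho with rfl | ho
  · exact o2_bad
  rcases List.mem_cons.1 ho with rfl | ho
  · exact o3_bad
  rcases List.mem_cons.1 ho with rfl | ho
  · exact o4_bad
  rcases List.mem_cons.1 ho with rfl | ho
  · exact o5_bad
  rcases List.mem_cons.1 ho with rfl | ho
  · exact o6_bad
  rcases List.mem_cons.1 ho with rfl | ho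
  · exact o8_bad
  rcases List.mem_cons.1 ho with rfl | ho
  · exact o9_bad
  rcases List.mem_cons.1 ho with rfl | ho
  · exact o10_bad
  rcases List.mem_cons.1 ho with rfl | ho
  · exact o11_bad
  rcases List.mem_cons.1 ho with rfl | ho
  · exact o12_bad
  rcases List.mem_cons.1 ho with rfl | ho
  · exact o13_bad
  rcases List.mem_cons.1 ho with rfl | ho
  · exact o14_bad
  rcases List.mem_cons.1 ho with rfl | ho
  · exact o15_bad
  exact absurd ho List.not_mem_nil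

end Pool.Agent.D3T
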