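import Mathlib

/-!
# D3T (MP_0e4c8c_co, k = 2n - 3), module Rup: checking of unsatisfiability certificates

A clause is a pair of bit masks: the positive and the negative variables.  The certificate is a
list of steps; a step is a number with digits in base `8192`: first the number of literals of the
new clause, then its literals (`2 * variable + sign`, sign `1` for a negative literal), then the
indices of the clauses used in the unit propagation.  Everything is defined by recursors, for the
evaluation by the kernel (do not change the definitions).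
-/

set_option autoImplicit false

noncomputable section

namespace Pool.Agent.D3T

/-- case distinction: zero or not -/
def ifz {α : Type} (n : ℕ) (a b : α) : α := Nat.rec (motive := fun _ => α) a (fun _ _ => b) n

/-- case distinction on a truth value -/
def ifb (c : Bool) (a b : Bool) : Bool := Bool.rec (motive := fun _ => Bool) b a c

/-- binary trees of clauses -/
inductive Tr : Type
  | nil
  | leaf (p n : ℕ)
  | node (l r : Tr)

/-- the clause with index `i`; the clause `x₀ ∨ ¬ x₀` if there is none -/
def Tr.get (t : Tr) : ℕ → (ℕ → ℕ → Bool) → Bool :=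
  Tr.rec (motive := fun _ => ℕ → (ℕ → ℕ → Bool) → Bool) (fun _ k => k 1 1) (fun p n _ k => k p n)
    (fun _ _ gl gr i k => ifz (Nat.land i 1) (gl (Nat.div i 2) k) (gr (Nat.div i 2) k)) t

/-- the left part -/
def Tr.lft (t : Tr) : Tr :=
  Tr.rec (motive := fun _ => Tr) .nil (fun _ _ => .nil) (fun l _ _ _ => l) t

/-- the right part -/
def Tr.rgt (t : Tr) : Tr :=
  Tr.rec (motive := fun _ => Tr) .nil (fun _ _ => .nil) (fun _ r _ _ => r) t

/-- insertion of a clause -/
def Tr.ins (d : ℕ) : Tr → ℕ → ℕ → ℕ → Tr :=
  Nat.rec (motive := fun _ => Tr → ℕ → ℕ → ℕ → Tr) (fun _ _ p n => .leaf p n)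
    (fun _ ih t i p n => ifz (Nat.land i 1) (.node (ih t.lft (Nat.div i 2) p n) t.rgt)
      (.node t.lft (ih t.rgt (Nat.div i 2) p n))) d

/-- unit propagation with hints given by the digits of `h`; `T` the true, `F` the false variables -/
def prop (t : Tr) (f : ℕ) : ℕ → ℕ → ℕ → Bool :=
  Nat.rec (motive := fun _ => ℕ → ℕ → ℕ → Bool) (fun _ _ _ => false)
    (fun _ ih h T F => t.get (Nat.land h 8191) fun p n =>
      Nat.rec (motive := fun _ => Bool)
        (Nat.rec (motive := fun _ => Bool) true
          (fun n' _ => ifz (Nat.land (Nat.succ n') n')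
            (ih (Nat.shiftRight h 13) T (Nat.lor F (Nat.succ n'))) false)
          (Nat.xor n (Nat.land n T)))
        (fun p' _ => ifz (Nat.lor (Nat.land (Nat.succ p') p') (Nat.xor n (Nat.land n T)))
          (ih (Nat.shiftRight h 13) (Nat.lor T (Nat.succ p')) F) false)
        (Nat.xor p (Nat.land p F))) f

/-- reads `f` literals of the step `h`; continues with the rest and the masks -/
def lits (f : ℕ) : ℕ → ℕ → ℕ → (ℕ → ℕ → ℕ → Bool) → Bool :=
  Nat.rec (motive := fun _ => ℕ → ℕ → ℕ → (ℕ → ℕ → ℕ → Bool) → Bool) (fun h P N k => k h P N)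
    (fun _ ih h P N k => ifz (Nat.land h 1)
      (ih (Nat.shiftRight h 13)
        (Nat.lor P (Nat.shiftLeft 1 (Nat.land (Nat.shiftRight h 1) 4095))) N k)
      (ih (Nat.shiftRight h 13) P
        (Nat.lor N (Nat.shiftLeft 1 (Nat.land (Nat.shiftRight h 1) 4095))) k)) f

/-- the steps are correct and one of them is the empty clause -/
def run (l : List ℕ) : Tr → ℕ → Bool :=
  List.rec (motive := fun _ => Tr → ℕ → Bool) (fun _ _ => false)
    (fun h _ ih t i => lits (Nat.land h 8191) (Nat.shiftRight h 13) 0 0 fun rest P N =>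
      ifb (prop t 1000 rest N P)
        (ifz (Nat.lor P N) true (ih (Tr.ins 13 t i P N) (Nat.succ i))) false) l

/-- insertion of a list of clauses -/
def insT (l : List (ℕ × ℕ)) : Tr → ℕ → (Tr → ℕ → Bool) → Bool :=
  List.rec (motive := fun _ => Tr → ℕ → (Tr → ℕ → Bool) → Bool) (fun t i k => k t i)
    (fun c _ ih t i k => ih (Tr.ins 13 t i c.1 c.2) (Nat.succ i) k) l

/-- the clause with the masks `p`, `n` holds for the values `v` of the variables -/
def Hd (v : ℕ → Prop) (p n : ℕ) : Prop :=
  (∃ i, p.testBit i = true ∧ v i) ∨ ∃ i, n.testBit i = true ∧ ¬ v i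

/-- all clauses of the tree hold -/
def Tr.All (v : ℕ → Prop) : Tr → Prop
  | .nil => True
  | .leaf p n => Hd v p n
  | .node l r => l.All v ∧ r.All v

end Pool.Agent.D3T
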