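import Pool.Agent.D3T.Axm

/-!
# D3T, module SemA: values of the variables, masks with one bit
-/

set_option autoImplicit false

namespace Pool.Agent.D3T

open Pool.Agent.Helper33.DefNum

private theorem sema_lt {N x y : ℕ} (hx : x < N) (hy : y < N) : x * N + y < N * N := by
  have h1 : (x + 1) * N ≤ N * N := Nat.mul_le_mul_right N hx
  have h2 : (x + 1) * N = x * N + N := by ring
  omega

private theorem sema_div {N x y : ℕ} (hy : y < N) : (x * N + y) / N = x := by
  have hN : 0 < N := by omega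
  rw [Nat.add_comm, Nat.add_mul_div_right _ _ hN, Nat.div_eq_of_lt hy, Nat.zero_add]

private theorem sema_mod {N x y : ℕ} (hy : y < N) : (x * N + y) % N = y := by
  rw [Nat.add_comm, Nat.add_mul_mod_self_right, Nat.mod_eq_of_lt hy]

theorem bt_bit (x i : ℕ) : (bt x).testBit i = true ↔ i = x := by
  show (1 <<< x).testBit i = true ↔ i = x
  rw [Nat.one_shiftLeft, Nat.testBit_two_pow, decide_eq_true_iff]
  exact ⟨Eq.symm, Eq.symm⟩

theorem lor_bit (x y i : ℕ) : (Nat.lor x y).testBit i = true ↔ x.testBit i = true ∨ y.testBit i = true := by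
  show (x ||| y).testBit i = true ↔ _
  rw [Nat.testBit_or, Bool.or_eq_true]

section

variable {R C L : Type} {b : ℕ × ℕ} {F : R → C → L} {r : ℕ → R} {c : ℕ → C}

theorem sem_E {x y : ℕ} (hx : x < b.1 * b.2) (hy : y < b.1 * b.2) :
    sem b F r c (vE b x y) ↔ colr b F r c x = colr b F r c y := by
  unfold sem vE
  generalize hN : b.1 * b.2 = N at hx hy ⊢
  cases hle : Nat.ble x y with
  | true =>
    show (if x * N + y < N * N then _ else _) ↔ _
    rw [if_pos (sema_lt hx hy)]
    show colr b F r c ((x * N + y) / N) = colr b F r c ((x * N + y) % N) ↔ _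
    rw [sema_div hy, sema_mod hy]
  | false =>
    show (if y * N + x < N * N then _ else _) ↔ _
    rw [if_pos (sema_lt hy hx)]
    show colr b F r c ((y * N + x) / N) = colr b F r c ((y * N + x) % N) ↔ _
    rw [sema_div hx, sema_mod hx]
    exact ⟨Eq.symm, Eq.symm⟩

theorem sem_M {e x : ℕ} (he : e < b.1 * b.2) (hx : x < b.1 * b.2) :
    sem b F r c (vM b e x) ↔ Rw F (r (e / b.2)) (colr b F r c x) ∧ Cl F (c (e % b.2)) (colr b F r c x) := by
  unfold sem vM
  generalize hN : b.1 * b.2 = N at he hx ⊢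
  have h1 := sema_lt he hx
  rw [if_neg (by omega), if_pos (by omega), Nat.add_sub_cancel_left, sema_div hx, sema_mod hx]

theorem sem_R {i x : ℕ} (hi : i < b.1) (hx : x < b.1 * b.2) :
    sem b F r c (vR b i x) ↔ Rw F (r i) (colr b F r c x) := by
  unfold sem vR
  generalize hN : b.1 * b.2 = N at hx ⊢
  rw [if_neg (by omega), if_neg (by omega), Nat.add_sub_cancel_left, sema_div hx, sema_mod hx, if_pos hi]

theorem sem_C {j x : ℕ} (hj : j < b.2) (hx : x < b.1 * b.2) :
    sem b F r c (vC b j x) ↔ Cl F (c j) (colr b F r c x) := by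
  unfold sem vC
  generalize hN : b.1 * b.2 = N at hx ⊢
  rw [if_neg (by omega), if_neg (by omega), Nat.add_sub_cancel_left, sema_div hx, sema_mod hx,
    if_neg (by omega), Nat.add_sub_cancel_left]

theorem same_ne {U : R → C → Prop} (hT : T3 U F) {E : List (ℕ × ℕ)} (hs : Emb b.1 b.2 E U r c)
    {x y : ℕ} (hx : x < b.1 * b.2) (hy : y < b.1 * b.2) (h : same b x y = true) :
    colr b F r c x ≠ colr b F r c y := by
  intro heq
  have hb2 : 0 < b.2 := by
    rcases Nat.eq_zero_or_pos b.2 with h0 | h0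
    · rw [h0, Nat.mul_zero] at hx
      omega
    · exact h0
  have hx1 : x / b.2 < b.1 := (Nat.div_lt_iff_lt_mul hb2).2 hx
  have hy1 : y / b.2 < b.1 := (Nat.div_lt_iff_lt_mul hb2).2 hy
  have hx2 : x % b.2 < b.2 := Nat.mod_lt _ hb2
  have hy2 : y % b.2 < b.2 := Nat.mod_lt _ hb2
  have hxx := Nat.div_add_mod x b.2
  have hyy := Nat.div_add_mod y b.2
  unfold same at h
  rw [Bool.and_eq_true, Bool.or_eq_true] at h
  obtain ⟨hne, hrc⟩ := h
  have hne' : x ≠ y := by
    intro h1
    rw [h1, Nat.beq_refl] at hne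
    exact Bool.noConfusion hne
  apply hne'
  have heq' : F (r (x / b.2)) (c (x % b.2)) = F (r (y / b.2)) (c (y % b.2)) := heq
  rcases hrc with h1 | h1
  · have h2 : x / b.2 = y / b.2 := Nat.eq_of_beq_eq_true h1
    rw [h2] at heq'
    have h3 := hs.cinj _ hx2 _ hy2 (hT.rinj _ _ _ heq')
    rw [← hxx, ← hyy, h2, h3]
  · have h2 : x % b.2 = y % b.2 := Nat.eq_of_beq_eq_true h1
    rw [h2] at heq'
    have h3 := hs.rinj _ hx1 _ hy1 (hT.cinj _ _ _ heq')
    rw [← hxx, ← hyy, h2, h3]

/-- the mask `bE` -/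
theorem bE_bit {U : R → C → Prop} (hT : T3 U F) {E : List (ℕ × ℕ)} (hs : Emb b.1 b.2 E U r c)
    {x y : ℕ} (hx : x < b.1 * b.2) (hy : y < b.1 * b.2) (h : colr b F r c x = colr b F r c y) :
    ∃ i, (bE b x y).testBit i = true ∧ sem b F r c i := by
  have h1 : same b x y = false := by
    cases h2 : same b x y with
    | true => exact absurd h (same_ne hT hs hx hy h2)
    | false => rfl
  have h3 : bE b x y = bt (vE b x y) := by
    unfold bE
    rw [h1]
  refine ⟨vE b x y, ?_, (sem_E hx hy).2 h⟩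
  rw [h3]
  exact (bt_bit _ _).2 rfl

end

end Pool.Agent.D3T
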