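import Pool.Agent.D3T.TDefs

/-!
# D3T, module TrA: leaves of the case tree

Plan.  `sw = false`: apply `ho` to `U`, `F`, `hT` and `r ∘ ρ`, `c ∘ κ`, that is `fun i => r (ρ.getD i 0)`, `fun j => c (κ.getD j 0)`: injective
because `ρ`, `κ` are nodup, of lengths `o.1`, `o.2.1`, with values below `s.a`, `s.b` and `hs.rinj`, `hs.cinj`; edges: `hs.mem`.  `sw = true`:
the same with `hT.transpose`, rows of `o` go to columns: `fun i => c (ρ.getD i 0)`, `fun j => r (κ.getD j 0)`.
Useful: `List.getD_eq_getElem`, `List.getElem_mem`, `List.Nodup.getElem_inj_iff`, `List.elem_iff`/`List.elem_eq_mem`, `List.all_eq_true`.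
-/

set_option autoImplicit false

namespace Pool.Agent.D3T

private theorem TrA_inj {X : Type} (l : List ℕ) (hn : l.Nodup) (n : ℕ)
    (hl : l.all (fun x => x < n) = true) (r : ℕ → X)
    (hr : ∀ i < n, ∀ i' < n, r i = r i' → i = i') :
    ∀ i < l.length, ∀ i' < l.length, r (l.getD i 0) = r (l.getD i' 0) → i = i' := by
  intro i hi i' hi' h
  have e1 : l.getD i 0 = l[i] := List.getD_eq_getElem _ _ hi
  have e2 : l.getD i' 0 = l[i'] := List.getD_eq_getElem _ _ hi'
  rw [e1, e2] at h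
  have h1 : l[i] < n := by
    have h3 := List.all_eq_true.mp hl l[i] (List.getElem_mem hi)
    exact of_decide_eq_true h3
  have h2 : l[i'] < n := by
    have h3 := List.all_eq_true.mp hl l[i'] (List.getElem_mem hi')
    exact of_decide_eq_true h3
  exact (List.Nodup.getElem_inj_iff hn).mp (hr _ h1 _ h2 h)

theorem leaf_sound {R C K : Type} (o : ℕ × ℕ × List (ℕ × ℕ)) (ho : Bad o.1 o.2.1 o.2.2)
    (U : R → C → Prop) (F : R → C → K) (hT : T3 U F) (s : Stt) (r : ℕ → R) (c : ℕ → C)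
    (hs : Emb s.a s.b s.E U r c) (sw : Bool) (ρ κ : List ℕ) (h : leafOk o s sw ρ κ = true) :
    False := by
  cases sw with
  | false =>
    simp only [leafOk, Bool.and_eq_true, beq_iff_eq, decide_eq_true_eq] at h
    obtain ⟨⟨⟨⟨⟨⟨h1, h2⟩, h3⟩, h4⟩, h5⟩, h6⟩, h7⟩ := h
    refine ho R C K U F hT (fun i => r (ρ.getD i 0)) (fun j => c (κ.getD j 0)) ⟨?_, ?_, ?_⟩
    · rw [← h1]
      exact TrA_inj ρ h5 s.a h3 r hs.rinj
    · rw [← h2]
      exact TrA_inj κ h6 s.b h4 c hs.cinj
    · intro e he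
      have h8 := List.all_eq_true.mp h7 e he
      simp only [Bool.and_eq_true, decide_eq_true_eq] at h8
      exact hs.mem _ (List.elem_iff.mp h8.2)
  | true =>
    simp only [leafOk, Bool.and_eq_true, beq_iff_eq, decide_eq_true_eq] at h
    obtain ⟨⟨⟨⟨⟨⟨h1, h2⟩, h3⟩, h4⟩, h5⟩, h6⟩, h7⟩ := h
    refine ho C R K (fun j i => U i j) (fun j i => F i j) hT.transpose
      (fun i => c (ρ.getD i 0)) (fun j => r (κ.getD j 0)) ⟨?_, ?_, ?_⟩
    · rw [← h1]
      exact TrA_inj ρ h5 s.b h3 c hs.cinj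
    · rw [← h2]
      exact TrA_inj κ h6 s.a h4 r hs.rinj
    · intro e he
      have h8 := List.all_eq_true.mp h7 e he
      simp only [Bool.and_eq_true, decide_eq_true_eq] at h8
      exact hs.mem _ (List.elem_iff.mp h8.2)

end Pool.Agent.D3T
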