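import Pool.Agent.D3T.Axm

/-!
# D3T, module Trd: trades as clauses (definitions)

A trade is a list of triples `(v, p, q)`: the cell `v` gets the colour of the cell `p - 1` of its row
(if `p ≠ 0`) or of the cell `q - 1` of its column (if `p = 0`); if both are not `0` these two colours
are equal.  All the cells `v`, `p - 1`, `q - 1` belong to the trade.  If `q = 0` the colour of `p - 1` does not
occur in the column of `v`, if `p = 0` the colour of `q - 1` does not occur in the row of `v`.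
-/

set_option autoImplicit false

noncomputable section

namespace Pool.Agent.D3T

open Pool.Agent.Helper33.DefNum

/-- positive literals of one member -/
def tP1 (b : ℕ × ℕ) (w : ℕ × ℕ × ℕ) : ℕ :=
  if w.2.2 = 0 then bt (vC b (w.1 % b.2) (w.2.1 - 1)) else
    if w.2.1 = 0 then bt (vR b (w.1 / b.2) (w.2.2 - 1)) else 0

/-- positive literals of two members -/
def tP2 (b : ℕ × ℕ) (w w' : ℕ × ℕ × ℕ) : ℕ :=
  if w.1 = w'.1 then 0 else
    Nat.lor
      (if w.1 / b.2 = w'.1 / b.2 ∧ w.2.1 = 0 ∧ w'.2.1 = 0 then bE b (w.2.2 - 1) (w'.2.2 - 1) else 0)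
      (if w.1 % b.2 = w'.1 % b.2 ∧ w.2.2 = 0 ∧ w'.2.2 = 0 then bE b (w.2.1 - 1) (w'.2.1 - 1) else 0)

/-- the positive mask -/
def tP (b : ℕ × ℕ) (W : List (ℕ × ℕ × ℕ)) : ℕ :=
  W.foldr (fun w m => Nat.lor (Nat.lor (tP1 b w)
    (W.foldr (fun w' m' => Nat.lor (tP2 b w w') m') 0)) m) 0

/-- the negative mask -/
def tN (b : ℕ × ℕ) (W : List (ℕ × ℕ × ℕ)) : ℕ :=
  W.foldr (fun w m => Nat.lor
    (if w.2.1 = 0 ∨ w.2.2 = 0 then 0 else bt (vE b (w.2.1 - 1) (w.2.2 - 1))) m) 0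

/-- the side conditions -/
def okW (b : ℕ × ℕ) (K : List ℕ) (W : List (ℕ × ℕ × ℕ)) : Bool :=
  !W.isEmpty && decide (W.map Prod.fst).Nodup &&
  W.all (fun w => K.elem w.1 &&
    (w.2.1 == 0 || ((W.map Prod.fst).elem (w.2.1 - 1) && (w.2.1 - 1) / b.2 == w.1 / b.2 &&
      w.2.1 - 1 != w.1)) &&
    (w.2.2 == 0 || ((W.map Prod.fst).elem (w.2.2 - 1) && (w.2.2 - 1) % b.2 == w.1 % b.2 &&
      w.2.2 - 1 != w.1)) &&
    !(w.2.1 == 0 && w.2.2 == 0) &&
    W.all (fun w' => w.1 == w'.1 ||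
      ((!(w.1 / b.2 == w'.1 / b.2) || w.2.1 == 0 || w'.2.1 == 0 || w.2.1 != w'.2.1) &&
        (!(w.1 % b.2 == w'.1 % b.2) || w.2.2 == 0 || w'.2.2 == 0 || w.2.2 != w'.2.2))))

end Pool.Agent.D3T
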