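import Pool.Agent.D3T.Defs

/-!
# D3T, module TrdA: trades

Plan.  Put `G i j = z i j` if `W i j`, `F i j` otherwise (classical).  Rows: let `G i j = G i j'`.  Both in `W`: `hrr`.  `W i j`, `¬ W i j'`: `z i j = F i j'`; by `hrow` either `z i j = F i j''` with `W i j''`, so `j'' = j'` (`rinj`), a contradiction; or `z i j` does not occur in the row `i`, a contradiction.
None in `W`: `rinj`.  Columns: the same.  `G = F` outside `U` (`hW`).  So `G = F` by `uniq`, a contradiction to `hne`.
-/

set_option autoImplicit false

namespace Pool.Agent.D3T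

open Pool.Agent.Helper33.DefNum

theorem trade_abs {R C L : Type} {U : R → C → Prop} {F : R → C → L} (hT : T3 U F)
    (W : R → C → Prop) (z : R → C → L) (hW : ∀ i j, W i j → U i j)
    (hrow : ∀ i j, W i j → (∃ j', W i j' ∧ z i j = F i j') ∨ ¬ Rw F i (z i j))
    (hcol : ∀ i j, W i j → (∃ i', W i' j ∧ z i j = F i' j) ∨ ¬ Cl F j (z i j))
    (hrr : ∀ i j j', W i j → W i j' → z i j = z i j' → j = j')
    (hcc : ∀ i i' j, W i j → W i' j → z i j = z i' j → i = i')
    (hne : ∃ i j, W i j ∧ z i j ≠ F i j) : False := by
  classical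
  obtain ⟨i₀, j₀, hW₀, hz₀⟩ := hne
  have key := hT.uniq (fun i j => if W i j then z i j else F i j) ?_ ?_ ?_ i₀ j₀
  · simp only [if_pos hW₀] at key
    exact hz₀ key
  · intro i j j' h
    have aux : ∀ j j', W i j → ¬ W i j' → z i j = F i j' → False := by
      intro j j' h1 h2 h3
      rcases hrow i j h1 with ⟨j'', h4, h5⟩ | h4
      · have h6 : F i j' = F i j'' := h3.symm.trans h5
        have h7 := hT.rinj i j' j'' h6
        exact h2 (h7 ▸ h4)
      · exact h4 ⟨j', h3.symm⟩
    by_cases h1 : W i j
    · by_cases h2 : W i j'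
      · simp only [if_pos h1, if_pos h2] at h
        exact hrr i j j' h1 h2 h
      · simp only [if_pos h1, if_neg h2] at h
        exact (aux j j' h1 h2 h).elim
    · by_cases h2 : W i j'
      · simp only [if_neg h1, if_pos h2] at h
        exact (aux j' j h2 h1 h.symm).elim
      · simp only [if_neg h1, if_neg h2] at h
        exact hT.rinj i j j' h
  · intro j i i' h
    have aux : ∀ i i', W i j → ¬ W i' j → z i j = F i' j → False := by
      intro i i' h1 h2 h3
      rcases hcol i j h1 with ⟨i'', h4, h5⟩ | h4
      · have h6 : F i' j = F i'' j := h3.symm.trans h5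
        have h7 := hT.cinj j i' i'' h6
        exact h2 (h7 ▸ h4)
      · exact h4 ⟨i', h3.symm⟩
    by_cases h1 : W i j
    · by_cases h2 : W i' j
      · simp only [if_pos h1, if_pos h2] at h
        exact hcc i i' j h1 h2 h
      · simp only [if_pos h1, if_neg h2] at h
        exact (aux i i' h1 h2 h).elim
    · by_cases h2 : W i' j
      · simp only [if_neg h1, if_pos h2] at h
        exact (aux i' i h2 h1 h.symm).elim
      · simp only [if_neg h1, if_neg h2] at h
        exact hT.cinj j i i' h
  · intro i j hn
    have : ¬ W i j := fun h => hn (hW i j h)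
    simp only [if_neg this]

end Pool.Agent.D3T
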