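import Pool.Agent.D3T.Trd
import Pool.Agent.D3T.TrdA
import Pool.Agent.D3T.SemA

/-!
# D3T, module TrdB: the clauses of the trades hold

Plan.  Suppose that `Hd (sem b F r c) (tP b W) (tN b W)` is false; then all variables of `tP` are false and all of `tN` are true.  So for all `w = (v, p, q) ∈ W` (bits of the folds: `lor_bit`, induction on the list; `bt_bit`, `sem_C`, `sem_R`, `sem_E`, `bE_bit`; all cells are `< b.1 * b.2` by `hK` as they belong to `K`):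
(a) `q = 0`: the colour of `p - 1` is not in the column `c (v % b.2)`;  (b) `p = 0`: the colour of `q - 1` is not in the row `r (v / b.2)`;  (c) `p, q ≠ 0`: the colours of `p - 1`, `q - 1` are equal;
(d) two different members in a row with `p = p' = 0`: the colours of `q - 1`, `q' - 1` are different;  (e) two different members in a column with `q = q' = 0`: the colours of `p - 1`, `p' - 1` are different.
Let `zc w` be the colour of `p - 1` if `p ≠ 0`, of `q - 1` otherwise; by (c) it is the colour of `q - 1` whenever `q ≠ 0`.  `trade_abs` with `W' i j := ∃ w ∈ W, i = r (w.1 / b.2) ∧ j = c (w.1 % b.2)` and `z i j := zc w` for this `w` (classical choice; `w` is unique because `r`, `c` are injective and the cells `w.1`, `w ∈ W`, are different), `F i j` if there is none.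
`hrow`: `p ≠ 0`: the cell `p - 1` of the trade in the same row; `p = 0`: (b).  `hcol`: `q ≠ 0`: the cell `q - 1`; `q = 0`: (a).  `hrr`: two different members in a row: both `p ≠ 0`: the colours of different cells of a row are different; one `p = 0`: (b); both: (d).  `hcc`: the same with `q`, (a), (e).
`hne`: `zc w` is the colour of another cell of the same line.
-/

set_option autoImplicit false

namespace Pool.Agent.D3T

open Pool.Agent.Helper33.DefNum

private theorem trdb_fold {α : Type} (f : α → ℕ) (l : List α) (i : ℕ) :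
    (l.foldr (fun w m => Nat.lor (f w) m) 0).testBit i = true ↔ ∃ w ∈ l, (f w).testBit i = true := by
  induction l with
  | nil => simp
  | cons a l ih =>
    rw [List.foldr_cons, lor_bit, ih]
    simp

private theorem trdb_tP {b : ℕ × ℕ} {W : List (ℕ × ℕ × ℕ)} {i : ℕ} :
    (tP b W).testBit i = true ↔ ∃ w ∈ W, (tP1 b w).testBit i = true ∨
      ∃ w' ∈ W, (tP2 b w w').testBit i = true := by
  unfold tP
  rw [trdb_fold (fun w => Nat.lor (tP1 b w)
    (W.foldr (fun w' m' => Nat.lor (tP2 b w w') m') 0)) W i]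
  constructor
  · rintro ⟨w, hw, h⟩
    rw [lor_bit, trdb_fold (fun w' => tP2 b w w') W i] at h
    exact ⟨w, hw, h⟩
  · rintro ⟨w, hw, h⟩
    refine ⟨w, hw, ?_⟩
    rw [lor_bit, trdb_fold (fun w' => tP2 b w w') W i]
    exact h

private theorem trdb_tN {b : ℕ × ℕ} {W : List (ℕ × ℕ × ℕ)} {i : ℕ} :
    (tN b W).testBit i = true ↔ ∃ w ∈ W,
      (if w.2.1 = 0 ∨ w.2.2 = 0 then 0 else bt (vE b (w.2.1 - 1) (w.2.2 - 1))).testBit i = true := by
  unfold tN
  exact trdb_fold (fun w => if w.2.1 = 0 ∨ w.2.2 = 0 then 0 else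
    bt (vE b (w.2.1 - 1) (w.2.2 - 1))) W i

theorem trd_sound {R C L : Type} {b : ℕ × ℕ} {F : R → C → L} {r : ℕ → R} {c : ℕ → C}
    {U : R → C → Prop} {E : List (ℕ × ℕ)} {K : List ℕ} (hT : T3 U F) (hs : Emb b.1 b.2 E U r c)
    (hK : ∀ x ∈ K, x < b.1 * b.2 ∧ U (r (x / b.2)) (c (x % b.2))) (W : List (ℕ × ℕ × ℕ))
    (hW : okW b K W = true) : Hd (sem b F r c) (tP b W) (tN b W) := by
  classical
  by_contra hH
  have hP : ∀ i, (tP b W).testBit i = true → ¬ sem b F r c i := fun i h1 h2 =>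
    hH (Or.inl ⟨i, h1, h2⟩)
  have hN : ∀ i, (tN b W).testBit i = true → sem b F r c i := fun i h1 => by
    by_contra h2
    exact hH (Or.inr ⟨i, h1, h2⟩)
  unfold okW at hW
  simp only [Bool.and_eq_true, Bool.or_eq_true, Bool.not_eq_true', decide_eq_true_eq,
    List.all_eq_true, List.elem_eq_mem, beq_iff_eq, bne_iff_ne, beq_eq_false_iff_ne,
    List.isEmpty_eq_false_iff, Bool.and_eq_false_iff, ne_eq] at hW
  obtain ⟨⟨hne, hnd⟩, hall⟩ := hW
  -- basic facts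
  have lt1 : ∀ w ∈ W, w.1 < b.1 * b.2 := fun w hw => (hK w.1 (hall w hw).1.1.1.1).1
  have hU : ∀ w ∈ W, U (r (w.1 / b.2)) (c (w.1 % b.2)) := fun w hw =>
    (hK w.1 (hall w hw).1.1.1.1).2
  have hp : ∀ w ∈ W, w.2.1 ≠ 0 → (∃ w' ∈ W, w'.1 = w.2.1 - 1) ∧
      (w.2.1 - 1) / b.2 = w.1 / b.2 ∧ w.2.1 - 1 ≠ w.1 := by
    intro w hw h
    rcases (hall w hw).1.1.1.2 with h1 | ⟨⟨h1, h2⟩, h3⟩
    · exact absurd h1 h
    · rw [List.mem_map] at h1
      exact ⟨h1, h2, h3⟩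
  have hq : ∀ w ∈ W, w.2.2 ≠ 0 → (∃ w' ∈ W, w'.1 = w.2.2 - 1) ∧
      (w.2.2 - 1) % b.2 = w.1 % b.2 ∧ w.2.2 - 1 ≠ w.1 := by
    intro w hw h
    rcases (hall w hw).1.1.2 with h1 | ⟨⟨h1, h2⟩, h3⟩
    · exact absurd h1 h
    · rw [List.mem_map] at h1
      exact ⟨h1, h2, h3⟩
  have hpq : ∀ w ∈ W, w.2.1 ≠ 0 ∨ w.2.2 ≠ 0 := fun w hw => (hall w hw).1.2
  have hww : ∀ w ∈ W, ∀ w' ∈ W, w.1 ≠ w'.1 →
      (w.1 / b.2 = w'.1 / b.2 → w.2.1 ≠ 0 → w'.2.1 ≠ 0 → w.2.1 ≠ w'.2.1) ∧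
      (w.1 % b.2 = w'.1 % b.2 → w.2.2 ≠ 0 → w'.2.2 ≠ 0 → w.2.2 ≠ w'.2.2) := by
    intro w hw w' hw' h
    rcases (hall w hw).2 w' hw' with h1 | ⟨h1, h2⟩
    · exact absurd h1 h
    · constructor
      · intro e a1 a2
        rcases h1 with ((h1 | h1) | h1) | h1
        · exact absurd e h1
        · exact absurd h1 a1
        · exact absurd h1 a2
        · exact h1
      · intro e a1 a2
        rcases h2 with ((h2 | h2) | h2) | h2
        · exact absurd e h2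
        · exact absurd h2 a1
        · exact absurd h2 a2
        · exact h2
  have hb2 : 0 < b.2 := by
    obtain ⟨w, hw⟩ := List.exists_mem_of_ne_nil W hne
    have := lt1 w hw
    rcases Nat.eq_zero_or_pos b.2 with h0 | h0
    · rw [h0, Nat.mul_zero] at this
      omega
    · exact h0
  have dlt : ∀ x, x < b.1 * b.2 → x / b.2 < b.1 := fun x hx => (Nat.div_lt_iff_lt_mul hb2).2 hx
  have mlt : ∀ x, x % b.2 < b.2 := fun x => Nat.mod_lt _ hb2
  have pl : ∀ w ∈ W, w.2.1 ≠ 0 → w.2.1 - 1 < b.1 * b.2 := by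
    intro w hw h
    obtain ⟨⟨w', hw', e⟩, _⟩ := hp w hw h
    rw [← e]
    exact lt1 w' hw'
  have ql : ∀ w ∈ W, w.2.2 ≠ 0 → w.2.2 - 1 < b.1 * b.2 := by
    intro w hw h
    obtain ⟨⟨w', hw', e⟩, _⟩ := hq w hw h
    rw [← e]
    exact lt1 w' hw'
  -- cells on a line with equal colours are equal
  have rowc : ∀ x y, x < b.1 * b.2 → y < b.1 * b.2 → x / b.2 = y / b.2 →
      colr b F r c x = colr b F r c y → x = y := by
    intro x y hx hy h1 h2
    have h3 : F (r (x / b.2)) (c (x % b.2)) = F (r (y / b.2)) (c (y % b.2)) := h2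
    rw [h1] at h3
    have h4 := hs.cinj _ (mlt x) _ (mlt y) (hT.rinj _ _ _ h3)
    rw [← Nat.div_add_mod x b.2, ← Nat.div_add_mod y b.2, h1, h4]
  have colc : ∀ x y, x < b.1 * b.2 → y < b.1 * b.2 → x % b.2 = y % b.2 →
      colr b F r c x = colr b F r c y → x = y := by
    intro x y hx hy h1 h2
    have h3 : F (r (x / b.2)) (c (x % b.2)) = F (r (y / b.2)) (c (y % b.2)) := h2
    rw [h1] at h3
    have h4 := hs.rinj _ (dlt x hx) _ (dlt y hy) (hT.cinj _ _ _ h3)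
    rw [← Nat.div_add_mod x b.2, ← Nat.div_add_mod y b.2, h1, h4]
  -- the literals
  have fa : ∀ w ∈ W, w.2.2 = 0 → ¬ Cl F (c (w.1 % b.2)) (colr b F r c (w.2.1 - 1)) := by
    intro w hw h
    have hp0 : w.2.1 ≠ 0 := (hpq w hw).resolve_right (fun k => k h)
    rw [← sem_C (r := r) (mlt _) (pl w hw hp0)]
    apply hP
    rw [trdb_tP]
    refine ⟨w, hw, Or.inl ?_⟩
    unfold tP1
    rw [if_pos h, bt_bit]
  have fb : ∀ w ∈ W, w.2.1 = 0 → ¬ Rw F (r (w.1 / b.2)) (colr b F r c (w.2.2 - 1)) := by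
    intro w hw h
    have hq0 : w.2.2 ≠ 0 := (hpq w hw).resolve_left (fun k => k h)
    rw [← sem_R (c := c) (dlt _ (lt1 w hw)) (ql w hw hq0)]
    apply hP
    rw [trdb_tP]
    refine ⟨w, hw, Or.inl ?_⟩
    unfold tP1
    rw [if_neg hq0, if_pos h, bt_bit]
  have fc : ∀ w ∈ W, w.2.1 ≠ 0 → w.2.2 ≠ 0 →
      colr b F r c (w.2.1 - 1) = colr b F r c (w.2.2 - 1) := by
    intro w hw h1 h2
    rw [← sem_E (pl w hw h1) (ql w hw h2)]
    apply hN
    rw [trdb_tN]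
    refine ⟨w, hw, ?_⟩
    rw [if_neg (by tauto), bt_bit]
  have fd : ∀ w ∈ W, ∀ w' ∈ W, w.1 ≠ w'.1 → w.1 / b.2 = w'.1 / b.2 → w.2.1 = 0 → w'.2.1 = 0 →
      colr b F r c (w.2.2 - 1) ≠ colr b F r c (w'.2.2 - 1) := by
    intro w hw w' hw' h1 h2 h3 h4 h5
    have a1 : w.2.2 ≠ 0 := (hpq w hw).resolve_left (fun k => k h3)
    have a2 : w'.2.2 ≠ 0 := (hpq w' hw').resolve_left (fun k => k h4)
    obtain ⟨i, hi, hi'⟩ := bE_bit hT hs (ql w hw a1) (ql w' hw' a2) h5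
    refine hP i ?_ hi'
    rw [trdb_tP]
    refine ⟨w, hw, Or.inr ⟨w', hw', ?_⟩⟩
    unfold tP2
    rw [if_neg h1, lor_bit, if_pos ⟨h2, h3, h4⟩]
    exact Or.inl hi
  have fe : ∀ w ∈ W, ∀ w' ∈ W, w.1 ≠ w'.1 → w.1 % b.2 = w'.1 % b.2 → w.2.2 = 0 → w'.2.2 = 0 →
      colr b F r c (w.2.1 - 1) ≠ colr b F r c (w'.2.1 - 1) := by
    intro w hw w' hw' h1 h2 h3 h4 h5
    have a1 : w.2.1 ≠ 0 := (hpq w hw).resolve_right (fun k => k h3)
    have a2 : w'.2.1 ≠ 0 := (hpq w' hw').resolve_right (fun k => k h4)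
    obtain ⟨i, hi, hi'⟩ := bE_bit hT hs (pl w hw a1) (pl w' hw' a2) h5
    refine hP i ?_ hi'
    rw [trdb_tP]
    refine ⟨w, hw, Or.inr ⟨w', hw', ?_⟩⟩
    unfold tP2
    rw [if_neg h1, lor_bit, if_pos (c := w.1 % b.2 = w'.1 % b.2 ∧ w.2.2 = 0 ∧ w'.2.2 = 0) ⟨h2, h3, h4⟩]
    exact Or.inr hi
  -- colours of the trade
  obtain ⟨zc, zp, zq⟩ : ∃ zc : ℕ × ℕ × ℕ → L,
      (∀ w ∈ W, w.2.1 ≠ 0 → zc w = colr b F r c (w.2.1 - 1)) ∧
      (∀ w ∈ W, w.2.2 ≠ 0 → zc w = colr b F r c (w.2.2 - 1)) := by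
    refine ⟨fun w => if w.2.1 = 0 then colr b F r c (w.2.2 - 1) else colr b F r c (w.2.1 - 1),
      fun w hw h => if_neg h, fun w hw h => ?_⟩
    by_cases h1 : w.2.1 = 0
    · exact if_pos h1
    · exact (if_neg h1).trans (fc w hw h1 h)
  have uni : ∀ w ∈ W, ∀ w' ∈ W, r (w.1 / b.2) = r (w'.1 / b.2) → c (w.1 % b.2) = c (w'.1 % b.2) →
      w = w' := by
    intro w hw w' hw' h1 h2
    have e1 := hs.rinj _ (dlt _ (lt1 w hw)) _ (dlt _ (lt1 w' hw')) h1
    have e2 := hs.cinj _ (mlt _) _ (mlt _) h2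
    have e3 : w.1 = w'.1 := by
      rw [← Nat.div_add_mod w.1 b.2, ← Nat.div_add_mod w'.1 b.2, e1, e2]
    exact List.inj_on_of_nodup_map hnd hw hw' e3
  obtain ⟨z, hz⟩ : ∃ z : R → C → L, ∀ w ∈ W, z (r (w.1 / b.2)) (c (w.1 % b.2)) = zc w := by
    refine ⟨fun i j => if h : ∃ w ∈ W, i = r (w.1 / b.2) ∧ j = c (w.1 % b.2) then
      zc (Classical.choose h) else F i j, fun w hw => ?_⟩
    have h : ∃ w' ∈ W, r (w.1 / b.2) = r (w'.1 / b.2) ∧ c (w.1 % b.2) = c (w'.1 % b.2) :=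
      ⟨w, hw, rfl, rfl⟩
    have h1 := Classical.choose_spec h
    exact (dif_pos h).trans (congrArg zc (uni w hw _ h1.1 h1.2.1 h1.2.2).symm)
  refine trade_abs hT (fun i j => ∃ w ∈ W, i = r (w.1 / b.2) ∧ j = c (w.1 % b.2)) z ?_ ?_ ?_ ?_ ?_ ?_
  · rintro i j ⟨w, hw, rfl, rfl⟩
    exact hU w hw
  · rintro i j ⟨w, hw, rfl, rfl⟩
    rw [hz w hw]
    by_cases h : w.2.1 = 0
    · right
      rw [zq w hw ((hpq w hw).resolve_left (fun k => k h))]
      exact fb w hw h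
    · left
      obtain ⟨⟨w', hw', e⟩, e2, _⟩ := hp w hw h
      refine ⟨c (w'.1 % b.2), ⟨w', hw', ?_, rfl⟩, ?_⟩
      · rw [e, e2]
      · rw [zp w hw h, e, ← e2]
        rfl
  · rintro i j ⟨w, hw, rfl, rfl⟩
    rw [hz w hw]
    by_cases h : w.2.2 = 0
    · right
      rw [zp w hw ((hpq w hw).resolve_right (fun k => k h))]
      exact fa w hw h
    · left
      obtain ⟨⟨w', hw', e⟩, e2, _⟩ := hq w hw h
      refine ⟨r (w'.1 / b.2), ⟨w', hw', rfl, ?_⟩, ?_⟩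
      · rw [e, e2]
      · rw [zq w hw h, e, ← e2]
        rfl
  · rintro i j j' ⟨w, hw, rfl, rfl⟩ ⟨w', hw', hr, rfl⟩ h
    have hr' := hs.rinj _ (dlt _ (lt1 w hw)) _ (dlt _ (lt1 w' hw')) hr
    rw [hz w hw] at h
    rw [hr, hz w' hw'] at h
    by_contra hcon
    have hd : w.1 ≠ w'.1 := fun e => hcon (by rw [e])
    have inrow : ∀ u ∈ W, u.2.1 ≠ 0 → Rw F (r (u.1 / b.2)) (colr b F r c (u.2.1 - 1)) := by
      intro u hu h0
      exact ⟨c ((u.2.1 - 1) % b.2), by rw [← (hp u hu h0).2.1]; rfl⟩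
    by_cases h1 : w.2.1 = 0 <;> by_cases h2 : w'.2.1 = 0
    · rw [zq w hw ((hpq w hw).resolve_left (fun k => k h1)),
        zq w' hw' ((hpq w' hw').resolve_left (fun k => k h2))] at h
      exact fd w hw w' hw' hd hr' h1 h2 h
    · rw [zq w hw ((hpq w hw).resolve_left (fun k => k h1)), zp w' hw' h2] at h
      apply fb w hw h1
      rw [h, hr']
      exact inrow w' hw' h2
    · rw [zp w hw h1, zq w' hw' ((hpq w' hw').resolve_left (fun k => k h2))] at h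
      apply fb w' hw' h2
      rw [← h, ← hr']
      exact inrow w hw h1
    · rw [zp w hw h1, zp w' hw' h2] at h
      have h3 := rowc _ _ (pl w hw h1) (pl w' hw' h2)
        (by rw [(hp w hw h1).2.1, (hp w' hw' h2).2.1, hr']) h
      exact (hww w hw w' hw' hd).1 hr' h1 h2 (by omega)
  · rintro i i' j ⟨w, hw, rfl, rfl⟩ ⟨w', hw', rfl, hc⟩ h
    have hc' := hs.cinj _ (mlt _) _ (mlt _) hc
    rw [hz w hw] at h
    rw [hc, hz w' hw'] at h
    by_contra hcon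
    have hd : w.1 ≠ w'.1 := fun e => hcon (by rw [e])
    have incol : ∀ u ∈ W, u.2.2 ≠ 0 → Cl F (c (u.1 % b.2)) (colr b F r c (u.2.2 - 1)) := by
      intro u hu h0
      exact ⟨r ((u.2.2 - 1) / b.2), by rw [← (hq u hu h0).2.1]; rfl⟩
    by_cases h1 : w.2.2 = 0 <;> by_cases h2 : w'.2.2 = 0
    · rw [zp w hw ((hpq w hw).resolve_right (fun k => k h1)),
        zp w' hw' ((hpq w' hw').resolve_right (fun k => k h2))] at h
      exact fe w hw w' hw' hd hc' h1 h2 h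
    · rw [zp w hw ((hpq w hw).resolve_right (fun k => k h1)), zq w' hw' h2] at h
      apply fa w hw h1
      rw [h, hc']
      exact incol w' hw' h2
    · rw [zq w hw h1, zp w' hw' ((hpq w' hw').resolve_right (fun k => k h2))] at h
      apply fa w' hw' h2
      rw [← h, ← hc']
      exact incol w hw h1
    · rw [zq w hw h1, zq w' hw' h2] at h
      have h3 := colc _ _ (ql w hw h1) (ql w' hw' h2)
        (by rw [(hq w hw h1).2.1, (hq w' hw' h2).2.1, hc']) h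
      exact (hww w hw w' hw' hd).2 hc' h1 h2 (by omega)
  · obtain ⟨w, hw⟩ := List.exists_mem_of_ne_nil W hne
    refine ⟨r (w.1 / b.2), c (w.1 % b.2), ⟨w, hw, rfl, rfl⟩, ?_⟩
    rw [hz w hw]
    intro h
    by_cases h1 : w.2.1 = 0
    · have h2 : w.2.2 ≠ 0 := (hpq w hw).resolve_left (fun k => k h1)
      rw [zq w hw h2] at h
      exact (hq w hw h2).2.2 (colc _ _ (ql w hw h2) (lt1 w hw) (hq w hw h2).2.1 h)
    · rw [zp w hw h1] at h
      exact (hp w hw h1).2.2 (rowc _ _ (pl w hw h1) (lt1 w hw) (hp w hw h1).2.1 h)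

end Pool.Agent.D3T
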